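import Pool.Agent.Lib.MP_926cc3_nt.TH.Spec

set_option autoImplicit false

open Filter Topology MeasureTheory ProbabilityTheory ArithmeticFunction

namespace Pool.Agent.Lib.MP_926cc3_nt.TH

open Pool.Agent.Lib.MP_926cc3_nt.RS

theorem specAPX (hIDN : SpecIDN) (hROM : SpecROM) (hGIN : SpecGIN) : SpecAPX := by
  obtain ⟨C, hC, hR⟩ := hROM
  refine ⟨C + Real.log 2, add_nonneg hC (Real.log_nonneg (by norm_num)), ?_⟩
  intro z hz t ht
  obtain ⟨_, _, hG⟩ := hGIN z hz
  have hzR : (0 : ℝ) < z := by exact_mod_cast (by omega : 0 < z)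
  have hz2R : (2 : ℝ) ≤ z := by exact_mod_cast hz
  obtain ⟨L, hL⟩ : ∃ L : ℝ, L = Real.log z := ⟨_, rfl⟩
  have hL0 : 0 < L := by
    rw [hL]
    exact Real.log_pos (by linarith)
  obtain ⟨X, hX⟩ : ∃ X : ℝ, X = Real.exp (t * L) := ⟨_, rfl⟩
  have hX0 : 0 < X := by rw [hX]; exact Real.exp_pos _
  have hXz : Real.exp ((t - 1) * L) = X / z := by
    have h1 : (t - 1) * L = t * L - L := by ring
    rw [h1, Real.exp_sub, ← hX, hL, Real.exp_log hzR]
  obtain ⟨x, hx⟩ : ∃ x : ℕ, x = ⌊X⌋₊ := ⟨_, rfl⟩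
  obtain ⟨y, hy⟩ : ∃ y : ℕ, y = ⌊X / z⌋₊ := ⟨_, rfl⟩
  have hyx : y ≤ x := by
    rw [hy, hx]
    apply Nat.floor_le_floor
    exact div_le_self hX0.le (by linarith)
  have h1 := hG t (by linarith)
  have h2 := hG (t - 1) (by linarith)
  rw [← hL, ← hX, ← hx] at h1
  rw [← hL, hXz, ← hy] at h2
  have hGt : G z t = ∑ n ∈ Finset.Ioc 0 x, r z n / n := by
    unfold G
    rw [← hL, ← hX, ← hx]
  have h3 := hIDN z x hz
  -- the first difference
  have e1 : t * G z t - ∑ n ∈ Finset.Ioc 0 x, r z n / n * (t - Real.log n / L) =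
      ∑ m ∈ Finset.Ioc 0 x, r z m / m * ((∑ d ∈ Finset.Ioc 0 (x / m), r z d * Λ d / d) / L) := by
    rw [hGt, Finset.mul_sum, ← Finset.sum_sub_distrib]
    have e2 : ∀ n ∈ Finset.Ioc 0 x, t * (r z n / n) - r z n / n * (t - Real.log n / L) =
        (r z n / n * Real.log n) * L⁻¹ := by
      intro n _
      rw [div_eq_mul_inv (Real.log n) L]
      ring
    rw [Finset.sum_congr rfl e2, ← Finset.sum_mul, h3, Finset.sum_mul]
    apply Finset.sum_congr rfl
    intro m _
    rw [div_eq_mul_inv _ L, mul_assoc]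
  have e3 : ∑ n ∈ Finset.Ioc 0 y, r z n / n * (t - 1 - Real.log n / L) =
      ∑ m ∈ Finset.Ioc 0 x, r z m / m * (if m ≤ y then (t - 1 - Real.log m / L) else 0) := by
    have e4 : Finset.Ioc 0 y = (Finset.Ioc 0 x).filter (fun m => m ≤ y) := by
      ext m
      rw [Finset.mem_filter, Finset.mem_Ioc, Finset.mem_Ioc]
      constructor
      · rintro ⟨h4, h5⟩
        exact ⟨⟨h4, h5.trans hyx⟩, h5⟩
      · rintro ⟨⟨h4, _⟩, h5⟩
        exact ⟨h4, h5⟩
    rw [e4, Finset.sum_filter]
    apply Finset.sum_congr rfl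
    intro m _
    split_ifs <;> simp
  rw [h1, h2, e1, e3, ← Finset.sum_sub_distrib]
  refine (Finset.abs_sum_le_sum_abs _ _).trans ?_
  rw [hGt, ← hL, Finset.mul_sum, Finset.sum_div]
  apply Finset.sum_le_sum
  intro m hm
  rw [Finset.mem_Ioc] at hm
  have hmR : (0 : ℝ) < m := by exact_mod_cast hm.1
  have hr : 0 ≤ r z m / m := div_nonneg (Gra.r_nonneg z m) hmR.le
  rw [← mul_sub, abs_mul, abs_of_nonneg hr]
  obtain ⟨Q, hQ⟩ : ∃ Q : ℝ, Q = ∑ d ∈ Finset.Ioc 0 (x / m), r z d * Λ d / d := ⟨_, rfl⟩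
  rw [← hQ]
  have key : |Q / L - (if m ≤ y then (t - 1 - Real.log m / L) else 0)| ≤ (C + Real.log 2) / L := by
    obtain ⟨hR1, hR2⟩ := hR z (x / m) hz
    rw [← hQ] at hR1 hR2
    have hdiv : x / m = ⌊X / m⌋₊ := by
      rw [Nat.floor_div_natCast, hx]
    split_ifs with hmy
    · -- m ≤ y
      have h4 : (m : ℝ) ≤ X / z := by
        have : (y : ℝ) ≤ X / z := by
          rw [hy]
          exact Nat.floor_le (by positivity)
        have h5 : (m : ℝ) ≤ y := by exact_mod_cast hmy
        linarith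
      have h5 : (z : ℝ) ≤ X / m := by
        rw [le_div_iff₀ hmR]
        rw [le_div_iff₀ hzR] at h4
        linarith
      have h6 : z ≤ x / m := by
        rw [hdiv]
        exact Nat.le_floor h5
      have h7 := hR2 h6
      have h8 : ((x / m : ℕ) : ℝ) ≤ X / m := by
        rw [hdiv]
        exact Nat.floor_le (by positivity)
      have h9 : X / m < ((x / m : ℕ) : ℝ) + 1 := by
        rw [hdiv]
        exact Nat.lt_floor_add_one _
      have h10 : (0 : ℝ) < ((x / m : ℕ) : ℝ) := by
        have : (z : ℝ) ≤ ((x / m : ℕ) : ℝ) := by exact_mod_cast h6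
        linarith
      have h11 : X / m ≤ 2 * ((x / m : ℕ) : ℝ) := by linarith
      have h12 : Real.log ((x / m : ℕ) : ℝ) ≤ Real.log (X / m) := Real.log_le_log h10 h8
      have h13 : Real.log (X / m) ≤ Real.log 2 + Real.log ((x / m : ℕ) : ℝ) := by
        rw [← Real.log_mul (by norm_num) h10.ne']
        exact Real.log_le_log (by positivity) h11
      have h14 : Real.log (X / m) = t * L - Real.log m := by
        rw [Real.log_div hX0.ne' hmR.ne', hX, Real.log_exp]
      have h15 : Real.log (((x / m : ℕ) : ℝ) / z) = Real.log ((x / m : ℕ) : ℝ) - L := by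
        rw [Real.log_div h10.ne' hzR.ne', hL]
      rw [h15] at h7
      have h16 : Q / L - (t - 1 - Real.log m / L) = (Q - (t * L - Real.log m - L)) / L := by
        field_simp
        ring
      rw [h16, abs_div, abs_of_pos hL0]
      apply div_le_div_of_nonneg_right _ hL0.le
      have h17 := abs_le.1 h7
      rw [abs_le]
      constructor <;> linarith
    · -- m > y
      have h4 : X / z < m := by
        have h5 : y < m := not_le.1 hmy
        rw [hy] at h5
        exact (Nat.floor_lt (by positivity)).1 h5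
      have h5 : X / m < z := by
        rw [div_lt_iff₀ hmR]
        rw [div_lt_iff₀ hzR] at h4
        linarith
      have h6 : x / m < z := by
        rw [hdiv]
        exact (Nat.floor_lt (by positivity)).2 h5
      rw [hR1 h6]
      simp only [zero_div, sub_zero, abs_zero]
      exact div_nonneg (add_nonneg hC (Real.log_nonneg (by norm_num))) hL0.le
  have h4 := mul_le_mul_of_nonneg_left key hr
  have h5 : r z m / m * ((C + Real.log 2) / L) = (C + Real.log 2) * (r z m / m) / L := by ring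
  rw [← h5]
  exact h4

end Pool.Agent.Lib.MP_926cc3_nt.TH
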