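import Pool.Agent.Lib.MP_926cc3_nt.TH.Spec

/-!
# MP_926cc3_nt, module AVG: a positive proportion of the shifts of a deficient window is deficient
-/

set_option autoImplicit false

open Filter Topology MeasureTheory ProbabilityTheory

namespace Pool.Agent.Lib.MP_926cc3_nt.TH

open Pool.Agent.Lib.MP_926cc3_nt.RS

namespace AVGM

theorem r_zero_or_one (z n : ℕ) : r z n = 0 ∨ r z n = 1 := by
  unfold r Gra.r
  split_ifs
  · exact Or.inr rfl
  · exact Or.inl rfl

/-- if `r z n = 0` then `r w (k M + n) = 0` -/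
theorem r_shift {z w M n : ℕ} (hzw : z ≤ w) (hM : ∀ p : ℕ, p.Prime → (p ∣ M ↔ p < z))
    (h : r z n = 0) (k : ℕ) : r w (k * M + n) = 0 := by
  have h1 : ¬ NoSmall z n := by
    intro h2
    unfold r Gra.r at h
    rw [if_pos h2] at h
    exact one_ne_zero h
  have h2 : ¬ NoSmall w (k * M + n) := by
    intro h3
    apply h1
    intro p hp hpn
    by_contra h4
    have h5 : p < z := not_le.1 h4
    have h6 : p ∣ M := (hM p hp).2 h5
    have h7 : p ∣ k * M + n := (Dvd.dvd.mul_left h6 k).add hpn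
    have := h3 p hp h7
    omega
  unfold r Gra.r
  rw [if_neg h2]

/-- the double sum -/
theorem dsum {C : ℝ} (hC : 0 < C) (hSVK : ∀ b z w M n0 K0 K : ℕ, 2 ≤ z → z ≤ w →
    (∀ p : ℕ, p.Prime → (p ∣ M ↔ p < z)) → r z n0 = 1 →
    ∑ k ∈ Finset.Ioc K0 (K0 + K), r w (k * M + n0) ≤
      (1 + C * Real.exp (-(b : ℝ))) * K * (V w / V z) + C * (w : ℝ) ^ (8 * b + 17))
    {kap : ℝ} (b z w M a H K0 K : ℕ) (hz : 2 ≤ z) (hzw : z ≤ w)
    (hM : ∀ p : ℕ, p.Prime → (p ∣ M ↔ p < z))
    (hdef : ∑ n ∈ Finset.Ioc a (a + H), r z n ≤ kap * V z * H) :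
    ∑ k ∈ Finset.Ioc K0 (K0 + K), ∑ n ∈ Finset.Ioc a (a + H), r w (k * M + n) ≤
      (kap * (1 + C * Real.exp (-(b : ℝ))) * V w) * (H * K) + H * (C * (w : ℝ) ^ (8 * b + 17)) := by
  have hVz : 0 < V z := Gra.V_pos z hz
  have hVw : 0 < V w := Gra.V_pos w (hz.trans hzw)
  rw [Finset.sum_comm]
  set X : ℝ := (1 + C * Real.exp (-(b : ℝ))) * K * (V w / V z) with hX
  set Y : ℝ := C * (w : ℝ) ^ (8 * b + 17) with hY
  have hY0 : 0 ≤ Y := by positivity
  have hX0 : 0 ≤ X := by positivity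
  have h1 : ∀ n ∈ Finset.Ioc a (a + H),
      ∑ k ∈ Finset.Ioc K0 (K0 + K), r w (k * M + n) ≤ r z n * X + Y := by
    intro n _
    rcases r_zero_or_one z n with h | h
    · rw [Finset.sum_eq_zero fun k _ => r_shift hzw hM h k, h]
      linarith
    · rw [h, one_mul]
      exact hSVK b z w M n K0 K hz hzw hM h
  refine (Finset.sum_le_sum h1).trans ?_
  rw [Finset.sum_add_distrib, ← Finset.sum_mul, Finset.sum_const, Nat.card_Ioc,
    Nat.add_sub_cancel_left, nsmul_eq_mul]
  have h2 : (∑ n ∈ Finset.Ioc a (a + H), r z n) * X ≤ (kap * V z * H) * X :=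
    mul_le_mul_of_nonneg_right hdef hX0
  have h3 : (kap * V z * H) * X =
      (kap * (1 + C * Real.exp (-(b : ℝ))) * V w) * (H * K) := by
    rw [hX]
    field_simp
  rw [h3] at h2
  linarith

end AVGM

open AVGM in
theorem specAVG (hSVK : SpecSVK) : SpecAVG := by
  classical
  obtain ⟨C, hC, hS⟩ := hSVK
  intro kap kap' h0 h1 h2
  set s : ℝ := (kap' - kap) / 4 with hs
  have hs0 : 0 < s := by rw [hs]; linarith
  -- choice of `b`
  obtain ⟨b, hb⟩ : ∃ b : ℕ, C * Real.exp (-(b : ℝ)) ≤ s := by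
    have ht : Tendsto (fun b : ℕ => C * Real.exp (-(b : ℝ))) atTop (𝓝 (C * 0)) :=
      (Real.tendsto_exp_neg_atTop_nhds_zero.comp tendsto_natCast_atTop_atTop).const_mul C
    rw [mul_zero] at ht
    exact (ht.eventually_le_const hs0).exists
  -- choice of `j`
  obtain ⟨j, hj⟩ : ∃ j : ℕ, C / s ≤ (2 : ℝ) ^ j := by
    obtain ⟨j, hj⟩ := pow_unbounded_of_one_lt (C / s) (by norm_num : (1 : ℝ) < 2)
    exact ⟨j, hj.le⟩
  have hk' : 0 < kap' := h0.trans h1
  refine ⟨(kap' - kap) / (2 * kap'), 8 * b + 18 + j, by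
    apply div_pos
    · linarith
    · linarith, ?_⟩
  intro z w M a H K0 K hz hzw hM hH hdef hK
  have hw : 2 ≤ w := hz.trans hzw
  have hVw : 0 < V w := Gra.V_pos w hw
  have hw2 : (2 : ℝ) ≤ w := by exact_mod_cast hw
  have hH0 : (0 : ℝ) < H := by exact_mod_cast hH
  have hK1 : ((w : ℝ) ^ (8 * b + 18 + j)) ≤ K := by exact_mod_cast hK
  have hK0 : (0 : ℝ) < K := lt_of_lt_of_le (by positivity) hK1
  have hsum := dsum hC hS (kap := kap) b z w M a H K0 K hz hzw hM hdef
  -- the error term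
  have herr : C * (w : ℝ) ^ (8 * b + 17) ≤ s * V w * K := by
    have e1 : 1 ≤ V w * w := by
      have := Gra.V_inv_le w hw
      have h3 : V w * (V w)⁻¹ ≤ V w * w := mul_le_mul_of_nonneg_left this hVw.le
      rwa [mul_inv_cancel₀ hVw.ne'] at h3
    have e2 : C / s ≤ (w : ℝ) ^ j := hj.trans (pow_le_pow_left₀ (by norm_num) hw2 j)
    have e3 : C ≤ s * (w : ℝ) ^ j := by
      rw [div_le_iff₀ hs0] at e2
      linarith
    have e4 : 0 ≤ (w : ℝ) ^ (8 * b + 17) := by positivity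
    have e5 : C * (w : ℝ) ^ (8 * b + 17) ≤ (s * (w : ℝ) ^ j) * (w : ℝ) ^ (8 * b + 17) :=
      mul_le_mul_of_nonneg_right e3 e4
    have e6 : (s * (w : ℝ) ^ j) * (w : ℝ) ^ (8 * b + 17) * 1 ≤
        (s * (w : ℝ) ^ j) * (w : ℝ) ^ (8 * b + 17) * (V w * w) :=
      mul_le_mul_of_nonneg_left e1 (by positivity)
    have e7 : (s * (w : ℝ) ^ j) * (w : ℝ) ^ (8 * b + 17) * (V w * w) =
        s * V w * (w : ℝ) ^ (8 * b + 18 + j) := by
      rw [pow_add, show 8 * b + 18 = (8 * b + 17) + 1 by ring, pow_succ]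
      ring
    have e8 : s * V w * (w : ℝ) ^ (8 * b + 18 + j) ≤ s * V w * K :=
      mul_le_mul_of_nonneg_left hK1 (by positivity)
    linarith
  have htot : ∑ k ∈ Finset.Ioc K0 (K0 + K), ∑ n ∈ Finset.Ioc a (a + H), r w (k * M + n) ≤
      ((kap + kap') / 2) * (V w * (H * K)) := by
    have f1 : kap * (1 + C * Real.exp (-(b : ℝ))) ≤ kap + s := by
      have g1 : kap * (C * Real.exp (-(b : ℝ))) ≤ 1 * s := by
        apply mul_le_mul (by linarith) hb (by positivity) (by norm_num)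
      nlinarith
    have f2 : (kap * (1 + C * Real.exp (-(b : ℝ))) * V w) * (H * K) ≤
        ((kap + s) * V w) * (H * K) := by
      apply mul_le_mul_of_nonneg_right _ (by positivity)
      exact mul_le_mul_of_nonneg_right f1 hVw.le
    have f3 : (H : ℝ) * (C * (w : ℝ) ^ (8 * b + 17)) ≤ H * (s * V w * K) :=
      mul_le_mul_of_nonneg_left herr hH0.le
    have f4 : ((kap + s) * V w) * (H * K) + H * (s * V w * K) =
        ((kap + kap') / 2) * (V w * (H * K)) := by
      rw [hs]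
      ring
    linarith
  -- Markov
  refine ⟨(Finset.Ioc K0 (K0 + K)).filter
    (fun k => ∑ n ∈ Finset.Ioc a (a + H), r w (k * M + n) ≤ kap' * V w * H),
    Finset.filter_subset _ _, ?_, fun k hk => (Finset.mem_filter.1 hk).2⟩
  set T := Finset.Ioc K0 (K0 + K) with hT
  set f : ℕ → ℝ := fun k => ∑ n ∈ Finset.Ioc a (a + H), r w (k * M + n) with hf
  have hf0 : ∀ k, 0 ≤ f k := fun k => Finset.sum_nonneg fun n _ => Gra.r_nonneg w _
  have hcard : (T.filter (fun k => f k ≤ kap' * V w * H)).card +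
      (T.filter (fun k => ¬ f k ≤ kap' * V w * H)).card = T.card :=
    Finset.card_filter_add_card_filter_not _
  have hTc : T.card = K := by
    rw [hT, Nat.card_Ioc, Nat.add_sub_cancel_left]
  rw [hTc] at hcard
  have hbad : ((T.filter (fun k => ¬ f k ≤ kap' * V w * H)).card : ℝ) * (kap' * V w * H) ≤
      ((kap + kap') / 2) * (V w * (H * K)) := by
    refine le_trans ?_ htot
    rw [← nsmul_eq_mul, ← Finset.sum_const]
    refine (Finset.sum_le_sum (f := fun _ => kap' * V w * H) (g := f) fun k hk =>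
      (not_le.1 (Finset.mem_filter.1 hk).2).le).trans ?_
    exact Finset.sum_le_sum_of_subset_of_nonneg (Finset.filter_subset _ _) fun k _ _ => hf0 k
  have hbad2 : ((T.filter (fun k => ¬ f k ≤ kap' * V w * H)).card : ℝ) * kap' ≤
      ((kap + kap') / 2) * K := by
    have hVH : 0 < V w * H := by positivity
    refine le_of_mul_le_mul_right ?_ hVH
    calc ((T.filter (fun k => ¬ f k ≤ kap' * V w * H)).card : ℝ) * kap' * (V w * H) =
        ((T.filter (fun k => ¬ f k ≤ kap' * V w * H)).card : ℝ) * (kap' * V w * H) := by ring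
      _ ≤ ((kap + kap') / 2) * (V w * (H * K)) := hbad
      _ = ((kap + kap') / 2) * K * (V w * H) := by ring
  have hcard2 : ((T.filter (fun k => f k ≤ kap' * V w * H)).card : ℝ) +
      ((T.filter (fun k => ¬ f k ≤ kap' * V w * H)).card : ℝ) = K := by
    exact_mod_cast hcard
  have e1 : (kap' - kap) / (2 * kap') * K = ((kap' - kap) / 2 * K) / kap' := by
    field_simp
  rw [e1, div_le_iff₀ hk']
  nlinarith

end Pool.Agent.Lib.MP_926cc3_nt.TH
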