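import Pool.Agent.Lib.MP_926cc3_nt.TH.Spec

set_option autoImplicit false

open Filter Topology MeasureTheory ProbabilityTheory ArithmeticFunction

namespace Pool.Agent.Lib.MP_926cc3_nt.TH

open Pool.Agent.Lib.MP_926cc3_nt.RS

namespace BDGM

theorem int_exp (t : ℝ) : ∫ s in (0 : ℝ)..t, Real.exp (4 * s) = (Real.exp (4 * t) - 1) / 4 := by
  have h : ∫ s in (0 : ℝ)..t, Real.exp (4 * s) = (4 : ℝ)⁻¹ • ∫ s in (4 * 0 : ℝ)..(4 * t), Real.exp s :=
    intervalIntegral.integral_comp_mul_left (fun x => Real.exp x) (by norm_num)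
  rw [h, integral_exp]
  simp
  ring

/-- the sup argument: if `D ≥ 0` is bounded on `[0,T]`, vanishes or is small on `[0,1)` and satisfies a
Gronwall type inequality, then it is small -/
theorem gron (D : ℝ → ℝ) (T a c e : ℝ) (hT : 0 ≤ T) (hint : ∀ t, 0 ≤ t → t ≤ T → IntervalIntegrable D volume 0 t)
    (h0 : ∀ s, 0 ≤ s → s ≤ T → 0 ≤ D s) (B : ℝ) (hB : ∀ s, 0 ≤ s → s ≤ T → D s ≤ B) (ha : 0 ≤ a) (he : 0 ≤ e)
    (hc : 0 ≤ c) (hsmall : ∀ s, 0 ≤ s → s ≤ T → s < 1 → D s ≤ a)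
    (hG : ∀ t, 1 ≤ t → t ≤ T → D t ≤ c * ((∫ s in (0 : ℝ)..t, D s) + ∫ s in (0 : ℝ)..(t - 1), D s) + e)
    (hc2 : c / 2 < 1) :
    ∀ t, 0 ≤ t → t ≤ T → D t ≤ max a (e / (1 - c / 2)) * Real.exp (4 * t) := by
  obtain ⟨f, hf⟩ : ∃ f : ℝ → ℝ, f = fun s => Real.exp (-(4 * s)) * D s := ⟨_, rfl⟩
  have hfB : BddAbove (f '' Set.Icc 0 T) := by
    refine ⟨B, ?_⟩
    rintro y ⟨s, hs, rfl⟩
    rw [hf]
    have h1 : Real.exp (-(4 * s)) ≤ 1 := by
      rw [Real.exp_le_one_iff]
      linarith [hs.1]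
    have h2 := h0 s hs.1 hs.2
    have h3 := hB s hs.1 hs.2
    have h4 : Real.exp (-(4 * s)) * D s ≤ 1 * D s := mul_le_mul_of_nonneg_right h1 h2
    simp only
    linarith
  obtain ⟨M, hM⟩ : ∃ M : ℝ, M = sSup (f '' Set.Icc 0 T) := ⟨_, rfl⟩
  have hne : (f '' Set.Icc 0 T).Nonempty := ⟨f 0, 0, ⟨le_rfl, hT⟩, rfl⟩
  have hfM : ∀ s, 0 ≤ s → s ≤ T → D s ≤ M * Real.exp (4 * s) := by
    intro s h1 h2
    have h3 : f s ≤ M := by
      rw [hM]
      exact le_csSup hfB ⟨s, ⟨h1, h2⟩, rfl⟩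
    rw [hf] at h3
    simp only at h3
    have h4 : D s = Real.exp (-(4 * s)) * D s * Real.exp (4 * s) := by
      rw [mul_comm (Real.exp (-(4 * s))), mul_assoc, ← Real.exp_add]
      simp
    rw [h4]
    exact mul_le_mul_of_nonneg_right h3 (Real.exp_pos _).le
  have hM0 : 0 ≤ M := by
    have h1 := hfM 0 le_rfl hT
    have h2 := h0 0 le_rfl hT
    simp at h1
    linarith
  have hI : ∀ t, 0 ≤ t → t ≤ T → ∫ s in (0 : ℝ)..t, D s ≤ M / 4 * Real.exp (4 * t) := by
    intro t h1 h2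
    have h3 : ∫ s in (0 : ℝ)..t, D s ≤ ∫ s in (0 : ℝ)..t, M * Real.exp (4 * s) := by
      apply intervalIntegral.integral_mono_on h1 (hint t h1 h2)
      · exact (Continuous.intervalIntegrable (by fun_prop) _ _)
      · intro s hs
        exact hfM s hs.1 (hs.2.trans h2)
    rw [intervalIntegral.integral_const_mul, int_exp] at h3
    have h4 : M * ((Real.exp (4 * t) - 1) / 4) ≤ M / 4 * Real.exp (4 * t) := by
      nlinarith
    linarith
  have hfin : ∀ t, 0 ≤ t → t ≤ T → D t ≤ max a (c * M / 2 + e) * Real.exp (4 * t) := by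
    intro t h1 h2
    have hE : 1 ≤ Real.exp (4 * t) := by
      rw [Real.one_le_exp_iff]
      linarith
    by_cases ht : t < 1
    · have h3 := hsmall t h1 h2 ht
      have h4 : max a (c * M / 2 + e) * 1 ≤ max a (c * M / 2 + e) * Real.exp (4 * t) :=
        mul_le_mul_of_nonneg_left hE (ha.trans (le_max_left _ _))
      have h5 := le_max_left a (c * M / 2 + e)
      linarith
    · have ht1 : 1 ≤ t := not_lt.1 ht
      have h3 := hG t ht1 h2
      have h4 := hI t h1 h2
      have h5 := hI (t - 1) (by linarith) (by linarith)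
      have h6 : Real.exp (4 * (t - 1)) ≤ Real.exp (4 * t) := Real.exp_le_exp.2 (by linarith)
      have h7 : M / 4 * Real.exp (4 * (t - 1)) ≤ M / 4 * Real.exp (4 * t) :=
        mul_le_mul_of_nonneg_left h6 (by linarith)
      have h8 : c * ((∫ s in (0 : ℝ)..t, D s) + ∫ s in (0 : ℝ)..(t - 1), D s) ≤
          c * (M / 4 * Real.exp (4 * t) + M / 4 * Real.exp (4 * t)) :=
        mul_le_mul_of_nonneg_left (by linarith) hc
      have h9 : e * 1 ≤ e * Real.exp (4 * t) := mul_le_mul_of_nonneg_left hE he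
      have h10 : (c * M / 2 + e) * Real.exp (4 * t) ≤ max a (c * M / 2 + e) * Real.exp (4 * t) :=
        mul_le_mul_of_nonneg_right (le_max_right _ _) (Real.exp_pos _).le
      linarith
  have hMle : M ≤ max a (c * M / 2 + e) := by
    have h0' : sSup (f '' Set.Icc 0 T) ≤ max a (c * M / 2 + e) := by
      apply csSup_le hne
      rintro y ⟨s, hs, rfl⟩
      rw [hf]
      have h1 := hfin s hs.1 hs.2
      simp only
      have h2 : Real.exp (-(4 * s)) * D s ≤
          Real.exp (-(4 * s)) * (max a (c * M / 2 + e) * Real.exp (4 * s)) :=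
        mul_le_mul_of_nonneg_left h1 (Real.exp_pos _).le
      have h3 : Real.exp (-(4 * s)) * (max a (c * M / 2 + e) * Real.exp (4 * s)) =
          max a (c * M / 2 + e) := by
        rw [mul_left_comm, ← Real.exp_add]
        simp
      linarith
    rw [← hM] at h0'
    exact h0'
  have hM2 : M ≤ max a (e / (1 - c / 2)) := by
    rcases le_max_iff.1 hMle with h1 | h1
    · exact h1.trans (le_max_left _ _)
    · refine le_trans ?_ (le_max_right _ _)
      rw [le_div_iff₀ (by linarith)]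
      linarith
  intro t h1 h2
  exact (hfM t h1 h2).trans (mul_le_mul_of_nonneg_right hM2 (Real.exp_pos _).le)

theorem G_ge (hGIN : SpecGIN) {z : ℕ} (hz : 2 ≤ z) {t : ℝ} (ht : 0 ≤ t) : 1 ≤ G z t := by
  obtain ⟨h1, h2, _⟩ := hGIN z hz
  rw [← h2 0 le_rfl zero_lt_one]
  exact h1 ht

end BDGM

open BDGM in
theorem specBDG (hAPX : SpecAPX) (hGIN : SpecGIN) : SpecBDG := by
  obtain ⟨C, hC, h⟩ := hAPX
  obtain ⟨n, hn⟩ := exists_nat_gt (Real.exp (8 * C))
  refine ⟨n + 2, by omega, ?_⟩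
  intro z hz t ht
  have hz2 : 2 ≤ z := by omega
  obtain ⟨g1, g2, g3⟩ := hGIN z hz2
  have hzR : Real.exp (8 * C) < z := by
    have : (n : ℝ) ≤ z := by exact_mod_cast (by omega : n ≤ z)
    linarith
  have hlog : 8 * C < Real.log z := by
    rw [Real.lt_log_iff_exp_lt (by positivity)]
    exact hzR
  have hlog0 : 0 < Real.log z := Real.log_pos (by exact_mod_cast (by omega : 1 < z))
  have hCl : C / Real.log z ≤ 1 / 8 := by
    rw [div_le_iff₀ hlog0]
    linarith
  have key := gron (fun s => G z s) t 1 (8 / 7) 0 ht (fun s _ _ => g1.intervalIntegrable)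
    (fun s hs _ => zero_le_one.trans (G_ge hGIN hz2 hs)) (G z t) (fun s _ hs => g1 hs) zero_le_one le_rfl
    (by norm_num) (fun s hs _ hs1 => (g2 s hs hs1).le) ?_ (by norm_num) t ht le_rfl
  · have h5 : max (1 : ℝ) (0 / (1 - 8 / 7 / 2)) = 1 := by norm_num
    rw [h5, one_mul] at key
    exact key
  · intro s hs1 hs2
    have h1 := h z hz2 s hs1
    have hG := G_ge hGIN hz2 (zero_le_one.trans hs1)
    have h2 := (abs_le.1 h1).2
    have h3 : C * G z s / Real.log z ≤ 1 / 8 * G z s := by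
      have : C * G z s / Real.log z = C / Real.log z * G z s := by ring
      rw [this]
      exact mul_le_mul_of_nonneg_right hCl (by linarith)
    have h4 : G z s ≤ s * G z s := by nlinarith
    show G z s ≤ _
    linarith

end Pool.Agent.Lib.MP_926cc3_nt.TH
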