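import Pool.Agent.Lib.MP_926cc3_nt.TH.Spec

/-!
# MP_926cc3_nt TH: CGZ, the densities tend to zero
-/

set_option autoImplicit false

open Filter Topology

namespace Pool.Agent.Lib.MP_926cc3_nt.TH

open Pool.Agent.Lib.MP_926cc3_nt.RS

namespace CGZM

theorem inv_V_le (c : ℝ) (hc : 0 < c)
    (h : Tendsto (fun z : ℕ => V z * Real.log z) atTop (𝓝 c)) :
    ∃ z1 : ℝ, 0 ≤ z1 ∧ ∀ z : ℕ, 2 ≤ z → (V z)⁻¹ ≤ z1 + 2 / c * Real.log z := by
  have h1 := h.eventually (lt_mem_nhds (show c / 2 < c by linarith))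
  rw [eventually_atTop] at h1
  obtain ⟨N, hN⟩ := h1
  refine ⟨N, Nat.cast_nonneg N, ?_⟩
  intro z hz
  have hz2 : (2 : ℝ) ≤ z := by exact_mod_cast hz
  have hL : 0 < Real.log z := Real.log_pos (by linarith)
  have hV := Gra.V_pos z hz
  by_cases hzN : N ≤ z
  · have h2 := hN z hzN
    have h3 : (V z)⁻¹ ≤ 2 / c * Real.log z := by
      rw [inv_le_iff_one_le_mul₀' hV]
      have e : V z * (2 / c * Real.log z) = (V z * Real.log z) * (2 / c) := by ring
      rw [e]
      calc (1 : ℝ) = c / 2 * (2 / c) := by field_simp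
        _ ≤ _ := mul_le_mul_of_nonneg_right h2.le (by positivity)
    have : (0 : ℝ) ≤ N := Nat.cast_nonneg N
    linarith
  · have h2 := Gra.V_inv_le z hz
    have h3 : (z : ℝ) ≤ N := by exact_mod_cast (by omega : z ≤ N)
    have : 0 ≤ 2 / c * Real.log z := by positivity
    linarith

end CGZM

open CGZM in
theorem specCGZ (hDDE : SpecDDE) (hLIM : SpecLIM) : SpecCGZ := by
  intro w hw2 hlo
  obtain ⟨g, hg⟩ := hDDE
  obtain ⟨c, hc, hlim, _⟩ := hLIM g hg
  obtain ⟨z1, hz1, hz⟩ := inv_V_le c hc hlim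
  have hlogn : Tendsto (fun n : ℕ => Real.log (n : ℝ)) atTop atTop :=
    Real.tendsto_log_atTop.comp tendsto_natCast_atTop_atTop
  have h1 : Tendsto (fun n : ℕ => z1 / Real.log (n : ℝ) +
      2 / c * (Real.log (w n) / Real.log (n : ℝ))) atTop (𝓝 (0 + 2 / c * 0)) := by
    apply Tendsto.add
    · exact hlogn.const_div_atTop z1
    · exact (hlo.tendsto_div_nhds_zero).const_mul _
  rw [mul_zero, add_zero] at h1
  refine squeeze_zero' ?_ ?_ h1
  · filter_upwards [eventually_ge_atTop 2] with n hn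
    have hn2 : (2 : ℝ) ≤ n := by exact_mod_cast hn
    have hL : 0 < Real.log n := Real.log_pos (by linarith)
    have hV := Gra.V_pos (w n) (hw2 n)
    unfold cgDens
    split_ifs
    · positivity
    · exact le_rfl
  · filter_upwards [eventually_ge_atTop 2] with n hn
    have hn2 : (2 : ℝ) ≤ n := by exact_mod_cast hn
    have hL : 0 < Real.log n := Real.log_pos (by linarith)
    have hV := Gra.V_pos (w n) (hw2 n)
    have hw : (2 : ℝ) ≤ w n := by exact_mod_cast hw2 n
    have hLw : 0 < Real.log (w n) := Real.log_pos (by linarith)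
    unfold cgDens
    split_ifs
    · have e : 1 / (Real.log n * V (w n)) = (V (w n))⁻¹ / Real.log n := by
        field_simp
      rw [e]
      calc (V (w n))⁻¹ / Real.log n ≤ (z1 + 2 / c * Real.log (w n)) / Real.log n :=
            div_le_div_of_nonneg_right (hz (w n) (hw2 n)) hL.le
        _ = _ := by ring
    · positivity

end Pool.Agent.Lib.MP_926cc3_nt.TH
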