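import Pool.Agent.Lib.MP_926cc3_nt.TH.BDG

set_option autoImplicit false

open Filter Topology MeasureTheory ProbabilityTheory ArithmeticFunction

namespace Pool.Agent.Lib.MP_926cc3_nt.TH

open Pool.Agent.Lib.MP_926cc3_nt.RS

open BDGM in
theorem specCNV (hAPX : SpecAPX) (hBDG : SpecBDG) (hDIE : SpecDIE) (hGIN : SpecGIN) : SpecCNV := by
  intro g hg t ht
  obtain ⟨C, hC, hA⟩ := hAPX
  obtain ⟨z0, hz0, hB⟩ := hBDG
  have hg1 : ∀ s, 0 ≤ s → 1 ≤ g s := by
    intro s hs
    rw [← hg.2.2.1 0 zero_le_one]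
    exact hg.2.1 hs
  have key : ∀ z : ℕ, z0 ≤ z → |G z t - g t| ≤
      2 * (C * Real.exp (4 * t) / Real.log z) * Real.exp (4 * t) := by
    intro z hz
    have hz2 : 2 ≤ z := hz0.trans hz
    obtain ⟨g1, g2, _⟩ := hGIN z hz2
    have hlog0 : 0 < Real.log z := Real.log_pos (by exact_mod_cast (by omega : 1 < z))
    have hE : 0 ≤ C * Real.exp (4 * t) / Real.log z := by positivity
    have hI1 : ∀ a b : ℝ, IntervalIntegrable (G z) volume a b := fun a b => g1.intervalIntegrable
    have hI2 : ∀ a b : ℝ, IntervalIntegrable g volume a b := fun a b => hg.1.intervalIntegrable a b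
    have hI3 : ∀ a b : ℝ, IntervalIntegrable (fun s => |G z s - g s|) volume a b :=
      fun a b => ((hI1 a b).sub (hI2 a b)).abs
    have h1 := gron (fun s => |G z s - g s|) t 0 1 (C * Real.exp (4 * t) / Real.log z) ht
      (fun s _ _ => hI3 0 s) (fun s _ _ => abs_nonneg _) (G z t + g t) ?_ le_rfl hE zero_le_one ?_ ?_
      (by norm_num) t ht le_rfl
    · have h2 : max 0 (C * Real.exp (4 * t) / Real.log z / (1 - 1 / 2)) =
          2 * (C * Real.exp (4 * t) / Real.log z) := by
        rw [max_eq_right (by positivity)]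
        ring
      rw [h2] at h1
      exact h1
    · intro s hs1 hs2
      have h2 := G_ge hGIN hz2 hs1
      have h3 := hg1 s hs1
      have h4 := g1 hs2
      have h5 := hg.2.1 hs2
      rw [abs_le]
      constructor <;> linarith
    · intro s hs1 hs2 hs3
      rw [g2 s hs1 hs3, hg.2.2.1 s hs3.le]
      simp
    · intro s hs1 hs2
      have hs0 : 0 ≤ s := zero_le_one.trans hs1
      have h2 := hA z hz2 s hs1
      have h3 := hDIE g hg s hs1
      have h4 : C * G z s / Real.log z ≤ C * Real.exp (4 * t) / Real.log z := by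
        apply div_le_div_of_nonneg_right _ hlog0.le
        apply mul_le_mul_of_nonneg_left _ hC
        exact (g1 hs2).trans (hB z hz t ht)
      have h5 : |(∫ x in (0 : ℝ)..s, G z x) - ∫ x in (0 : ℝ)..s, g x| ≤
          ∫ x in (0 : ℝ)..s, |G z x - g x| := by
        rw [← intervalIntegral.integral_sub (hI1 0 s) (hI2 0 s)]
        exact intervalIntegral.abs_integral_le_integral_abs hs0
      have h6 : |(∫ x in (0 : ℝ)..(s - 1), G z x) - ∫ x in (0 : ℝ)..(s - 1), g x| ≤
          ∫ x in (0 : ℝ)..(s - 1), |G z x - g x| := by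
        rw [← intervalIntegral.integral_sub (hI1 0 (s - 1)) (hI2 0 (s - 1))]
        exact intervalIntegral.abs_integral_le_integral_abs (by linarith)
      have h7 : |s * (G z s - g s)| ≤ (∫ x in (0 : ℝ)..s, |G z x - g x|) +
          (∫ x in (0 : ℝ)..(s - 1), |G z x - g x|) + C * Real.exp (4 * t) / Real.log z := by
        have e : s * (G z s - g s) =
            ((∫ x in (0 : ℝ)..s, G z x) - ∫ x in (0 : ℝ)..s, g x) +
            ((∫ x in (0 : ℝ)..(s - 1), G z x) - ∫ x in (0 : ℝ)..(s - 1), g x) +
            (s * G z s - (∫ x in (0 : ℝ)..s, G z x) - ∫ x in (0 : ℝ)..(s - 1), G z x) := by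
          rw [mul_sub, h3]
          ring
        rw [e]
        refine (abs_add_three _ _ _).trans ?_
        linarith
      have h8 : |G z s - g s| ≤ |s * (G z s - g s)| := by
        rw [abs_mul, abs_of_nonneg hs0]
        have := abs_nonneg (G z s - g s)
        nlinarith
      show |G z s - g s| ≤ 1 * ((∫ x in (0 : ℝ)..s, |G z x - g x|) +
          ∫ x in (0 : ℝ)..(s - 1), |G z x - g x|) + C * Real.exp (4 * t) / Real.log z
      linarith
  have hlim : Tendsto (fun z : ℕ => 2 * (C * Real.exp (4 * t) / Real.log z) * Real.exp (4 * t)) atTop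
      (𝓝 (2 * 0 * Real.exp (4 * t))) := by
    have hlog : Tendsto (fun n : ℕ => Real.log (n : ℝ)) atTop atTop :=
      Real.tendsto_log_atTop.comp tendsto_natCast_atTop_atTop
    exact ((hlog.const_div_atTop _).const_mul 2).mul_const _
  rw [tendsto_iff_norm_sub_tendsto_zero]
  rw [mul_zero, zero_mul] at hlim
  refine squeeze_zero' (Eventually.of_forall fun z => norm_nonneg _) ?_ hlim
  filter_upwards [eventually_ge_atTop z0] with z hz
  rw [Real.norm_eq_abs]
  exact key z hz

end Pool.Agent.Lib.MP_926cc3_nt.TH
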