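import Pool.Agent.Lib.MP_926cc3_nt.TH.Spec

/-! Module DDE: existence of the solution of the delay equation. -/

set_option autoImplicit false

open Filter Topology MeasureTheory intervalIntegral

namespace Pool.Agent.Lib.MP_926cc3_nt.TH

namespace DDEM

/-- The Picard iterates. -/
noncomputable def GG : ℕ → ℝ → ℝ
  | 0 => fun _ => 1
  | n + 1 => fun t => 1 + ∫ s in (1 : ℝ)..(max t 1), GG n (s - 1) / max s 1

lemma GG_zero (t : ℝ) : GG 0 t = 1 := rfl
lemma GG_succ (n : ℕ) (t : ℝ) :
    GG (n + 1) t = 1 + ∫ s in (1 : ℝ)..(max t 1), GG n (s - 1) / max s 1 := rfl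

lemma max_pos' (s : ℝ) : 0 < max s 1 := lt_of_lt_of_le one_pos (le_max_right _ _)

lemma cont_int {n : ℕ} (h : Continuous (GG n)) :
    Continuous (fun s : ℝ => GG n (s - 1) / max s 1) := by
  refine (h.comp (continuous_id.sub continuous_const)).div (continuous_id.max continuous_const) ?_
  intro s
  exact (max_pos' s).ne'

lemma cont (n : ℕ) : Continuous (GG n) := by
  induction n with
  | zero => exact continuous_const
  | succ n ih =>
    have h1 : Continuous (fun t : ℝ => ∫ s in (1 : ℝ)..t, GG n (s - 1) / max s 1) :=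
      continuous_primitive (fun a b => (cont_int ih).intervalIntegrable a b) 1
    exact continuous_const.add (h1.comp (continuous_id.max continuous_const))

lemma one_le (n : ℕ) (t : ℝ) : 1 ≤ GG n t := by
  induction n generalizing t with
  | zero => exact le_rfl
  | succ n ih =>
    rw [GG_succ]
    have : 0 ≤ ∫ s in (1 : ℝ)..(max t 1), GG n (s - 1) / max s 1 := by
      apply integral_nonneg (le_max_right _ _)
      intro s _
      exact div_nonneg (zero_le_one.trans (ih _)) (max_pos' s).le
    linarith

lemma eq_one (n : ℕ) {t : ℝ} (ht : t ≤ 1) : GG n t = 1 := by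
  cases n with
  | zero => rfl
  | succ n => rw [GG_succ, max_eq_right ht, integral_same, add_zero]

lemma mono (n : ℕ) : Monotone (GG n) := by
  intro t t' h
  cases n with
  | zero => exact le_rfl
  | succ n =>
    rw [GG_succ, GG_succ]
    have hc := cont_int (cont n)
    have h1 : (∫ s in (1 : ℝ)..(max t' 1), GG n (s - 1) / max s 1) =
        (∫ s in (1 : ℝ)..(max t 1), GG n (s - 1) / max s 1) +
        ∫ s in (max t 1)..(max t' 1), GG n (s - 1) / max s 1 :=
      (integral_add_adjacent_intervals (hc.intervalIntegrable _ _)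
        (hc.intervalIntegrable _ _)).symm
    have h2 : 0 ≤ ∫ s in (max t 1)..(max t' 1), GG n (s - 1) / max s 1 := by
      apply integral_nonneg (max_le_max h le_rfl)
      intro s _
      exact div_nonneg (zero_le_one.trans (one_le _ _)) (max_pos' s).le
    linarith

lemma step (n : ℕ) {t : ℝ} (ht : t ≤ n + 1) : GG (n + 1) t = GG n t := by
  induction n generalizing t with
  | zero =>
    have h1 : t ≤ 1 := by simpa using ht
    rw [eq_one 1 h1, eq_one 0 h1]
  | succ n ih =>
    rw [GG_succ, GG_succ]
    congr 1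
    apply integral_congr
    intro s hs
    rw [Set.uIcc_of_le (le_max_right _ _)] at hs
    have h1 : GG (n + 1) (s - 1) = GG n (s - 1) := by
      apply ih
      have h2 := hs.2
      push_cast at ht
      have h3 : max t 1 ≤ (n : ℝ) + 2 := by
        apply max_le
        · linarith
        · have : (0 : ℝ) ≤ n := Nat.cast_nonneg n
          linarith
      linarith
    simp only [h1]

lemma stab (m k : ℕ) (hk : m ≤ k) {t : ℝ} (ht : t ≤ m + 1) : GG k t = GG m t := by
  induction k, hk using Nat.le_induction with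
  | base => rfl
  | succ k hk ih =>
    rw [step k, ih]
    have : (m : ℝ) ≤ k := by exact_mod_cast hk
    linarith

/-- The solution. -/
noncomputable def gg (t : ℝ) : ℝ := GG ⌈t⌉₊ t

lemma gg_eq (m : ℕ) {t : ℝ} (ht : t ≤ m) : gg t = GG m t := by
  unfold gg
  rw [stab ⌈t⌉₊ m (Nat.ceil_le.2 ht)]
  have := Nat.le_ceil t
  linarith

end DDEM

open DDEM in
theorem specDDE : SpecDDE := by
  refine ⟨gg, ?_, ?_, ?_, ?_⟩
  · rw [continuous_iff_continuousAt]
    intro x
    obtain ⟨m, hm⟩ := exists_nat_gt x
    have h1 : gg =ᶠ[𝓝 x] GG m := by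
      filter_upwards [gt_mem_nhds hm] with t ht
      exact gg_eq m (le_of_lt ht)
    exact (cont m).continuousAt.congr h1.symm
  · intro t t' h
    obtain ⟨m, hm⟩ := exists_nat_gt t'
    rw [gg_eq m hm.le, gg_eq m (h.trans hm.le)]
    exact mono m h
  · intro t ht
    rw [gg_eq 1 (by simpa using ht)]
    exact eq_one 1 ht
  · intro x hx
    obtain ⟨m, hm⟩ := exists_nat_gt x
    have h1 : gg =ᶠ[𝓝 x] fun t => 1 + ∫ s in (1 : ℝ)..t, GG m (s - 1) / max s 1 := by
      filter_upwards [gt_mem_nhds hm, lt_mem_nhds hx] with t ht ht1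
      rw [gg_eq (m + 1) (by push_cast; linarith), GG_succ, max_eq_left (le_of_lt ht1)]
    have hc := cont_int (cont m)
    have h2 : HasDerivAt (fun t => ∫ s in (1 : ℝ)..t, GG m (s - 1) / max s 1)
        (GG m (x - 1) / max x 1) x :=
      intervalIntegral.integral_hasDerivAt_right (hc.intervalIntegrable _ _)
        hc.stronglyMeasurable.stronglyMeasurableAtFilter hc.continuousAt
    have h3 := (h2.const_add 1).congr_of_eventuallyEq h1
    rw [max_eq_left hx.le, ← gg_eq m (by linarith)] at h3
    exact h3

end Pool.Agent.Lib.MP_926cc3_nt.TH
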