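import Pool.Agent.Lib.MP_926cc3_nt.TH.Spec

set_option autoImplicit false

open Filter Topology MeasureTheory ProbabilityTheory ArithmeticFunction

namespace Pool.Agent.Lib.MP_926cc3_nt.TH

open Pool.Agent.Lib.MP_926cc3_nt.RS

theorem specDEF (hDDE : SpecDDE) (hCNV : SpecCNV) (hLIM : SpecLIM) (hOSC : SpecOSC) (hWLG : SpecWLG) :
    SpecDEF := by
  intro U
  obtain ⟨g, hg⟩ := hDDE
  obtain ⟨c, hc, hV, C, hC, hest⟩ := hLIM g hg
  obtain ⟨t1, t2, hU1, h12, hlt⟩ := hOSC g c C hg hc hC hest ((U : ℝ) + 2)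
  have hUR : (0 : ℝ) ≤ U := Nat.cast_nonneg U
  have ht1 : 0 ≤ t1 := by linarith
  have ht2 : 0 ≤ t2 := by linarith
  have hpos : 0 < c * (t2 - t1) := mul_pos hc (by linarith)
  -- the ratio
  obtain ⟨kap, hk0, hk1, hk2⟩ : ∃ kap : ℝ, 0 < kap ∧ kap < 1 ∧ g t2 - g t1 < kap * (c * (t2 - t1)) := by
    obtain ⟨k, hk⟩ : ∃ k : ℝ, k = (g t2 - g t1) / (c * (t2 - t1)) := ⟨_, rfl⟩
    have h1 : k < 1 := by
      rw [hk, div_lt_one hpos]
      exact hlt
    have h2 : 0 ≤ k := by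
      rw [hk]
      apply div_nonneg _ hpos.le
      have := hg.2.1 h12.le
      linarith
    refine ⟨(1 + k) / 2, by linarith, by linarith, ?_⟩
    have h3 : g t2 - g t1 = k * (c * (t2 - t1)) := by
      rw [hk, div_mul_cancel₀ _ hpos.ne']
    rw [h3]
    exact mul_lt_mul_of_pos_right (by linarith) hpos
  refine ⟨kap, hk0, hk1, ?_⟩
  have hlog : Tendsto (fun n : ℕ => Real.log (n : ℝ)) atTop atTop :=
    Real.tendsto_log_atTop.comp tendsto_natCast_atTop_atTop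
  have hV0 : Tendsto (fun z : ℕ => V z) atTop (𝓝 0) := by
    have h1 : Tendsto (fun z : ℕ => V z * Real.log z * (Real.log z)⁻¹) atTop (𝓝 (c * 0)) :=
      hV.mul hlog.inv_tendsto_atTop
    rw [mul_zero] at h1
    refine h1.congr' ?_
    filter_upwards [hlog.eventually_gt_atTop 0] with z hz
    field_simp
  have hlim : Tendsto (fun z : ℕ => kap * ((V z * Real.log z) * (t2 - t1) - V z * Real.log 3) -
      (G z t2 - G z t1)) atTop (𝓝 (kap * (c * (t2 - t1) - 0 * Real.log 3) - (g t2 - g t1))) := by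
    have h1 := hCNV g hg t1 ht1
    have h2 := hCNV g hg t2 ht2
    exact (((hV.mul_const _).sub (hV0.mul_const _)).const_mul kap).sub (h2.sub h1)
  have hlim0 : 0 < kap * (c * (t2 - t1) - 0 * Real.log 3) - (g t2 - g t1) := by
    rw [zero_mul, sub_zero]
    linarith
  obtain ⟨z1, hz1⟩ := eventually_atTop.1 (hlim.eventually_const_lt hlim0)
  obtain ⟨T, hT⟩ := exists_nat_ge t2
  refine ⟨T, max z1 2, ?_⟩
  intro z hz H hH1 hHU
  have hz2 : 2 ≤ z := (le_max_right _ _).trans hz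
  have hφ := hz1 z ((le_max_left _ _).trans hz)
  have hzR : (2 : ℝ) ≤ z := by exact_mod_cast hz2
  have hz0 : (0 : ℝ) < z := by linarith
  have hL0 : 0 < Real.log z := Real.log_pos (by linarith)
  have hVp := Gra.V_pos z hz2
  by_contra hcon
  push Not at hcon
  obtain ⟨X1, hX1⟩ : ∃ X1 : ℝ, X1 = Real.exp (t1 * Real.log z) := ⟨_, rfl⟩
  obtain ⟨X2, hX2⟩ : ∃ X2 : ℝ, X2 = Real.exp (t2 * Real.log z) := ⟨_, rfl⟩
  obtain ⟨x1, hx1⟩ : ∃ x1 : ℕ, x1 = ⌊X1⌋₊ := ⟨_, rfl⟩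
  obtain ⟨x2, hx2⟩ : ∃ x2 : ℕ, x2 = ⌊X2⌋₊ := ⟨_, rfl⟩
  have hX1p : 0 < X1 := by rw [hX1]; exact Real.exp_pos _
  have hX2p : 0 < X2 := by rw [hX2]; exact Real.exp_pos _
  have hX12 : X1 ≤ X2 := by
    rw [hX1, hX2]
    exact Real.exp_le_exp.2 (mul_le_mul_of_nonneg_right h12.le hL0.le)
  have hx12 : x1 ≤ x2 := by
    rw [hx1, hx2]
    exact Nat.floor_le_floor hX12
  have hpow : ∀ n : ℕ, Real.exp (n * Real.log z) = (z : ℝ) ^ n := by
    intro n
    rw [← Real.log_pow, Real.exp_log (by positivity)]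
  have hX1U : (z : ℝ) ^ (U + 1) ≤ X1 := by
    rw [← hpow, hX1]
    apply Real.exp_le_exp.2
    apply mul_le_mul_of_nonneg_right _ hL0.le
    push_cast
    linarith
  have hzU : (0 : ℝ) < (z : ℝ) ^ U := by positivity
  have hzU1 : (z : ℝ) ^ U * 2 ≤ X1 := by
    refine le_trans ?_ hX1U
    rw [pow_succ]
    exact mul_le_mul_of_nonneg_left hzR hzU.le
  have hHR : (H : ℝ) ≤ (z : ℝ) ^ U := by exact_mod_cast hHU
  have hHx1 : H < x1 := by
    have h1 : z ^ (U + 1) ≤ x1 := by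
      rw [hx1]
      apply Nat.le_floor
      push_cast
      exact hX1U
    have h2 : z ^ U < z ^ (U + 1) := Nat.pow_lt_pow_right (by omega) (by omega)
    omega
  have hx2T : x2 ≤ z ^ T := by
    have h1 : (x2 : ℝ) ≤ (z : ℝ) ^ T := by
      rw [hx2]
      refine (Nat.floor_le hX2p.le).trans ?_
      rw [← hpow, hX2]
      apply Real.exp_le_exp.2
      exact mul_le_mul_of_nonneg_right hT hL0.le
    exact_mod_cast h1
  have hlam : 0 ≤ kap * V z := mul_nonneg hk0.le hVp.le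
  have hW := (hWLG (r z) H x1 x2 (kap * V z) (fun n => Gra.r_nonneg z n) hlam hH1 hHx1 hx12).1
    (fun a _ ha => (hcon a (ha.trans hx2T)).le)
  have hsum : ∑ n ∈ Finset.Ioc x1 x2, r z n / n = G z t2 - G z t1 := by
    unfold G
    rw [← hX1, ← hX2, ← hx1, ← hx2, eq_sub_iff_add_eq, add_comm]
    exact Finset.sum_Ioc_consecutive _ (Nat.zero_le _) hx12
  rw [hsum] at hW
  have hx1R : (x1 : ℝ) ≤ X1 := by
    rw [hx1]
    exact Nat.floor_le hX1p.le
  have hx2R : X2 < (x2 : ℝ) + 1 := by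
    rw [hx2]
    exact Nat.lt_floor_add_one _
  have hzU3 : (1 : ℝ) ≤ (z : ℝ) ^ U := one_le_pow₀ (by linarith)
  have hx2h : X2 / 2 ≤ (x2 : ℝ) := by linarith
  have hden : (x1 : ℝ) + H ≤ 3 / 2 * X1 := by linarith
  have hden0 : (0 : ℝ) < (x1 : ℝ) + H := by
    have : (1 : ℝ) ≤ H := by exact_mod_cast hH1
    have : (0 : ℝ) ≤ x1 := Nat.cast_nonneg _
    linarith
  have hratio : X2 / X1 / 3 ≤ (x2 : ℝ) / ((x1 : ℝ) + H) := by
    rw [le_div_iff₀ hden0]
    have h1 : X2 / X1 / 3 * ((x1 : ℝ) + H) ≤ X2 / X1 / 3 * (3 / 2 * X1) :=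
      mul_le_mul_of_nonneg_left hden (by positivity)
    have h2 : X2 / X1 / 3 * (3 / 2 * X1) = X2 / 2 := by
      field_simp
    linarith
  have hlogr : (t2 - t1) * Real.log z - Real.log 3 ≤ Real.log ((x2 : ℝ) / ((x1 : ℝ) + H)) := by
    have h1 : Real.log (X2 / X1 / 3) = (t2 - t1) * Real.log z - Real.log 3 := by
      rw [Real.log_div (by positivity) (by norm_num), Real.log_div hX2p.ne' hX1p.ne', hX1, hX2,
        Real.log_exp, Real.log_exp]
      ring
    rw [← h1]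
    exact Real.log_le_log (by positivity) hratio
  have h5 := mul_le_mul_of_nonneg_left hlogr hlam
  have h6 : kap * V z * ((t2 - t1) * Real.log z - Real.log 3) =
      kap * ((V z * Real.log z) * (t2 - t1) - V z * Real.log 3) := by ring
  rw [h6] at h5
  linarith

end Pool.Agent.Lib.MP_926cc3_nt.TH
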