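import Pool.Agent.Lib.MP_926cc3_nt.TH.Spec

/-! Module DIE: the integral form of the delay equation. -/

set_option autoImplicit false

open Filter Topology MeasureTheory intervalIntegral

namespace Pool.Agent.Lib.MP_926cc3_nt.TH

namespace DIEM

theorem deriv_int {g : ℝ → ℝ} (hg : Continuous g) (x : ℝ) :
    HasDerivAt (fun t => ∫ s in (0 : ℝ)..t, g s) (g x) x :=
  intervalIntegral.integral_hasDerivAt_right (hg.intervalIntegrable _ _)
    hg.stronglyMeasurable.stronglyMeasurableAtFilter hg.continuousAt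

theorem deriv_F {g : ℝ → ℝ} (h : IsG g) (x : ℝ) (hx : 1 < x) :
    HasDerivAt (fun t => t * g t - (∫ s in (0 : ℝ)..t, g s) - ∫ s in (0 : ℝ)..(t - 1), g s) 0 x := by
  obtain ⟨hc, _, _, hd⟩ := h
  have h1 : HasDerivAt (fun t : ℝ => t * g t) (1 * g x + x * (g (x - 1) / x)) x :=
    (hasDerivAt_id x).mul (hd x hx)
  have h2 := deriv_int hc x
  have h3 : HasDerivAt (fun t => ∫ s in (0 : ℝ)..(t - 1), g s) (g (x - 1) * 1) x :=
    HasDerivAt.comp x (h₂ := fun t => ∫ s in (0 : ℝ)..t, g s) (deriv_int hc (x - 1))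
      ((hasDerivAt_id x).sub_const 1)
  have h4 := (h1.sub h2).sub h3
  have h5 : 1 * g x + x * (g (x - 1) / x) - g x - g (x - 1) * 1 = 0 := by
    have : x ≠ 0 := by positivity
    field_simp
    ring
  rw [h5] at h4
  exact h4

end DIEM

theorem specDIE : SpecDIE := by
  intro g h t ht
  have hc := h.1
  set F : ℝ → ℝ := fun t => t * g t - (∫ s in (0 : ℝ)..t, g s) - ∫ s in (0 : ℝ)..(t - 1), g s
    with hF
  have hFc : Continuous F := by
    have h1 : Continuous (fun t => ∫ s in (0 : ℝ)..t, g s) :=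
      continuous_iff_continuousAt.2 fun x => (DIEM.deriv_int hc x).continuousAt
    exact ((continuous_id.mul hc).sub h1).sub (h1.comp (continuous_id.sub continuous_const))
  have hF1 : F 1 = 0 := by
    have h1 : ∫ s in (0 : ℝ)..1, g s = 1 := by
      have h2 : ∫ s in (0 : ℝ)..1, g s = ∫ _s in (0 : ℝ)..1, (1 : ℝ) := by
        refine intervalIntegral.integral_congr fun s hs => ?_
        rw [Set.uIcc_of_le zero_le_one] at hs
        exact h.2.2.1 s hs.2
      rw [h2]; simp
    simp only [hF, h1, h.2.2.1 1 le_rfl]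
    simp
  have hFt : F t = 0 := by
    rcases ht.eq_or_lt with h1 | h1
    · rw [← h1]; exact hF1
    · obtain ⟨c, _, hc2⟩ := exists_hasDerivAt_eq_slope F (fun _ => 0) h1 hFc.continuousOn
        (fun x hx => DIEM.deriv_F h x hx.1)
      have h3 : F t - F 1 = 0 := by
        have h4 : t - 1 ≠ 0 := by linarith
        field_simp at hc2
        linarith
      rw [hF1] at h3
      linarith
  simp only [hF] at hFt
  linarith

end Pool.Agent.Lib.MP_926cc3_nt.TH
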