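import Pool.Agent.Lib.MP_926cc3_nt.TH.Spec

set_option autoImplicit false

open Filter Topology MeasureTheory ProbabilityTheory ArithmeticFunction

namespace Pool.Agent.Lib.MP_926cc3_nt.TH

open Pool.Agent.Lib.MP_926cc3_nt.RS

theorem specDTF : SpecDTF := by
  intro S ε hε hfreq hS
  obtain ⟨δ, hδ⟩ : ∃ δ : ℝ, δ = ε / (4 * (1 + ε)) := ⟨_, rfl⟩
  have hδ0 : 0 < δ := by rw [hδ]; positivity
  have hδ1 : δ * (4 * (1 + ε)) = ε := by
    rw [hδ]
    field_simp
  have hδ4 : δ < 1 / 4 := by nlinarith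
  -- lower bound from Shanks' law
  have hlow : ∀ᶠ g : ℕ in atTop, (1 - δ) * Real.sqrt g ≤ Real.log (firstElt S g : ℝ) := by
    have h1 := (Asymptotics.IsEquivalent.isLittleO hS).def hδ0
    filter_upwards [h1] with g hg
    simp only [Pi.sub_apply, Real.norm_eq_abs] at hg
    rw [abs_of_nonneg (Real.sqrt_nonneg _)] at hg
    have := (abs_le.1 hg).1
    linarith
  obtain ⟨g0, hg0⟩ := eventually_atTop.1 hlow
  have hmem : ∀ g : ℕ, g0 ≤ g → 1 ≤ g → firstElt S g ∈ S ∧ g < firstElt S g := by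
    intro g h1 h2
    have h3 := hg0 g h1
    have h4 : 0 < Real.log (firstElt S g : ℝ) := by
      have : 0 < Real.sqrt (g : ℝ) := Real.sqrt_pos.2 (by exact_mod_cast h2)
      nlinarith
    have h5 : firstElt S g ≠ 0 := by
      intro h6
      rw [h6] at h4
      simp at h4
    have hne : {p : ℕ | p ∈ S ∧ ∀ i : ℕ, 1 ≤ i → i ≤ g → (1 < p - i ∧ p - i ∉ S)}.Nonempty := by
      by_contra h6
      rw [Set.not_nonempty_iff_eq_empty] at h6
      apply h5
      unfold firstElt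
      rw [h6]
      exact Nat.sInf_empty
    have h6 := Nat.sInf_mem hne
    have h7 : firstElt S g ∈ {p : ℕ | p ∈ S ∧ ∀ i : ℕ, 1 ≤ i → i ≤ g → (1 < p - i ∧ p - i ∉ S)} := h6
    refine ⟨h7.1, ?_⟩
    have h8 := (h7.2 g h2 le_rfl).1
    omega
  have hlog : Tendsto (fun n : ℕ => Real.log (n : ℝ)) atTop atTop :=
    Real.tendsto_log_atTop.comp tendsto_natCast_atTop_atTop
  -- growth facts
  have hsq : ∀ᶠ g : ℕ in atTop, Real.log (2 * (g : ℝ)) < 3 / 4 * Real.sqrt g := by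
    have h1 : (fun x : ℝ => Real.log x) =o[atTop] (fun x : ℝ => x ^ (1 / 2 : ℝ)) :=
      isLittleO_log_rpow_atTop (by norm_num)
    have h2 := h1.def (show (0 : ℝ) < 1 / 4 by norm_num)
    have h3 := (tendsto_natCast_atTop_atTop (R := ℝ)).eventually h2
    have h4 := (Real.tendsto_sqrt_atTop.comp (tendsto_natCast_atTop_atTop (R := ℝ))).eventually_gt_atTop
      (2 * Real.log 2)
    filter_upwards [h3, h4, eventually_ge_atTop 1] with g hg1 hg2 hg3
    have hgR : (1 : ℝ) ≤ g := by exact_mod_cast hg3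
    rw [Real.norm_eq_abs, Real.norm_eq_abs, ← Real.sqrt_eq_rpow,
      abs_of_nonneg (Real.sqrt_nonneg _)] at hg1
    have h5 := (le_abs_self _).trans hg1
    rw [Real.log_mul (by norm_num) (by linarith)]
    have h6 : 2 * Real.log 2 < Real.sqrt (g : ℝ) := hg2
    linarith
  obtain ⟨g1, hg1⟩ := eventually_atTop.1 hsq
  obtain ⟨K, hK⟩ : ∃ K : ℝ, K = max (max 1 ((g0 : ℝ) + 2))
    (2 / ε * (2 * Real.log 4 + Real.log 4 ^ 2 + 1) + 1) := ⟨_, rfl⟩
  have hx := hlog.eventually_ge_atTop K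
  obtain ⟨x, ⟨a, ha1, ha2, ha3⟩, hxK, hxg, hx2⟩ :=
    (hfreq.and_eventually (hx.and ((eventually_ge_atTop g1).and (eventually_ge_atTop 2)))).exists
  obtain ⟨l, hl⟩ : ∃ l : ℝ, l = Real.log x := ⟨_, rfl⟩
  rw [← hl] at hxK ha3
  have hl1 : 1 ≤ l := ((le_max_left _ _).trans (le_max_left _ _)).trans (hK ▸ hxK)
  have hlg0 : (g0 : ℝ) + 2 ≤ l := ((le_max_right _ _).trans (le_max_left _ _)).trans (hK ▸ hxK)
  have hl3 : 2 / ε * (2 * Real.log 4 + Real.log 4 ^ 2 + 1) + 1 ≤ l := (le_max_right _ _).trans (hK ▸ hxK)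
  obtain ⟨Lf, hLf⟩ : ∃ Lf : ℕ, Lf = ⌊(1 + ε) * l ^ 2⌋₊ := ⟨_, rfl⟩
  rw [← hLf] at ha3
  have hLf1 : (1 + ε) * l ^ 2 - 1 < Lf := by
    rw [hLf]
    exact Nat.sub_one_lt_floor _
  -- the next element of S
  have hex : ∃ q, q ∈ S ∧ a ≤ q := by
    obtain ⟨h1, h2⟩ := hmem (max (max g0 1) a) ((le_max_left _ _).trans (le_max_left _ _))
      ((le_max_right _ _).trans (le_max_left _ _))
    exact ⟨_, h1, ((le_max_right _ _).trans h2.le)⟩
  classical
  obtain ⟨q, hq⟩ : ∃ q, q = Nat.find hex := ⟨_, rfl⟩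
  have hqS : q ∈ S ∧ a ≤ q := by rw [hq]; exact Nat.find_spec hex
  have hqmin : ∀ n, a ≤ n → n < q → n ∉ S := by
    intro n h1 h2 h3
    rw [hq] at h2
    exact Nat.find_min hex h2 ⟨h3, h1⟩
  have hqL : a + Lf ≤ q := by
    by_contra h1
    exact ha3 q hqS.2 (not_le.1 h1) hqS.1
  obtain ⟨g, hgq⟩ : ∃ g, g = q - a := ⟨_, rfl⟩
  have hgL : Lf ≤ g := by omega
  have hgR : (1 + ε) * l ^ 2 - 1 < (g : ℝ) := by
    have : (Lf : ℝ) ≤ g := by exact_mod_cast hgL
    linarith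
  have hg0' : g0 ≤ g := by
    have h1 : (g0 : ℝ) < g := by nlinarith
    exact_mod_cast h1.le
  have hfe : firstElt S g ≤ q := by
    unfold firstElt
    apply Nat.sInf_le
    refine ⟨hqS.1, ?_⟩
    intro i h1 h2
    refine ⟨by omega, hqmin (q - i) (by omega) (by omega)⟩
  have hfe2 : firstElt S g ≤ 2 * x + g := by omega
  have hg1' : 1 ≤ g := by
    have h1 : (0 : ℝ) < g := by nlinarith
    exact_mod_cast h1
  have hfpos : 0 < firstElt S g := lt_of_le_of_lt (Nat.zero_le _) (hmem g hg0' hg1').2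
  have hmain := hg0 g hg0'
  have hlogfe : Real.log (firstElt S g : ℝ) ≤ Real.log (2 * (x : ℝ) + g) := by
    apply Real.log_le_log (by exact_mod_cast hfpos)
    exact_mod_cast hfe2
  have hsg := Real.sqrt_nonneg (g : ℝ)
  have hsg2 : Real.sqrt (g : ℝ) ^ 2 = g := Real.sq_sqrt (Nat.cast_nonneg g)
  have hxR : (0 : ℝ) < x := by exact_mod_cast (by omega : 0 < x)
  by_cases hcase : g ≤ 2 * x
  · have hcR : (g : ℝ) ≤ 2 * x := by exact_mod_cast hcase
    have h1 : Real.log (2 * (x : ℝ) + g) ≤ Real.log 4 + l := by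
      rw [hl, ← Real.log_mul (by norm_num) hxR.ne']
      apply Real.log_le_log (by positivity)
      linarith
    have h2 : (1 - δ) * Real.sqrt g ≤ Real.log 4 + l := by linarith
    have hlog4 : 0 < Real.log 4 := Real.log_pos (by norm_num)
    have h3 : ((1 - δ) * Real.sqrt g) ^ 2 ≤ (Real.log 4 + l) ^ 2 :=
      pow_le_pow_left₀ (mul_nonneg (by linarith) hsg) h2 2
    rw [mul_pow, hsg2] at h3
    have h4 : (1 - 2 * δ) * (g : ℝ) ≤ (1 - δ) ^ 2 * g := by
      apply mul_le_mul_of_nonneg_right _ (Nat.cast_nonneg g)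
      nlinarith
    have h5 : (1 - 2 * δ) * ((1 + ε) * l ^ 2 - 1) ≤ (1 - 2 * δ) * g :=
      mul_le_mul_of_nonneg_left hgR.le (by linarith)
    have h6 : (1 - 2 * δ) * (1 + ε) = 1 + ε / 2 := by nlinarith
    have h7 : (1 - 2 * δ) * ((1 + ε) * l ^ 2 - 1) = (1 + ε / 2) * l ^ 2 - (1 - 2 * δ) := by
      rw [mul_sub, ← mul_assoc, h6]
      ring
    have h8 : ε / 2 * l ^ 2 ≤ 2 * Real.log 4 * l + Real.log 4 ^ 2 + 1 := by nlinarith
    have h9 : 2 * Real.log 4 * l + Real.log 4 ^ 2 + 1 ≤ (2 * Real.log 4 + Real.log 4 ^ 2 + 1) * l := by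
      nlinarith [sq_nonneg (Real.log 4)]
    have h10 : ε / 2 * l ≤ 2 * Real.log 4 + Real.log 4 ^ 2 + 1 := by
      have : ε / 2 * l * l ≤ (2 * Real.log 4 + Real.log 4 ^ 2 + 1) * l := by nlinarith
      exact le_of_mul_le_mul_right this (by linarith)
    have h11 : 2 * Real.log 4 + Real.log 4 ^ 2 + 1 + ε / 2 ≤ ε / 2 * l := by
      have h12 := mul_le_mul_of_nonneg_left hl3 (show (0 : ℝ) ≤ ε / 2 by positivity)
      have h13 : ε / 2 * (2 / ε * (2 * Real.log 4 + Real.log 4 ^ 2 + 1) + 1) =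
          2 * Real.log 4 + Real.log 4 ^ 2 + 1 + ε / 2 := by
        field_simp
      linarith
    linarith
  · have hcR : 2 * (x : ℝ) < g := by exact_mod_cast not_le.1 hcase
    have h1 : Real.log (2 * (x : ℝ) + g) ≤ Real.log (2 * (g : ℝ)) := by
      apply Real.log_le_log (by positivity)
      linarith
    have h2 := hg1 g (by omega)
    have h3 : 3 / 4 * Real.sqrt (g : ℝ) ≤ (1 - δ) * Real.sqrt g :=
      mul_le_mul_of_nonneg_right (by linarith) hsg
    linarith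

end Pool.Agent.Lib.MP_926cc3_nt.TH
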