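import Pool.Agent.Lib.MP_926cc3_nt.TH.Spec

set_option autoImplicit false

open Filter Topology

namespace Pool.Agent.Lib.MP_926cc3_nt.TH

open Pool.Agent.Lib.MP_926cc3_nt.RS

namespace DTFBM

/-- infinitely many long runs: `log p(g) ≤ c √g` for infinitely many `g`, `c = 1/√(1+ε/2)` -/
theorem runs {S : Set ℕ} {ε : ℝ} (hε : 0 < ε) (hun : ∀ N : ℕ, ∃ n ∈ S, N ≤ n)
    (hfreq : ∃ᶠ x : ℕ in atTop, ∃ a : ℕ, x ≤ a ∧ a ≤ 2 * x ∧
      ∀ n, a ≤ n → n < a + ⌊(1 + ε) * Real.log x ^ 2⌋₊ → n ∉ S) :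
    ∃ᶠ g : ℕ in atTop,
      {p : ℕ | p ∈ S ∧ ∀ i : ℕ, 1 ≤ i → i ≤ g → (1 < p - i ∧ p - i ∉ S)}.Nonempty ∧
      Real.log (firstElt S g) ≤ (1 / Real.sqrt (1 + ε / 2)) * Real.sqrt g := by
  classical
  set c : ℝ := 1 / Real.sqrt (1 + ε / 2) with hc
  have hs0 : 0 < Real.sqrt (1 + ε / 2) := Real.sqrt_pos.2 (by linarith)
  have hc0 : 0 < c := by positivity
  have hc2 : c ^ 2 * (1 + ε / 2) = 1 := by
    rw [hc, div_pow, Real.sq_sqrt (by linarith), one_pow]
    field_simp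
  have hlog : Tendsto (fun n : ℕ => Real.log (n : ℝ)) atTop atTop :=
    Real.tendsto_log_atTop.comp tendsto_natCast_atTop_atTop
  -- growth facts
  have hsq : ∀ᶠ g : ℕ in atTop, Real.log (2 * (g : ℝ)) ≤ c * Real.sqrt g := by
    have h1 : (fun x : ℝ => Real.log x) =o[atTop] (fun x : ℝ => x ^ (1 / 2 : ℝ)) :=
      isLittleO_log_rpow_atTop (by norm_num)
    have h2 := h1.def (show (0 : ℝ) < c / 2 by positivity)
    have h3 := (tendsto_natCast_atTop_atTop (R := ℝ)).eventually h2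
    have h4 := (Real.tendsto_sqrt_atTop.comp
      (tendsto_natCast_atTop_atTop (R := ℝ))).eventually_ge_atTop (2 * Real.log 2 / c)
    filter_upwards [h3, h4, eventually_ge_atTop 1] with g hg1 hg2 hg3
    have hgR : (1 : ℝ) ≤ g := by exact_mod_cast hg3
    rw [Real.norm_eq_abs, Real.norm_eq_abs, ← Real.sqrt_eq_rpow,
      abs_of_nonneg (Real.sqrt_nonneg _)] at hg1
    have h5 := (le_abs_self _).trans hg1
    rw [Real.log_mul (by norm_num) (by linarith)]
    have h6 : 2 * Real.log 2 / c ≤ Real.sqrt (g : ℝ) := hg2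
    rw [div_le_iff₀ hc0] at h6
    linarith
  obtain ⟨g0, hg0⟩ := eventually_atTop.1 hsq
  rw [frequently_atTop]
  intro g1
  have hx := hlog.eventually_ge_atTop (max (max 1 (g1 + 1)) (2 / ε * ((1 + ε / 2) *
    (2 * Real.log 4 + Real.log 4 ^ 2) + 1)))
  obtain ⟨x, ⟨a, ha1, ha2, ha3⟩, hxK, hxg, hx2⟩ :=
    (hfreq.and_eventually (hx.and ((eventually_ge_atTop g0).and (eventually_ge_atTop 2)))).exists
  set l : ℝ := Real.log x with hl
  have hl1 : 1 ≤ l := ((le_max_left _ _).trans (le_max_left _ _)).trans hxK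
  have hlg : (g1 : ℝ) + 1 ≤ l := ((le_max_right _ _).trans (le_max_left _ _)).trans hxK
  have hl3 : 2 / ε * ((1 + ε / 2) * (2 * Real.log 4 + Real.log 4 ^ 2) + 1) ≤ l :=
    (le_max_right _ _).trans hxK
  set Lf : ℕ := ⌊(1 + ε) * l ^ 2⌋₊ with hLf
  have hLf1 : (1 + ε) * l ^ 2 - 1 < Lf := Nat.sub_one_lt_floor _
  have hex : ∃ q, q ∈ S ∧ a ≤ q := by
    obtain ⟨q, h1, h2⟩ := hun a
    exact ⟨q, h1, h2⟩
  obtain ⟨q, hq⟩ : ∃ q, q = Nat.find hex := ⟨_, rfl⟩
  have hqS : q ∈ S ∧ a ≤ q := by rw [hq]; exact Nat.find_spec hex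
  have hqmin : ∀ n, a ≤ n → n < q → n ∉ S := by
    intro n h1 h2 h3
    rw [hq] at h2
    exact Nat.find_min hex h2 ⟨h3, h1⟩
  have hqL : a + Lf ≤ q := by
    by_contra h1
    exact ha3 q hqS.2 (not_le.1 h1) hqS.1
  obtain ⟨g, hgq⟩ : ∃ g, g = q - a := ⟨_, rfl⟩
  have hgL : Lf ≤ g := by omega
  have hgR : (1 + ε) * l ^ 2 - 1 < (g : ℝ) := by
    have : (Lf : ℝ) ≤ g := by exact_mod_cast hgL
    linarith
  have hgg1 : g1 ≤ g := by
    have h1 : (g1 : ℝ) < g := by nlinarith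
    exact_mod_cast h1.le
  have hmem : q ∈ {p : ℕ | p ∈ S ∧ ∀ i : ℕ, 1 ≤ i → i ≤ g → (1 < p - i ∧ p - i ∉ S)} := by
    refine ⟨hqS.1, ?_⟩
    intro i h1 h2
    exact ⟨by omega, hqmin (q - i) (by omega) (by omega)⟩
  refine ⟨g, hgg1, ⟨q, hmem⟩, ?_⟩
  have hfe : firstElt S g ≤ q := Nat.sInf_le hmem
  have hfe2 : firstElt S g ≤ 2 * x + g := by omega
  have hxR : (2 : ℝ) ≤ x := by exact_mod_cast hx2
  have hlogfe : Real.log (firstElt S g : ℝ) ≤ Real.log (2 * (x : ℝ) + g) := by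
    rcases Nat.eq_zero_or_pos (firstElt S g) with h0 | h0
    · rw [h0]
      simp only [Nat.cast_zero, Real.log_zero]
      apply Real.log_nonneg
      have : (0 : ℝ) ≤ g := Nat.cast_nonneg g
      linarith
    · apply Real.log_le_log (by exact_mod_cast h0)
      exact_mod_cast hfe2
  refine hlogfe.trans ?_
  by_cases hcase : g ≤ 2 * x
  · have hcR : (g : ℝ) ≤ 2 * x := by exact_mod_cast hcase
    have h1 : Real.log (2 * (x : ℝ) + g) ≤ Real.log 4 + l := by
      rw [hl, ← Real.log_mul (by norm_num) (by linarith)]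
      apply Real.log_le_log (by positivity)
      linarith
    refine h1.trans ?_
    have hlog4 : 0 < Real.log 4 := Real.log_pos (by norm_num)
    have e : c * Real.sqrt g = Real.sqrt (c ^ 2 * g) := by
      rw [Real.sqrt_mul (by positivity), Real.sqrt_sq hc0.le]
    rw [e]
    apply Real.le_sqrt_of_sq_le
    have h2 : (1 + ε / 2) * (Real.log 4 + l) ^ 2 ≤ g := by
      have h3 : ((1 + ε / 2) * (2 * Real.log 4 + Real.log 4 ^ 2) + 1) ≤ ε / 2 * l := by
        have h4 := mul_le_mul_of_nonneg_left hl3 (show 0 ≤ ε / 2 by positivity)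
        have e2 : ε / 2 * (2 / ε * ((1 + ε / 2) * (2 * Real.log 4 + Real.log 4 ^ 2) + 1)) =
            (1 + ε / 2) * (2 * Real.log 4 + Real.log 4 ^ 2) + 1 := by field_simp
        linarith
      have h5 : ((1 + ε / 2) * (2 * Real.log 4 + Real.log 4 ^ 2) + 1) * l ≤ ε / 2 * l * l :=
        mul_le_mul_of_nonneg_right h3 (by linarith)
      have h6 : (1 + ε / 2) * (Real.log 4 + l) ^ 2 + 1 ≤
          (1 + ε / 2) * l ^ 2 + ((1 + ε / 2) * (2 * Real.log 4 + Real.log 4 ^ 2) + 1) * l := by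
        have h7 : 0 ≤ (1 + ε / 2) * Real.log 4 ^ 2 * (l - 1) := by
          apply mul_nonneg _ (by linarith)
          positivity
        nlinarith
      nlinarith
    have h3 : (Real.log 4 + l) ^ 2 = c ^ 2 * ((1 + ε / 2) * (Real.log 4 + l) ^ 2) := by
      rw [← mul_assoc, hc2, one_mul]
    rw [h3]
    exact mul_le_mul_of_nonneg_left h2 (by positivity)
  · have hcR : 2 * (x : ℝ) ≤ g := by
      have : 2 * x ≤ g := by omega
      exact_mod_cast this
    have h1 : Real.log (2 * (x : ℝ) + g) ≤ Real.log (2 * (g : ℝ)) := by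
      apply Real.log_le_log (by positivity)
      linarith
    exact h1.trans (hg0 g (by omega))

end DTFBM

end Pool.Agent.Lib.MP_926cc3_nt.TH
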