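import Pool.Agent.Lib.MP_926cc3_nt.TH.Spec

/-!
# MP_926cc3_nt, module EMP: disjoint windows of independent events
-/

set_option autoImplicit false

open Filter Topology MeasureTheory ProbabilityTheory

namespace Pool.Agent.Lib.MP_926cc3_nt.TH

namespace EMPM

universe u

variable {Ω : Type u} [MeasurableSpace Ω] {μ : Measure Ω} [IsProbabilityMeasure μ]
  {B : ℕ → Set Ω}

/-- all events of `S` occur, none of `J` occurs -/
def Ev (B : ℕ → Set Ω) (S J : Finset ℕ) : Set Ω :=
  {ω | (∀ n ∈ S, ω ∈ B n) ∧ ∀ n ∈ J, ω ∉ B n}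

theorem Ev_meas (hB : ∀ n, MeasurableSet (B n)) (S J : Finset ℕ) : MeasurableSet (Ev B S J) := by
  have e : Ev B S J = (⋂ n ∈ S, B n) ∩ ⋂ n ∈ J, (B n)ᶜ := by
    ext ω
    simp [Ev]
  rw [e]
  exact (Finset.measurableSet_biInter S fun n _ => hB n).inter
    (Finset.measurableSet_biInter J fun n _ => (hB n).compl)

theorem real_inter_compl (X Y : Set Ω) (hY : MeasurableSet Y) :
    μ.real (X ∩ Yᶜ) = μ.real X - μ.real (X ∩ Y) := by
  have h := measureReal_inter_add_sdiff (μ := μ) (s := X) hY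
  have e : X \ Y = X ∩ Yᶜ := rfl
  rw [e] at h
  linarith

theorem Ev_real (hB : ∀ n, MeasurableSet (B n)) (hI : iIndepSet B μ) (J : Finset ℕ) :
    ∀ S : Finset ℕ, Disjoint S J →
      μ.real (Ev B S J) = (∏ n ∈ S, μ.real (B n)) * ∏ n ∈ J, (1 - μ.real (B n)) := by
  classical
  induction J using Finset.induction_on with
  | empty =>
    intro S _
    have e : Ev B S ∅ = ⋂ n ∈ S, B n := by
      ext ω
      simp [Ev]
    rw [e, Finset.prod_empty, mul_one, measureReal_def, hI.meas_biInter S, ENNReal.toReal_prod]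
    rfl
  | insert t J ht ih =>
    intro S hS
    rw [Finset.disjoint_insert_right] at hS
    have h1 := ih S hS.2
    have h2 := ih (insert t S) (by
      rw [Finset.disjoint_insert_left]
      exact ⟨ht, hS.2⟩)
    have e1 : Ev B S (insert t J) = Ev B S J ∩ (B t)ᶜ := by
      ext ω
      simp only [Ev, Finset.mem_insert, forall_eq_or_imp, Set.mem_inter_iff, Set.mem_compl_iff]
      constructor
      · rintro ⟨h1, h2, h3⟩
        exact ⟨⟨h1, h3⟩, h2⟩
      · rintro ⟨⟨h1, h3⟩, h2⟩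
        exact ⟨h1, h2, h3⟩
    have e2 : Ev B (insert t S) J = Ev B S J ∩ B t := by
      ext ω
      simp only [Ev, Finset.mem_insert, forall_eq_or_imp, Set.mem_inter_iff]
      constructor
      · rintro ⟨⟨h1, h2⟩, h3⟩
        exact ⟨⟨h2, h3⟩, h1⟩
      · rintro ⟨⟨h2, h3⟩, h1⟩
        exact ⟨⟨h1, h2⟩, h3⟩
    rw [e1, real_inter_compl _ _ (hB t), h1, ← e2, h2, Finset.prod_insert hS.1,
      Finset.prod_insert ht]
    ring

/-- no event of `J` occurs, in every window `W k`, `k ∈ T`, an event occurs -/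
def Fv (B : ℕ → Set Ω) (W : ℕ → Finset ℕ) (T J : Finset ℕ) : Set Ω :=
  {ω | (∀ n ∈ J, ω ∉ B n) ∧ ∀ k ∈ T, ∃ n ∈ W k, ω ∈ B n}

theorem Fv_real (hB : ∀ n, MeasurableSet (B n)) (hI : iIndepSet B μ) (W : ℕ → Finset ℕ)
    (T : Finset ℕ) : (∀ k ∈ T, ∀ l ∈ T, k ≠ l → Disjoint (W k) (W l)) →
    ∀ J : Finset ℕ, (∀ k ∈ T, Disjoint (W k) J) →
      μ.real (Fv B W T J) = (∏ n ∈ J, (1 - μ.real (B n))) *
        ∏ k ∈ T, (1 - ∏ n ∈ W k, (1 - μ.real (B n))) := by
  classical
  induction T using Finset.induction_on with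
  | empty =>
    intro _ J _
    have e : Fv B W ∅ J = Ev B ∅ J := by
      ext ω
      simp [Ev, Fv]
    rw [e, Ev_real hB hI J ∅ (Finset.disjoint_empty_left J)]
    simp
  | insert t T ht ih =>
    intro hW J hJ
    have hW' : ∀ k ∈ T, ∀ l ∈ T, k ≠ l → Disjoint (W k) (W l) := fun k hk l hl =>
      hW k (Finset.mem_insert_of_mem hk) l (Finset.mem_insert_of_mem hl)
    have h1 := ih hW' J fun k hk => hJ k (Finset.mem_insert_of_mem hk)
    have h2 := ih hW' (J ∪ W t) fun k hk => by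
      rw [Finset.disjoint_union_right]
      refine ⟨hJ k (Finset.mem_insert_of_mem hk), hW k (Finset.mem_insert_of_mem hk) t
        (Finset.mem_insert_self t T) ?_⟩
      rintro rfl
      exact ht hk
    set Y : Set Ω := {ω | ∀ n ∈ W t, ω ∉ B n} with hY
    have hYm : MeasurableSet Y := by
      have e : Y = Ev B ∅ (W t) := by
        ext ω
        simp [Ev, hY]
      rw [e]
      exact Ev_meas hB ∅ (W t)
    have e1 : Fv B W (insert t T) J = Fv B W T J ∩ Yᶜ := by
      ext ω
      simp only [Fv, hY, Finset.mem_insert, forall_eq_or_imp, Set.mem_inter_iff, Set.mem_compl_iff,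
        Set.mem_ofPred_eq, not_forall, not_not, exists_prop]
      tauto
    have e2 : Fv B W T (J ∪ W t) = Fv B W T J ∩ Y := by
      ext ω
      simp only [Fv, hY, Finset.mem_union, Set.mem_inter_iff, Set.mem_ofPred_eq]
      constructor
      · rintro ⟨h1, h2⟩
        exact ⟨⟨fun n hn => h1 n (Or.inl hn), h2⟩, fun n hn => h1 n (Or.inr hn)⟩
      · rintro ⟨⟨h1, h2⟩, h3⟩
        refine ⟨fun n hn => ?_, h2⟩
        rcases hn with hn | hn
        · exact h1 n hn
        · exact h3 n hn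
    have hd : Disjoint J (W t) := (hJ t (Finset.mem_insert_self t T)).symm
    rw [e1, real_inter_compl _ _ hYm, h1, ← e2, h2, Finset.prod_union hd, Finset.prod_insert ht]
    ring

end EMPM

open EMPM in
theorem specEMP : SpecEMP := by
  intro Ω m0 μ hμ B hB hI I W q hW hq hqk
  have h := Fv_real hB hI W I hW ∅ (fun k _ => Finset.disjoint_empty_right _)
  have e : {ω | ∀ k ∈ I, ∃ n ∈ W k, ω ∈ B n} = Fv B W I ∅ := by
    ext ω
    simp [Fv]
  rw [e, h, Finset.prod_empty, one_mul]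
  have h1 : ∀ k ∈ I, 0 ≤ 1 - ∏ n ∈ W k, (1 - μ.real (B n)) := by
    intro k _
    have h2 : ∏ n ∈ W k, (1 - μ.real (B n)) ≤ 1 :=
      Finset.prod_le_one (fun n _ => by
        have := measureReal_le_one (μ := μ) (s := B n)
        linarith) (fun n _ => by
        have := measureReal_nonneg (μ := μ) (s := B n)
        linarith)
    linarith
  calc ∏ k ∈ I, (1 - ∏ n ∈ W k, (1 - μ.real (B n))) ≤ ∏ _k ∈ I, (1 - q) :=
        Finset.prod_le_prod h1 (fun k hk => by
          have := hqk k hk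
          linarith)
    _ = (1 - q) ^ I.card := Finset.prod_const _

end Pool.Agent.Lib.MP_926cc3_nt.TH
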