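import Pool.Agent.Lib.MP_926cc3_nt.TH.Spec

/-!
Module GIN: `G z` is a finite sum of multiples of indicators of half lines.
-/

set_option autoImplicit false

open Filter Topology MeasureTheory ProbabilityTheory ArithmeticFunction

namespace Pool.Agent.Lib.MP_926cc3_nt.TH

open Pool.Agent.Lib.MP_926cc3_nt.RS

namespace GINM

theorem logz_pos {z : ℕ} (hz : 2 ≤ z) : 0 < Real.log z :=
  Real.log_pos (by exact_mod_cast hz)

theorem mem_iff {z : ℕ} (hz : 2 ≤ z) (t : ℝ) {n : ℕ} (hn : 1 ≤ n) :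
    n ≤ ⌊Real.exp (t * Real.log z)⌋₊ ↔ Real.log n / Real.log z ≤ t := by
  have hn' : (0 : ℝ) < n := by exact_mod_cast hn
  rw [Nat.le_floor_iff (Real.exp_pos _).le, div_le_iff₀ (logz_pos hz)]
  exact (Real.log_le_iff_le_exp hn').symm

theorem term_nonneg (z n : ℕ) : 0 ≤ r z n / n :=
  div_nonneg (Gra.r_nonneg z n) (Nat.cast_nonneg n)

theorem mono {z : ℕ} (hz : 2 ≤ z) : Monotone (G z) := by
  intro s t hst
  unfold G
  refine Finset.sum_le_sum_of_subset_of_nonneg ?_ fun n _ _ => term_nonneg z n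
  refine Finset.Ioc_subset_Ioc le_rfl (Nat.floor_le_floor (Real.exp_le_exp.2 ?_))
  exact mul_le_mul_of_nonneg_right hst (logz_pos hz).le

theorem r_one (z : ℕ) : r z 1 = 1 := by
  unfold r Gra.r
  rw [if_pos]
  intro q hq hq1
  exact absurd (Nat.dvd_one.1 hq1) hq.one_lt.ne'

theorem r_small {z n : ℕ} (h1 : 1 < n) (h2 : n < z) : r z n = 0 := by
  unfold r Gra.r
  rw [if_neg]
  intro h
  have hp := Nat.minFac_prime h1.ne'
  have h3 := h _ hp (Nat.minFac_dvd n)
  have h4 := Nat.minFac_le (by omega : 0 < n)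
  omega

theorem eq_one {z : ℕ} (hz : 2 ≤ z) {t : ℝ} (h0 : 0 ≤ t) (h1 : t < 1) : G z t = 1 := by
  unfold G
  have hz' : (0 : ℝ) < z := by
    have : 0 < z := by omega
    exact_mod_cast this
  have hlt : ⌊Real.exp (t * Real.log z)⌋₊ < z := by
    rw [Nat.floor_lt (Real.exp_pos _).le]
    calc Real.exp (t * Real.log z) < Real.exp (1 * Real.log z) :=
          Real.exp_lt_exp.2 (mul_lt_mul_of_pos_right h1 (logz_pos hz))
      _ = z := by rw [one_mul, Real.exp_log hz']
  have hge : 1 ≤ ⌊Real.exp (t * Real.log z)⌋₊ := by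
    rw [Nat.le_floor_iff (Real.exp_pos _).le, Nat.cast_one]
    exact Real.one_le_exp (mul_nonneg h0 (logz_pos hz).le)
  rw [Finset.sum_eq_single_of_mem 1 (Finset.mem_Ioc.2 ⟨one_pos, hge⟩)]
  · rw [r_one, Nat.cast_one, div_one]
  · intro n hn hn1
    rw [Finset.mem_Ioc] at hn
    rw [r_small (by omega) (by omega), zero_div]

/-- the integral of an indicator -/
theorem int_ind {τ t : ℝ} (h0 : 0 ≤ τ) (h1 : τ ≤ t) :
    ∫ s in (0 : ℝ)..t, (Set.Ici τ).indicator (fun _ => (1 : ℝ)) s = t - τ := by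
  have ht : 0 ≤ t := h0.trans h1
  rw [intervalIntegral.integral_of_le ht, setIntegral_indicator measurableSet_Ici]
  have h2 : volume (Set.Ioc 0 t ∩ Set.Ici τ) = ENNReal.ofReal (t - τ) := by
    refine le_antisymm ?_ ?_
    · calc volume (Set.Ioc 0 t ∩ Set.Ici τ) ≤ volume (Set.Icc τ t) :=
            measure_mono fun s hs => ⟨hs.2, hs.1.2⟩
        _ = ENNReal.ofReal (t - τ) := Real.volume_Icc
    · calc ENNReal.ofReal (t - τ) = volume (Set.Ioc τ t) := Real.volume_Ioc.symm
        _ ≤ volume (Set.Ioc 0 t ∩ Set.Ici τ) :=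
            measure_mono fun s hs => ⟨⟨h0.trans_lt hs.1, hs.2⟩, hs.1.le⟩
  rw [setIntegral_const, Measure.real, h2, ENNReal.toReal_ofReal (by linarith), smul_eq_mul,
    mul_one]

theorem ind_intble (τ t : ℝ) :
    IntervalIntegrable (fun s => (Set.Ici τ).indicator (fun _ => (1 : ℝ)) s) volume 0 t := by
  have hm : Monotone fun s => (Set.Ici τ).indicator (fun _ => (1 : ℝ)) s := by
    intro a b hab
    by_cases ha : a ∈ Set.Ici τ
    · have hb : b ∈ Set.Ici τ := le_trans (Set.mem_Ici.1 ha) hab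
      simp only [Set.indicator_of_mem ha, Set.indicator_of_mem hb, le_refl]
    · simp only [Set.indicator_of_notMem ha]
      exact Set.indicator_nonneg (fun _ _ => zero_le_one) b
  exact hm.intervalIntegrable

end GINM

open GINM in
theorem specGIN : SpecGIN := by
  intro z hz
  refine ⟨mono hz, fun t h0 h1 => eq_one hz h0 h1, fun t ht => ?_⟩
  have hL := logz_pos hz
  set N : ℕ := ⌊Real.exp (t * Real.log z)⌋₊ with hN
  have hτ : ∀ n : ℕ, 1 ≤ n → 0 ≤ Real.log n / Real.log z := fun n hn =>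
    div_nonneg (Real.log_nonneg (by exact_mod_cast hn)) hL.le
  have h1 : Set.EqOn (G z) (fun s => ∑ n ∈ Finset.Ioc 0 N, r z n / n *
      (Set.Ici (Real.log n / Real.log z)).indicator (fun _ => (1 : ℝ)) s) (Set.uIcc 0 t) := by
    intro s hs
    rw [Set.uIcc_of_le ht] at hs
    have hsub : ⌊Real.exp (s * Real.log z)⌋₊ ≤ N :=
      Nat.floor_le_floor (Real.exp_le_exp.2 (mul_le_mul_of_nonneg_right hs.2 hL.le))
    show G z s = ∑ n ∈ Finset.Ioc 0 N, r z n / n *
      (Set.Ici (Real.log n / Real.log z)).indicator (fun _ => (1 : ℝ)) s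
    unfold G
    have h2 : Finset.Ioc 0 ⌊Real.exp (s * Real.log z)⌋₊ =
        (Finset.Ioc 0 N).filter (fun n : ℕ => Real.log n / Real.log z ≤ s) := by
      ext n
      rw [Finset.mem_filter, Finset.mem_Ioc, Finset.mem_Ioc]
      constructor
      · rintro ⟨h3, h4⟩
        exact ⟨⟨h3, h4.trans hsub⟩, (mem_iff hz s h3).1 h4⟩
      · rintro ⟨⟨h3, -⟩, h4⟩
        exact ⟨h3, (mem_iff hz s h3).2 h4⟩
    rw [h2, Finset.sum_filter]
    refine Finset.sum_congr rfl fun n _ => ?_
    by_cases h3 : Real.log n / Real.log z ≤ s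
    · rw [if_pos h3, Set.indicator_of_mem (Set.mem_Ici.2 h3), mul_one]
    · rw [if_neg h3, Set.indicator_of_notMem (fun h => h3 (Set.mem_Ici.1 h)), mul_zero]
  rw [intervalIntegral.integral_congr h1, intervalIntegral.integral_finsetSum]
  · refine Finset.sum_congr rfl fun n hn => ?_
    rw [Finset.mem_Ioc] at hn
    rw [intervalIntegral.integral_const_mul, int_ind (hτ n hn.1) ((mem_iff hz t hn.1).1 hn.2)]
  · intro n _
    exact (ind_intble _ t).const_mul _

end Pool.Agent.Lib.MP_926cc3_nt.TH
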