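import Pool.Agent.Lib.MP_926cc3_nt.TH.Spec

/-!
# Module IDN: the logarithmic identity
-/

set_option autoImplicit false

open Filter Topology MeasureTheory ProbabilityTheory ArithmeticFunction

namespace Pool.Agent.Lib.MP_926cc3_nt.TH

namespace IDNM

/-- `m ↦ r z m / m`. -/
noncomputable def f1 (z : ℕ) : ArithmeticFunction ℝ := ⟨fun m => r z m / m, by simp⟩

/-- `d ↦ r z d * Λ d / d`. -/
noncomputable def f2 (z : ℕ) : ArithmeticFunction ℝ := ⟨fun d => r z d * Λ d / d, by simp⟩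

end IDNM

open IDNM in
theorem specIDN (hMUL : SpecMUL) : SpecIDN := by
  intro z x _
  have h := ArithmeticFunction.sum_Ioc_mul_eq_sum_sum (f1 z) (f2 z) x
  have hL : ∑ n ∈ Finset.Ioc 0 x, (f1 z * f2 z) n =
      ∑ n ∈ Finset.Ioc 0 x, r z n / n * Real.log n := by
    refine Finset.sum_congr rfl fun n hn => ?_
    have hn0 : n ≠ 0 := by
      have := (Finset.mem_Ioc.1 hn).1
      omega
    rw [ArithmeticFunction.mul_apply, ← vonMangoldt_sum, Finset.mul_sum]
    rw [Nat.sum_divisorsAntidiagonal' (f := fun a b => f1 z a * f2 z b)]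
    refine Finset.sum_congr rfl fun d hd => ?_
    obtain ⟨hdn, _⟩ := Nat.mem_divisors.1 hd
    obtain ⟨m, rfl⟩ := hdn
    have hd0 : d ≠ 0 := fun h0 => hn0 (by rw [h0, zero_mul])
    have hm0 : m ≠ 0 := fun h0 => hn0 (by rw [h0, mul_zero])
    have hdR : (d : ℝ) ≠ 0 := Nat.cast_ne_zero.2 hd0
    have hmR : (m : ℝ) ≠ 0 := Nat.cast_ne_zero.2 hm0
    rw [Nat.mul_div_cancel_left m (Nat.pos_of_ne_zero hd0)]
    change r z m / m * (r z d * Λ d / d) = r z (d * m) / ((d * m : ℕ) : ℝ) * Λ d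
    rw [hMUL.1 z d m, Nat.cast_mul]
    field_simp
  rw [← hL, h]
  rfl

end Pool.Agent.Lib.MP_926cc3_nt.TH
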