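import Pool.Agent.Lib.MP_926cc3_nt.TH.Spec

/-!
# MP_926cc3_nt TH: LIM, the limit of `V z log z` and the slope of `g`
-/

set_option autoImplicit false

open Filter Topology

namespace Pool.Agent.Lib.MP_926cc3_nt.TH

open Pool.Agent.Lib.MP_926cc3_nt.RS

namespace LIMM

/-- eventually `C e^(-b)` is small -/
theorem exists_b (C ε : ℝ) (hε : 0 < ε) : ∃ b : ℕ, C * Real.exp (-(b : ℝ)) ≤ ε := by
  have h : Tendsto (fun b : ℕ => C * Real.exp (-(b : ℝ))) atTop (𝓝 (C * 0)) := by
    apply Tendsto.const_mul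
    exact Real.tendsto_exp_neg_atTop_nhds_zero.comp tendsto_natCast_atTop_atTop
  rw [mul_zero] at h
  exact ((h.eventually (gt_mem_nhds hε)).mono (fun b hb => hb.le)).exists

/-- remove an arbitrarily small multiple -/
theorem le_of_forall (X Y Z : ℝ) (hY : 0 < Y) (h : ∀ η : ℝ, 0 < η → X ≤ Z + η * Y) : X ≤ Z := by
  by_contra hlt
  rw [not_le] at hlt
  have h1 := h ((X - Z) / (2 * Y)) (div_pos (by linarith) (by linarith))
  have e : (X - Z) / (2 * Y) * Y = (X - Z) / 2 := by field_simp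
  rw [e] at h1
  linarith

theorem c_pos (g : ℝ → ℝ) (hg : IsG g) (c C : ℝ) (hc0 : 0 ≤ c)
    (h : ∀ (b : ℕ) (t1 t2 : ℝ), 8 * (b : ℝ) + 21 ≤ t1 → t1 < t2 →
      |g t2 - g t1 - c * (t2 - t1)| ≤ C * Real.exp (-(b : ℝ)) * c * (t2 - t1)) : 0 < c := by
  obtain ⟨hcont, hmono, h1, hder⟩ := hg
  rcases hc0.eq_or_lt with hc | hc
  · exfalso
    rw [← hc] at h
    have hconst : ∀ t : ℝ, 21 < t → g t = g 21 := by
      intro t ht
      have := h 0 21 t (by norm_num) ht
      simp only [mul_zero, zero_mul, sub_zero] at this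
      have h3 := abs_nonpos_iff.1 this
      linarith
    have hd := hder 22 (by norm_num)
    have hd0 : HasDerivAt g 0 22 := by
      apply (hasDerivAt_const (22 : ℝ) (g 21)).congr_of_eventuallyEq
      filter_upwards [lt_mem_nhds (show (21 : ℝ) < 22 by norm_num)] with t ht
      exact hconst t ht
    have he := hd.unique hd0
    have hge : 1 ≤ g (22 - 1) := by
      have h5 := h1 1 le_rfl
      have h6 : g 1 ≤ g (22 - 1) := hmono (by norm_num)
      linarith
    have : 0 < g (22 - 1) / 22 := by positivity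
    linarith
  · exact hc

end LIMM

open LIMM in
theorem specLIM (hCNV : SpecCNV) (hFLG : SpecFLG) : SpecLIM := by
  intro g hg
  obtain ⟨C, hC, hF⟩ := hFLG
  have hcnv := hCNV g hg
  -- differences converge
  have hdiff : ∀ t1 t2 : ℝ, 0 ≤ t1 → 0 ≤ t2 →
      Tendsto (fun z : ℕ => G z t2 - G z t1) atTop (𝓝 (g t2 - g t1)) :=
    fun t1 t2 h1 h2 => (hcnv t2 h2).sub (hcnv t1 h1)
  have hcz : ∀ᶠ z : ℕ in atTop, 0 < V z * Real.log z := by
    filter_upwards [eventually_ge_atTop 2] with z hz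
    have hz2 : (2 : ℝ) ≤ z := by exact_mod_cast hz
    exact mul_pos (Gra.V_pos z hz) (Real.log_pos (by linarith))
  -- boundedness
  obtain ⟨K, hK0, hK⟩ : ∃ K : ℝ, 0 < K ∧ ∀ᶠ z : ℕ in atTop, V z * Real.log z ≤ K := by
    obtain ⟨b, hb⟩ := exists_b C (1 / 4) (by norm_num)
    have hb0 : (0 : ℝ) ≤ b := Nat.cast_nonneg b
    set t1 : ℝ := 8 * (b : ℝ) + 21 with ht1
    have hD0 : 0 ≤ g (t1 + 1) - g t1 := by
      have := hg.2.1 (show t1 ≤ t1 + 1 by linarith)
      linarith
    refine ⟨2 * (g (t1 + 1) - g t1 + 1 + 1 / 4), by linarith, ?_⟩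
    have h2 := (hdiff t1 (t1 + 1) (by linarith) (by linarith)).eventually
      (gt_mem_nhds (show g (t1 + 1) - g t1 < g (t1 + 1) - g t1 + 1 by linarith))
    filter_upwards [hF b t1 (t1 + 1) (1 / 4) le_rfl (by linarith) (by norm_num), h2, hcz]
      with z hz1 hz2 hz3
    have h3 := hz1.1
    have e : t1 + 1 - t1 = 1 := by ring
    rw [e, mul_one] at h3
    have h4 : (1 / 2) * (V z * Real.log z) ≤
        (1 - C * Real.exp (-(b : ℝ)) - 1 / 4) * (V z * Real.log z) := by
      apply mul_le_mul_of_nonneg_right _ hz3.le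
      linarith
    linarith
  -- Cauchy
  have hcau : CauchySeq (fun z : ℕ => V z * Real.log z) := by
    rw [Metric.cauchySeq_iff']
    intro ε hε
    obtain ⟨b, hb⟩ := exists_b C (ε / (8 * K)) (by positivity)
    have hb0 : (0 : ℝ) ≤ b := Nat.cast_nonneg b
    set t1 : ℝ := 8 * (b : ℝ) + 21 with ht1
    set D := g (t1 + 1) - g t1 with hD
    set η : ℝ := min (ε / 32) (ε / (8 * K)) with hη
    have hη0 : 0 < η := lt_min (by linarith) (by positivity)
    have hη1 : η ≤ ε / 32 := min_le_left _ _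
    have hη2 : η ≤ ε / (8 * K) := min_le_right _ _
    have h2 := (hdiff t1 (t1 + 1) (by linarith) (by linarith)).eventually
      (gt_mem_nhds (show g (t1 + 1) - g t1 < g (t1 + 1) - g t1 + η by linarith))
    have h2' := (hdiff t1 (t1 + 1) (by linarith) (by linarith)).eventually
      (lt_mem_nhds (show g (t1 + 1) - g t1 - η < g (t1 + 1) - g t1 by linarith))
    have hev : ∀ᶠ z : ℕ in atTop, |V z * Real.log z - D| ≤ 3 * ε / 8 := by
      filter_upwards [hF b t1 (t1 + 1) η le_rfl (by linarith) hη0, h2, h2', hcz, hK]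
        with z hz1 hz2 hz2' hz3 hz4
      obtain ⟨h3, h4⟩ := hz1
      have e : t1 + 1 - t1 = 1 := by ring
      rw [e, mul_one] at h3 h4
      have h5 : (C * Real.exp (-(b : ℝ)) + η) * (V z * Real.log z) ≤ ε / 4 := by
        calc (C * Real.exp (-(b : ℝ)) + η) * (V z * Real.log z)
            ≤ (ε / (8 * K) + ε / (8 * K)) * K := by
              apply mul_le_mul _ hz4 hz3.le (by positivity)
              linarith
          _ = ε / 4 := by field_simp; norm_num
      have e3 : (1 - C * Real.exp (-(b : ℝ)) - η) * (V z * Real.log z) =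
        V z * Real.log z - (C * Real.exp (-(b : ℝ)) + η) * (V z * Real.log z) := by ring
      have e4 : (1 + C * Real.exp (-(b : ℝ)) + η) * (V z * Real.log z) =
        V z * Real.log z + (C * Real.exp (-(b : ℝ)) + η) * (V z * Real.log z) := by ring
      rw [e3] at h3
      rw [e4] at h4
      rw [abs_le]
      constructor <;> linarith
    rw [eventually_atTop] at hev
    obtain ⟨N, hN⟩ := hev
    refine ⟨N, fun n hn => ?_⟩
    rw [Real.dist_eq]
    have h5 := hN n hn
    have h6 := hN N le_rfl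
    rw [abs_le] at h5 h6
    rw [abs_lt]
    constructor <;> linarith
  obtain ⟨c, hc⟩ := cauchySeq_tendsto_of_complete hcau
  have hc0 : 0 ≤ c := ge_of_tendsto hc (hcz.mono (fun z hz => hz.le))
  -- the estimate with `C * c`
  have hest : ∀ (b : ℕ) (t1 t2 : ℝ), 8 * (b : ℝ) + 21 ≤ t1 → t1 < t2 →
      |g t2 - g t1 - c * (t2 - t1)| ≤ C * Real.exp (-(b : ℝ)) * c * (t2 - t1) := by
    intro b t1 t2 h1 h12
    have hb0 : (0 : ℝ) ≤ b := Nat.cast_nonneg b
    have hd : 0 < t2 - t1 := by linarith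
    have hl := hdiff t1 t2 (by linarith) (by linarith)
    have hA : ∀ η : ℝ, 0 < η →
        (1 - C * Real.exp (-(b : ℝ)) - η) * c * (t2 - t1) - η ≤ g t2 - g t1 := by
      intro η hη
      refine le_of_tendsto_of_tendsto (((hc.const_mul _).mul_const _).sub_const _) hl ?_
      filter_upwards [hF b t1 t2 η h1 h12 hη] with z hz
      exact hz.1
    have hB : ∀ η : ℝ, 0 < η →
        g t2 - g t1 ≤ (1 + C * Real.exp (-(b : ℝ)) + η) * c * (t2 - t1) + η := by
      intro η hη
      refine le_of_tendsto_of_tendsto hl (((hc.const_mul _).mul_const _).add_const _) ?_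
      filter_upwards [hF b t1 t2 η h1 h12 hη] with z hz
      exact hz.2
    have hY : 0 < c * (t2 - t1) + 1 := by positivity
    have hA' : (1 - C * Real.exp (-(b : ℝ))) * c * (t2 - t1) ≤ g t2 - g t1 := by
      apply le_of_forall _ (c * (t2 - t1) + 1) _ hY
      intro η hη
      have := hA η hη
      have e : (1 - C * Real.exp (-(b : ℝ)) - η) * c * (t2 - t1) - η =
        (1 - C * Real.exp (-(b : ℝ))) * c * (t2 - t1) - η * (c * (t2 - t1) + 1) := by ring
      rw [e] at this
      linarith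
    have hB' : g t2 - g t1 ≤ (1 + C * Real.exp (-(b : ℝ))) * c * (t2 - t1) := by
      apply le_of_forall _ (c * (t2 - t1) + 1) _ hY
      intro η hη
      have := hB η hη
      have e : (1 + C * Real.exp (-(b : ℝ)) + η) * c * (t2 - t1) + η =
        (1 + C * Real.exp (-(b : ℝ))) * c * (t2 - t1) + η * (c * (t2 - t1) + 1) := by ring
      rw [e] at this
      exact this
    have e1 : (1 - C * Real.exp (-(b : ℝ))) * c * (t2 - t1) =
      c * (t2 - t1) - C * Real.exp (-(b : ℝ)) * c * (t2 - t1) := by ring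
    have e2 : (1 + C * Real.exp (-(b : ℝ))) * c * (t2 - t1) =
      c * (t2 - t1) + C * Real.exp (-(b : ℝ)) * c * (t2 - t1) := by ring
    rw [e1] at hA'
    rw [e2] at hB'
    rw [abs_le]
    constructor <;> linarith
  have hcpos := c_pos g hg c C hc0 hest
  refine ⟨c, hcpos, hc, C * c, mul_pos hC hcpos, ?_⟩
  intro b t1 t2 h1 h12
  refine (hest b t1 t2 h1 h12).trans (le_of_eq ?_)
  ring

end Pool.Agent.Lib.MP_926cc3_nt.TH
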