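import Pool.Agent.Lib.MP_926cc3_nt.TH.Spec

set_option autoImplicit false

namespace Pool.Agent.Lib.MP_926cc3_nt.TH

theorem specMOD : SpecMOD := by
  intro z H hz hH
  obtain ⟨e, he1, he2⟩ : ∃ e : ℕ, H ≤ 2 ^ e ∧ 2 ^ e ≤ 2 * H := by
    refine ⟨Nat.log 2 H + 1, (Nat.lt_pow_succ_log_self (by norm_num) H).le, ?_⟩
    rw [pow_succ, mul_comm]
    exact Nat.mul_le_mul_left 2 (Nat.pow_log_le_self 2 (by omega))
  refine ⟨primorial (z - 1) * 2 ^ e, ?_, ?_, ?_⟩
  · intro p hp
    rw [hp.dvd_mul]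
    constructor
    · rintro (h | h)
      · rw [primorial, hp.prime.dvd_finset_prod_iff] at h
        obtain ⟨q, hq, hpq⟩ := h
        rw [Finset.mem_filter, Finset.mem_range] at hq
        have := (Nat.prime_dvd_prime_iff_eq hp hq.2).1 hpq
        omega
      · have h2 := hp.dvd_of_dvd_pow h
        have := (Nat.prime_dvd_prime_iff_eq hp Nat.prime_two).1 h2
        omega
    · intro h
      left
      rw [primorial]
      exact Finset.dvd_prod_of_mem (fun q => q) (by
        rw [Finset.mem_filter, Finset.mem_range]; exact ⟨by omega, hp⟩)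
  · have h1 : 0 < primorial (z - 1) := primorial_pos _
    calc H ≤ 2 ^ e := he1
      _ ≤ primorial (z - 1) * 2 ^ e := Nat.le_mul_of_pos_left _ h1
  · have h1 : primorial (z - 1) ≤ 4 ^ z :=
      (primorial_le_four_pow (z - 1)).trans (Nat.pow_le_pow_right (by norm_num) (by omega))
    exact Nat.mul_le_mul h1 he2

end Pool.Agent.Lib.MP_926cc3_nt.TH
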