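import Pool.Agent.Lib.MP_926cc3_nt.TH.Spec

/-! Module OSC: `g` is not eventually at least as steep as its asymptotic slope. -/

set_option autoImplicit false

open Filter Topology MeasureTheory

namespace Pool.Agent.Lib.MP_926cc3_nt.TH

namespace OSCM

theorem le_deriv {g : ℝ → ℝ} {g' t c : ℝ} (h : HasDerivAt g g' t)
    (hc : ∀ t2, t < t2 → c * (t2 - t) ≤ g t2 - g t) : c ≤ g' := by
  have h1 : Tendsto (slope g t) (𝓝[>] t) (𝓝 g') :=
    (hasDerivAt_iff_tendsto_slope.1 h).mono_left
      (nhdsWithin_mono t (fun y (hy : t < y) => (ne_of_gt hy : y ≠ t)))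
  refine ge_of_tendsto h1 ?_
  filter_upwards [self_mem_nhdsWithin] with y hy
  have hy' : t < y := hy
  rw [slope_def_field, le_div_iff₀ (by linarith)]
  exact hc y hy'

theorem deriv_le {g : ℝ → ℝ} {g' t c : ℝ} (h : HasDerivAt g g' t)
    (hc : ∀ t2, t < t2 → g t2 - g t ≤ c * (t2 - t)) : g' ≤ c := by
  have h1 : Tendsto (slope g t) (𝓝[>] t) (𝓝 g') :=
    (hasDerivAt_iff_tendsto_slope.1 h).mono_left
      (nhdsWithin_mono t (fun y (hy : t < y) => (ne_of_gt hy : y ≠ t)))
  refine le_of_tendsto h1 ?_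
  filter_upwards [self_mem_nhdsWithin] with y hy
  have hy' : t < y := hy
  rw [slope_def_field, div_le_iff₀ (by linarith)]
  exact hc y hy'

theorem small (C : ℝ) : Tendsto (fun b : ℕ => C * Real.exp (-(b : ℝ)) * (8 * (b : ℝ) + 21))
    atTop (𝓝 0) := by
  have h1 : Tendsto (fun x : ℝ => x ^ 1 * Real.exp (-x)) atTop (𝓝 0) :=
    Real.tendsto_pow_mul_exp_neg_atTop_nhds_zero 1
  have h2 : Tendsto (fun x : ℝ => x ^ 0 * Real.exp (-x)) atTop (𝓝 0) :=
    Real.tendsto_pow_mul_exp_neg_atTop_nhds_zero 0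
  have h3 : Tendsto (fun x : ℝ => 8 * C * (x ^ 1 * Real.exp (-x)) +
      21 * C * (x ^ 0 * Real.exp (-x))) atTop (𝓝 (8 * C * 0 + 21 * C * 0)) :=
    (h1.const_mul _).add (h2.const_mul _)
  rw [mul_zero, mul_zero, add_zero] at h3
  refine (h3.comp (tendsto_natCast_atTop_atTop (R := ℝ))).congr fun b => ?_
  simp only [Function.comp_apply]
  ring

end OSCM

open OSCM in
theorem specOSC : SpecOSC := by
  intro g c C hG hc hC hest U0
  by_contra hcon
  push Not at hcon
  obtain ⟨hcont, hmono, hone, hder⟩ := hG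
  set U : ℝ := max U0 2 with hU
  have hU2 : 2 ≤ U := le_max_right _ _
  have hsteep : ∀ t1 t2, U ≤ t1 → t1 < t2 → c * (t2 - t1) ≤ g t2 - g t1 :=
    fun t1 t2 h1 h2 => hcon t1 t2 (le_trans (le_max_left _ _) h1) h2
  -- lower bound
  have hA : ∀ t, U ≤ t → c * t ≤ g (t - 1) := by
    intro t ht
    have h1 := le_deriv (hder t (by linarith)) (fun t2 h2 => hsteep t t2 ht h2)
    rwa [le_div_iff₀ (by linarith)] at h1
  -- upper bound
  have hB : ∀ (b : ℕ) (t : ℝ), 8 * (b : ℝ) + 21 ≤ t →
      g (t - 1) ≤ (c + C * Real.exp (-(b : ℝ))) * t := by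
    intro b t ht
    have hb : (0 : ℝ) ≤ b := Nat.cast_nonneg b
    have h1 := deriv_le (c := c + C * Real.exp (-(b : ℝ))) (hder t (by linarith))
      (fun t2 h2 => by
        have := (abs_le.1 (hest b t t2 ht h2)).2
        nlinarith)
    rwa [div_le_iff₀ (by linarith)] at h1
  -- E = 0 on [U, ∞)
  have hE : ∀ s, U ≤ s → g s - c * (s + 1) = 0 := by
    intro s hs
    refine le_antisymm ?_ ?_
    · by_contra hpos
      push Not at hpos
      have h1 := ((small C).eventually (gt_mem_nhds hpos))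
      have h2 : ∀ᶠ b : ℕ in atTop, s ≤ (b : ℝ) :=
        (tendsto_natCast_atTop_atTop (R := ℝ)).eventually_ge_atTop s
      obtain ⟨b, hb1, hb2⟩ := (h1.and h2).exists
      have hb0 : (0 : ℝ) ≤ b := Nat.cast_nonneg b
      have h3 := hB b (8 * (b : ℝ) + 21) le_rfl
      have h4 : s < 8 * (b : ℝ) + 21 - 1 := by linarith
      have h5 := hsteep s (8 * (b : ℝ) + 21 - 1) hs h4
      nlinarith
    · have := hA (s + 1) (by linarith)
      rw [add_sub_cancel_right] at this
      linarith
  -- going down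
  have hdown : ∀ n : ℕ, ∀ t, max (U - n) 0 < t → g t - c * (t + 1) = 0 := by
    intro n
    induction n with
    | zero =>
      intro t ht
      refine hE t ?_
      have := lt_of_le_of_lt (le_max_left _ _) ht
      simp at this
      exact this.le
    | succ n ih =>
      intro t ht
      have ht0 : 0 < t := lt_of_le_of_lt (le_max_right _ _) ht
      have ht1 : U - (n + 1 : ℕ) < t := lt_of_le_of_lt (le_max_left _ _) ht
      push_cast at ht1
      have h1 := hder (t + 1) (by linarith)
      rw [add_sub_cancel_right] at h1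
      have h2 : HasDerivAt g c (t + 1) := by
        have h3 : HasDerivAt (fun y : ℝ => c * (y + 1)) (c * 1) (t + 1) :=
          ((hasDerivAt_id (t + 1)).add_const 1).const_mul c
        rw [mul_one] at h3
        refine h3.congr_of_eventuallyEq ?_
        have h4 : ∀ᶠ y in 𝓝 (t + 1), max (U - n) 0 < y :=
          lt_mem_nhds (max_lt (by linarith) (by linarith))
        filter_upwards [h4] with y hy
        have := ih y hy
        linarith
      have h5 := h1.unique h2
      rw [div_eq_iff (by linarith)] at h5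
      linarith
  obtain ⟨n, hn⟩ := exists_nat_ge U
  have h6 := hdown n (1 / 2) (max_lt (by linarith) (by norm_num))
  have h7 := hdown n 1 (max_lt (by linarith) (by norm_num))
  rw [hone (1 / 2) (by norm_num)] at h6
  rw [hone 1 le_rfl] at h7
  linarith

end Pool.Agent.Lib.MP_926cc3_nt.TH
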