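import Pool.Agent.Lib.MP_926cc3_nt.TH.Spec

set_option autoImplicit false

namespace Pool.Agent.Lib.MP_926cc3_nt.TH

theorem specPIE : SpecPIE := by
  intro w x H J hm h
  by_contra hcon
  push Not at hcon
  have key : ∀ j : ℕ, j ≤ J → w x + j ≤ w (x + j * H) := by
    intro j
    induction j with
    | zero => intro _; simp
    | succ j ih =>
      intro hj
      obtain ⟨n, h1, h2, h3⟩ := hcon j (by omega)
      have h4 := ih (by omega)
      have h5 := hm h1
      have h6 := hm h2
      omega
  have := key J le_rfl
  omega

end Pool.Agent.Lib.MP_926cc3_nt.TH
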