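import Pool.Agent.Lib.MP_926cc3_nt.TH.PRB

set_option autoImplicit false
set_option linter.unusedVariables false

open Filter Topology MeasureTheory ProbabilityTheory ArithmeticFunction

namespace Pool.Agent.Lib.MP_926cc3_nt.TH

open Pool.Agent.Lib.MP_926cc3_nt.RS

universe u

open PRBM in
/-- the almost sure runs (the proof is that of `specPRB`, by helper96) -/
theorem PRBBM.runs (hEMP : SpecEMP.{u}) (w : ℕ → ℕ)
    (hd : Tendsto (fun n => cgDens w n) atTop (𝓝 0)) (hSel : Sel w) : ∃ ε : ℝ, 0 < ε ∧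
    ∀ (Ω : Type u) (_ : MeasurableSpace Ω) (μ : Measure Ω),
    IsProbabilityMeasure μ → ∀ (B : ℕ → Set Ω), (∀ n, MeasurableSet (B n)) → iIndepSet B μ →
    (∀ᶠ n in atTop, μ.real (B n) = cgDens w n) → ∀ᵐ ω ∂μ,
    ∃ᶠ x : ℕ in atTop, ∃ a : ℕ, x ≤ a ∧ a ≤ 2 * x ∧
      ∀ n, a ≤ n → n < a + ⌊(1 + ε) * Real.log x ^ 2⌋₊ → n ∉ evSet B ω := by
  classical
  obtain ⟨ε, β, β', hε, hβ, hββ, hfr⟩ := hSel
  refine ⟨ε, hε, ?_⟩
  intro Ω m0 μ hμ B hB hI hdB
  have := hμ
  set H : ℕ → ℕ := fun x => ⌊(1 + ε) * Real.log x ^ 2⌋₊ with hH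
  -- the exponent
  set t : ℝ := (1 + β' / β) / 2 with ht
  have hb1 : 1 < β' / β := by rw [lt_div_iff₀ hβ]; linarith
  have ht1 : 1 < t := by rw [ht]; linarith
  have ht0 : 0 < t := by linarith
  have htβ : t * β = (β + β') / 2 := by
    rw [ht]; field_simp
  obtain ⟨κ, hκ0, hκ⟩ := exists_kappa ht1
  set c : ℝ := β' - t * β with hc
  have hc0 : 0 < c := by rw [hc, htβ]; linarith
  -- the data
  set P : ℕ → Finset ℕ → Prop := fun x I =>
    (∀ s ∈ I, x ≤ s ∧ s + H x ≤ 2 * x) ∧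
    (∀ s ∈ I, ∀ s' ∈ I, s ≠ s' → Disjoint (Finset.Ico s (s + H x))
      (Finset.Ico s' (s' + H x))) ∧
    (x : ℝ) ^ β' ≤ I.card ∧
    ∀ s ∈ I, ∑ n ∈ Finset.Ico s (s + H x), cgDens w n ≤ β * Real.log x with hP
  have hfr' : ∃ᶠ x : ℕ in atTop, ∃ I : Finset ℕ, P x I := hfr
  set I : ℕ → Finset ℕ := fun x => if h : ∃ I : Finset ℕ, P x I then h.choose else ∅ with hIdef
  have hIP : ∀ x, (∃ I : Finset ℕ, P x I) → P x (I x) := by
    intro x hx
    rw [hIdef]
    dsimp only
    rw [dif_pos hx]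
    exact hx.choose_spec
  set F : ℕ → Set Ω := fun x => if (∃ I : Finset ℕ, P x I) then
    {ω | ∀ s ∈ I x, ∃ n ∈ Finset.Ico s (s + H x), ω ∈ B n} else ∅ with hF
  -- the densities
  have hd2 : ∀ᶠ n : ℕ in atTop, cgDens w n ≤ κ :=
    (hd.eventually (gt_mem_nhds hκ0)).mono (fun a ha => le_of_lt ha)
  obtain ⟨N0, hN0⟩ := eventually_atTop.1 (hd2.and hdB)
  have hFm : ∀ᶠ x : ℕ in atTop, μ (F x) ≤ ENNReal.ofReal ((x : ℝ) ^ (-(2 : ℝ))) := by
    filter_upwards [asym hc0, eventually_ge_atTop 1, eventually_ge_atTop N0] with x hx hx1 hxN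
    have hx1' : (1 : ℝ) ≤ x := by exact_mod_cast hx1
    have hpos : (0 : ℝ) < x := by linarith
    by_cases hex : ∃ I : Finset ℕ, P x I
    · have hFx : F x = {ω | ∀ s ∈ I x, ∃ n ∈ Finset.Ico s (s + H x), ω ∈ B n} := by
        rw [hF]; dsimp only; rw [if_pos hex]
      obtain ⟨p1, p2, p3, p4⟩ := hIP x hex
      set q : ℝ := (x : ℝ) ^ (-(t * β)) with hq
      have hq0 : 0 ≤ q := Real.rpow_nonneg hpos.le _
      have hq1 : q ≤ 1 := Real.rpow_le_one_of_one_le_of_nonpos hx1' (by nlinarith)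
      have hlog : 0 ≤ Real.log (x : ℝ) := Real.log_nonneg hx1'
      have h1 := hEMP Ω m0 μ hμ B hB hI (I x) (fun s => Finset.Ico s (s + H x)) q p2 hq0 (by
        intro s hs
        have hterm : ∀ n ∈ Finset.Ico s (s + H x),
            Real.exp (-(t * cgDens w n)) ≤ 1 - μ.real (B n) := by
          intro n hn
          rw [Finset.mem_Ico] at hn
          have h2 := hN0 n (hxN.trans ((p1 s hs).1.trans hn.1))
          have h3 : 0 ≤ cgDens w n := by rw [← h2.2]; exact measureReal_nonneg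
          have h4 := hκ _ h3 h2.1
          rw [h2.2, Real.exp_neg, inv_le_iff_one_le_mul₀ (Real.exp_pos _)]
          linarith
        calc q = Real.exp (-(t * (β * Real.log x))) := by
              rw [hq, Real.rpow_def_of_pos hpos]; congr 1; ring
          _ ≤ Real.exp (-(t * ∑ n ∈ Finset.Ico s (s + H x), cgDens w n)) := by
              apply Real.exp_le_exp.2
              have := mul_le_mul_of_nonneg_left (p4 s hs) ht0.le
              linarith
          _ = ∏ n ∈ Finset.Ico s (s + H x), Real.exp (-(t * cgDens w n)) := by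
              rw [← Real.exp_sum, Finset.sum_neg_distrib, Finset.mul_sum]
          _ ≤ ∏ n ∈ Finset.Ico s (s + H x), (1 - μ.real (B n)) :=
              Finset.prod_le_prod (fun _ _ => (Real.exp_pos _).le) hterm)
      have h2 : (1 - q) ^ (I x).card ≤ Real.exp (-(x : ℝ) ^ c) := by
        calc (1 - q) ^ (I x).card ≤ (Real.exp (-q)) ^ (I x).card := by
              apply pow_le_pow_left₀ (by linarith)
              have := Real.add_one_le_exp (-q)
              linarith
          _ = Real.exp (-(q * (I x).card)) := by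
              rw [← Real.exp_nat_mul]; congr 1; ring
          _ ≤ Real.exp (-(x : ℝ) ^ c) := by
              apply Real.exp_le_exp.2
              have h3 : (x : ℝ) ^ c = q * (x : ℝ) ^ β' := by
                rw [hq, hc, ← Real.rpow_add hpos]; congr 1; ring
              rw [h3]
              have := mul_le_mul_of_nonneg_left p3 hq0
              linarith
      rw [hFx, ← ENNReal.ofReal_toReal (measure_ne_top μ _)]
      exact ENNReal.ofReal_le_ofReal (h1.trans (h2.trans hx))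
    · have hFx : F x = ∅ := by rw [hF]; dsimp only; rw [if_neg hex]
      rw [hFx, measure_empty]
      exact bot_le
  have hsum : (∑' x : ℕ, μ (F x)) ≠ ⊤ := by
    obtain ⟨b, hb⟩ := eventually_atTop.1 hFm
    have h1 : Summable (fun x : ℕ => (x : ℝ) ^ (-(2 : ℝ))) :=
      Real.summable_nat_rpow.2 (by norm_num)
    rw [← ENNReal.summable.sum_add_tsum_nat_add' (f := fun x => μ (F x)) (k := b)]
    apply ENNReal.add_ne_top.2
    constructor
    · exact (ENNReal.sum_lt_top.2 (fun i _ => measure_lt_top μ _)).ne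
    · have h3 : Summable (fun x : ℕ => ((x + b : ℕ) : ℝ) ^ (-(2 : ℝ))) :=
        (summable_nat_add_iff b).2 h1
      refine ne_top_of_le_ne_top h3.tsum_ofReal_ne_top (ENNReal.tsum_le_tsum (fun x => ?_))
      exact hb (x + b) (by omega)
  filter_upwards [ae_eventually_notMem hsum] with ω h1
  refine (hfr'.and_eventually h1).mono ?_
  rintro x ⟨hex, hxF⟩
  have hFx : F x = {ω | ∀ s ∈ I x, ∃ n ∈ Finset.Ico s (s + H x), ω ∈ B n} := by
    rw [hF]; dsimp only; rw [if_pos hex]
  obtain ⟨p1, p2, p3, p4⟩ := hIP x hex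
  rw [hFx] at hxF
  simp only [Set.mem_ofPred_eq] at hxF
  push Not at hxF
  obtain ⟨s, hs, hsn⟩ := hxF
  refine ⟨s, (p1 s hs).1, ?_, ?_⟩
  · have := (p1 s hs).2
    omega
  · intro n hn1 hn2
    exact hsn n (Finset.mem_Ico.2 ⟨hn1, hn2⟩)

end Pool.Agent.Lib.MP_926cc3_nt.TH
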