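import Pool.Agent.Lib.MP_926cc3_nt.TH.Spec
import Pool.Agent.Lib.MP_1446ad_nt.SM.MRA
import Pool.Agent.Lib.MP_5b6025_nt.RP.Mertens

/-!
Module ROM: Mertens for the rough numbers.
-/

set_option autoImplicit false

open Filter Topology MeasureTheory ProbabilityTheory ArithmeticFunction

namespace Pool.Agent.Lib.MP_926cc3_nt.TH

open Pool.Agent.Lib.MP_926cc3_nt.RS

namespace ROMM

theorem r_prime {z p : ℕ} (hp : p.Prime) (h : z ≤ p) : r z p = 1 := by
  unfold r Gra.r
  rw [if_pos]
  intro q hq hqp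
  have := (Nat.prime_dvd_prime_iff_eq hq hp).1 hqp
  omega

theorem term_zero {z d : ℕ} (h : d < z) : r z d * Λ d / d = 0 := by
  by_cases hΛ : Λ d = 0
  · rw [hΛ, mul_zero, zero_div]
  · have hpp : IsPrimePow d := by
      by_contra hc
      exact hΛ (vonMangoldt_eq_zero_iff.2 hc)
    obtain ⟨p, k, hp, hk, hpk⟩ := (isPrimePow_nat_iff d).1 hpp
    have hpd : p ∣ d := by
      rw [← hpk]
      exact dvd_pow_self p hk.ne'
    have hd : 0 < d := hpp.pos
    have hple : p ≤ d := Nat.le_of_dvd hd hpd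
    have : r z d = 0 := by
      unfold r Gra.r
      rw [if_neg]
      intro hns
      have := hns p hp hpd
      omega
    rw [this, zero_mul, zero_div]

end ROMM

open ROMM in
theorem specROM : SpecROM := by
  obtain ⟨C1, hC1, h1⟩ := Pool.Agent.Lib.MP_1446ad_nt.SM.specMRA
  obtain ⟨C2, hC2, h2⟩ := Pool.Agent.Lib.MP5b6025.RP.MertensM.nonprime_bd
  refine ⟨2 * C1 + C2 + Real.log 2, by have := Real.log_nonneg (x := 2) (by norm_num); positivity,
    fun z Y hz => ⟨fun hY => ?_, fun hY => ?_⟩⟩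
  · refine Finset.sum_eq_zero fun d hd => ?_
    rw [Finset.mem_Ioc] at hd
    exact term_zero (by omega)
  · have hz1 : 1 ≤ z - 1 := by omega
    have hzY : z - 1 ≤ Y := by omega
    set t : ℕ → ℝ := fun d => r z d * Λ d / d with ht
    set f : ℕ → ℝ := fun d => if d.Prime then Real.log d / d else 0 with hf
    set g : ℕ → ℝ := fun d => if d.Prime then 0 else r z d * Λ d / d with hg
    have hs1 : ∑ d ∈ Finset.Ioc 0 Y, t d = ∑ d ∈ Finset.Ioc (z - 1) Y, t d := by
      rw [← Finset.sum_Ioc_consecutive t (Nat.zero_le _) hzY]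
      have : ∑ d ∈ Finset.Ioc 0 (z - 1), t d = 0 := by
        refine Finset.sum_eq_zero fun d hd => ?_
        rw [Finset.mem_Ioc] at hd
        exact term_zero (by omega)
      rw [this, zero_add]
    have hs2 : ∑ d ∈ Finset.Ioc (z - 1) Y, t d =
        ∑ d ∈ Finset.Ioc (z - 1) Y, f d + ∑ d ∈ Finset.Ioc (z - 1) Y, g d := by
      rw [← Finset.sum_add_distrib]
      refine Finset.sum_congr rfl fun d hd => ?_
      rw [Finset.mem_Ioc] at hd
      simp only [ht, hf, hg]
      split_ifs with hp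
      · rw [r_prime hp (by omega), vonMangoldt_apply_prime hp, one_mul, add_zero]
      · rw [zero_add]
    have hs3 : ∑ d ∈ Finset.Ioc 0 (z - 1), f d + ∑ d ∈ Finset.Ioc (z - 1) Y, f d =
        ∑ d ∈ Finset.Ioc 0 Y, f d := Finset.sum_Ioc_consecutive f (Nat.zero_le _) hzY
    have hff : ∀ N : ℕ, ∑ d ∈ Finset.Ioc 0 N, f d =
        ∑ p ∈ (Finset.Ioc 0 N).filter Nat.Prime, Real.log p / (p : ℝ) := by
      intro N
      rw [Finset.sum_filter]
    have hgn : ∀ d : ℕ, 0 ≤ g d := by
      intro d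
      simp only [hg]
      split_ifs
      · exact le_rfl
      · exact div_nonneg (mul_nonneg (Gra.r_nonneg z d) vonMangoldt_nonneg) (Nat.cast_nonneg d)
    have hs4 : 0 ≤ ∑ d ∈ Finset.Ioc (z - 1) Y, g d := Finset.sum_nonneg fun d _ => hgn d
    have hs5 : ∑ d ∈ Finset.Ioc (z - 1) Y, g d ≤ C2 := by
      calc ∑ d ∈ Finset.Ioc (z - 1) Y, g d ≤ ∑ d ∈ Finset.Ioc 0 Y, g d := by
            refine Finset.sum_le_sum_of_subset_of_nonneg ?_ fun d _ _ => hgn d
            intro d hd
            rw [Finset.mem_Ioc] at hd ⊢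
            omega
        _ ≤ ∑ d ∈ Finset.Ioc 0 Y, (if ¬ d.Prime then Λ d / (d : ℝ) else 0) := by
            refine Finset.sum_le_sum fun d _ => ?_
            simp only [hg]
            split_ifs with hp
            · exact le_rfl
            · refine div_le_div_of_nonneg_right ?_ (Nat.cast_nonneg d)
              calc r z d * Λ d ≤ 1 * Λ d :=
                    mul_le_mul_of_nonneg_right (Gra.r_le_one z d) vonMangoldt_nonneg
                _ = Λ d := one_mul _
        _ = ∑ d ∈ (Finset.Ioc 0 Y).filter (fun d => ¬ d.Prime), Λ d / (d : ℝ) := by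
            rw [Finset.sum_filter]
        _ ≤ C2 := h2 Y
    have ha := abs_le.1 (h1 Y (by omega))
    have hb := abs_le.1 (h1 (z - 1) hz1)
    have hzr : (2 : ℝ) ≤ z := by exact_mod_cast hz
    have hYr : (0 : ℝ) < Y := by
      have : 0 < Y := by omega
      exact_mod_cast this
    have hcast : ((z - 1 : ℕ) : ℝ) = (z : ℝ) - 1 := by
      rw [Nat.cast_sub (by omega), Nat.cast_one]
    have hl1 : Real.log ((z : ℝ) - 1) ≤ Real.log z := Real.log_le_log (by linarith) (by linarith)
    have hl2 : Real.log z ≤ Real.log ((z : ℝ) - 1) + Real.log 2 := by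
      rw [← Real.log_mul (by linarith) (by norm_num)]
      exact Real.log_le_log (by linarith) (by linarith)
    have hl3 : Real.log ((Y : ℝ) / z) = Real.log Y - Real.log z :=
      Real.log_div hYr.ne' (by linarith)
    rw [hcast] at hb
    have hlog2 := Real.log_nonneg (x := 2) (by norm_num)
    show |∑ d ∈ Finset.Ioc 0 Y, t d - Real.log ((Y : ℝ) / z)| ≤ _
    rw [hs1, hs2, hl3]
    rw [hff, hff] at hs3
    rw [abs_le]
    constructor <;> linarith [ha.1, ha.2, hb.1, hb.2]

end Pool.Agent.Lib.MP_926cc3_nt.TH
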