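import Pool.Agent.Lib.MP_926cc3_nt.TH.Spec

set_option autoImplicit false

open Filter Topology MeasureTheory ProbabilityTheory ArithmeticFunction

namespace Pool.Agent.Lib.MP_926cc3_nt.TH

open Pool.Agent.Lib.MP_926cc3_nt.RS

namespace SVKM

theorem noSmall_of {z n : ℕ} (h : r z n = 1) : NoSmall z n := by
  by_contra h'
  have : r z n = 0 := by
    show Gra.r z n = 0
    unfold Gra.r
    rw [if_neg h']
  rw [this] at h
  norm_num at h

/-- counting in an arithmetic progression -/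
theorem count_ap (K0 K δ v : ℕ) (hδ : 0 < δ) :
    |(((Finset.Ioc K0 (K0 + K)).filter (fun k => k ≡ v [MOD δ])).card : ℝ) - (K : ℝ) / δ| ≤ 1 := by
  have h := Nat.Ioc_filter_modEq_card K0 (K0 + K) hδ v
  have hδ' : (0 : ℚ) < δ := by exact_mod_cast hδ
  set A : ℚ := (((K0 : ℕ) : ℚ) - v) / δ with hA
  set B : ℚ := (((K0 + K : ℕ) : ℚ) - v) / δ with hB
  have hAB : B = A + K / δ := by
    rw [hA, hB]; push_cast; field_simp; ring
  have hle : A ≤ B := by
    rw [hAB]
    have : (0 : ℚ) ≤ K / δ := by positivity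
    linarith
  have hfl : ⌊A⌋ ≤ ⌊B⌋ := Int.floor_le_floor hle
  rw [max_eq_left (by omega)] at h
  have h1 := Int.floor_le A
  have h2 := Int.lt_floor_add_one A
  have h3 := Int.floor_le B
  have h4 := Int.lt_floor_add_one B
  set N := ((Finset.Ioc K0 (K0 + K)).filter (fun k => k ≡ v [MOD δ])).card with hN
  have h5 : ((N : ℤ) : ℚ) = (⌊B⌋ : ℚ) - ⌊A⌋ := by
    rw [h]; push_cast; ring
  have h6 : |((N : ℤ) : ℚ) - (K : ℚ) / δ| ≤ 1 := by
    rw [h5, abs_le]
    constructor <;> linarith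
  have h7 : ((|((N : ℤ) : ℚ) - (K : ℚ) / δ| : ℚ) : ℝ) ≤ 1 := by exact_mod_cast h6
  push_cast at h7
  exact h7

end SVKM

open SVKM in
theorem specSVK : SpecSVK := by
  classical
  obtain ⟨C, hC, h⟩ := Pool.Agent.Lib.MP391708.QPA.specFL
  refine ⟨C, hC, ?_⟩
  intro b z w M n0 K0 K hz hzw hM hn0
  have hNS := noSmall_of hn0
  have hw : 2 ≤ w := hz.trans hzw
  have hw2 : (2 : ℝ) ≤ w := by exact_mod_cast hw
  set g : ℕ → ℝ := fun p => if p < z then 0 else 1 / (p : ℝ) with hg
  have hPB : Pool.Agent.Lib.MP391708.QPA.PB (w : ℝ) = (Finset.range w).filter Nat.Prime := by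
    ext p
    simp [Pool.Agent.Lib.MP391708.QPA.PB, Nat.ceil_natCast]
  have h1 := h b w hw2 (Finset.Ioc K0 (K0 + K)) (fun k => k * M + n0) (fun _ => 1) (K : ℝ)
    g (Nat.cast_nonneg _) (fun _ _ => zero_le_one) (by
      intro p hp
      have h2 : (2 : ℝ) ≤ p := by exact_mod_cast hp.two_le
      have h3 : 1 / (p : ℝ) ≤ 1 / 2 := one_div_le_one_div_of_le (by norm_num) h2
      have h4 : (0 : ℝ) ≤ 1 / p := by positivity
      have h5 : 1 / (p : ℝ) ≤ 2 / p := div_le_div_of_nonneg_right (by norm_num) (by linarith)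
      rw [hg]
      dsimp only
      split_ifs
      · exact ⟨le_rfl, h4.trans h5, by norm_num⟩
      · exact ⟨h4, h5, by linarith⟩)
  have e1 : ∑ i ∈ Finset.Ioc K0 (K0 + K), (1 : ℝ) *
      Pool.Agent.Lib.MP391708.QPA.rInd (w : ℝ) (i * M + n0) =
      ∑ k ∈ Finset.Ioc K0 (K0 + K), r w (k * M + n0) := by
    apply Finset.sum_congr rfl
    intro n hn
    rw [one_mul, r, Gra.r, Pool.Agent.Lib.MP391708.QPA.rInd]
    have : Pool.Agent.Lib.MP391708.QPA.Rough (w : ℝ) (n * M + n0) ↔ NoSmall w (n * M + n0) := by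
      unfold Pool.Agent.Lib.MP391708.QPA.Rough NoSmall
      simp only [Nat.cast_le]
    by_cases h : NoSmall w (n * M + n0)
    · rw [if_pos h, if_pos (this.2 h)]
    · rw [if_neg h, if_neg (fun h' => h (this.1 h'))]
  have hVz := Gra.V_pos z hz
  have e2 : ∏ p ∈ (Finset.range w).filter Nat.Prime, (1 - g p) = V w / V z := by
    rw [eq_div_iff hVz.ne']
    have e3 : V z = ∏ p ∈ (Finset.range w).filter Nat.Prime,
        (if p < z then (1 - 1 / (p : ℝ)) else 1) := by
      rw [Finset.prod_ite, Finset.prod_const_one, mul_one, V]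
      apply Finset.prod_congr _ (fun _ _ => rfl)
      ext p
      simp only [Finset.mem_filter, Finset.mem_range]
      constructor
      · rintro ⟨a1, a2⟩
        exact ⟨⟨by omega, a2⟩, a1⟩
      · rintro ⟨⟨a1, a2⟩, a3⟩
        exact ⟨a3, a2⟩
    rw [e3, ← Finset.prod_mul_distrib, V]
    apply Finset.prod_congr rfl
    intro p _
    rw [hg]
    dsimp only
    split_ifs <;> ring
  rw [e1, hPB, e2] at h1
  have h1' := (abs_le.1 h1).2
  set D := (Finset.Icc 1 ⌊(w : ℝ) ^ (8 * b + 16)⌋₊).filter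
      (fun δ => Squarefree δ ∧ ∀ p : ℕ, p.Prime → p ∣ δ → (p : ℝ) < w) with hD
  have h2 : ∑ δ ∈ D, |∑ i ∈ (Finset.Ioc K0 (K0 + K)).filter (fun i => δ ∣ i * M + n0), (1 : ℝ) -
      (K : ℝ) * ∏ p ∈ δ.primeFactors, g p| ≤ ∑ δ ∈ D, (1 : ℝ) := by
    apply Finset.sum_le_sum
    intro δ hδ
    rw [hD, Finset.mem_filter, Finset.mem_Icc] at hδ
    rw [Finset.sum_const, nsmul_eq_mul, mul_one]
    have hδ0 : 0 < δ := hδ.1.1
    by_cases hex : ∃ p : ℕ, p.Prime ∧ p ∣ δ ∧ p < z
    · obtain ⟨p, hp, hpδ, hpz⟩ := hex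
      have hpM : p ∣ M := (hM p hp).2 hpz
      have hpn : ¬ p ∣ n0 := fun h => absurd (hNS p hp h) (by omega)
      have e3 : (Finset.Ioc K0 (K0 + K)).filter (fun i => δ ∣ i * M + n0) = ∅ := by
        rw [Finset.filter_eq_empty_iff]
        intro k _ hk
        apply hpn
        have := hpδ.trans hk
        exact (Nat.dvd_add_right (Dvd.dvd.mul_left hpM k)).1 this
      have e4 : ∏ p ∈ δ.primeFactors, g p = 0 := by
        apply Finset.prod_eq_zero (i := p)
        · rw [Nat.mem_primeFactors]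
          exact ⟨hp, hpδ, hδ0.ne'⟩
        · rw [hg]
          dsimp only
          rw [if_pos hpz]
      rw [e3, e4]
      simp
    · push Not at hex
      have e2 : ∏ p ∈ δ.primeFactors, g p = 1 / (δ : ℝ) := by
        have : ∏ p ∈ δ.primeFactors, g p = ∏ p ∈ δ.primeFactors, 1 / (p : ℝ) := by
          apply Finset.prod_congr rfl
          intro p hp
          rw [Nat.mem_primeFactors] at hp
          rw [hg]
          dsimp only
          rw [if_neg (by have := hex p hp.1 hp.2.1; omega)]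
        rw [this, Finset.prod_div_distrib, Finset.prod_const_one]
        congr 1
        have := Nat.prod_primeFactors_of_squarefree hδ.2.1
        rw [← Nat.cast_prod, this]
      have hcop : Nat.Coprime δ M := by
        apply Nat.coprime_of_dvd
        intro p hp hpδ hpM
        have h3 := hex p hp hpδ
        have h4 := (hM p hp).1 hpM
        omega
      -- the residue class
      obtain ⟨v, hv⟩ : ∃ v : ℕ, ∀ k : ℕ, δ ∣ k * M + n0 ↔ k ≡ v [MOD δ] := by
        have hu : IsUnit (M : ZMod δ) := (ZMod.isUnit_iff_coprime M δ).2 hcop.symm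
        have : NeZero δ := ⟨hδ0.ne'⟩
        refine ⟨(-(n0 : ZMod δ) * ((M : ZMod δ))⁻¹).val, ?_⟩
        intro k
        rw [← ZMod.natCast_eq_natCast_iff, ZMod.natCast_zmod_val, ← ZMod.natCast_eq_zero_iff]
        push_cast
        have hMM : (M : ZMod δ) * (M : ZMod δ)⁻¹ = 1 := ZMod.mul_inv_of_unit _ hu
        constructor
        · intro h
          have : (k : ZMod δ) * M = -(n0 : ZMod δ) := eq_neg_of_add_eq_zero_left h
          rw [← this, mul_assoc, hMM, mul_one]
        · intro h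
          rw [h, mul_assoc, mul_comm ((M : ZMod δ)⁻¹), hMM, mul_one]
          ring
      have e3 : (Finset.Ioc K0 (K0 + K)).filter (fun i => δ ∣ i * M + n0)
          = (Finset.Ioc K0 (K0 + K)).filter (fun k => k ≡ v [MOD δ]) := by
        apply Finset.filter_congr
        intro k _
        exact hv k
      rw [e2, e3, mul_one_div]
      exact count_ap K0 K δ v hδ0
  have h3 : ∑ δ ∈ D, (1 : ℝ) ≤ (w : ℝ) ^ (8 * b + 16) := by
    rw [Finset.sum_const, nsmul_eq_mul, mul_one]
    calc (D.card : ℝ) ≤ ((Finset.Icc 1 ⌊(w : ℝ) ^ (8 * b + 16)⌋₊).card : ℝ) :=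
          Nat.cast_le.2 (Finset.card_filter_le _ _)
      _ = (⌊(w : ℝ) ^ (8 * b + 16)⌋₊ : ℝ) := by simp
      _ ≤ _ := Nat.floor_le (by positivity)
  have h4 : 1 + Real.log (w : ℝ) ≤ w := by
    have := Real.log_le_sub_one_of_pos (show (0 : ℝ) < w by linarith)
    linarith
  have h5 : 0 ≤ Real.log (w : ℝ) := Real.log_nonneg (by linarith)
  have h6 : C * (1 + Real.log (w : ℝ)) * ∑ δ ∈ D,
      |∑ i ∈ (Finset.Ioc K0 (K0 + K)).filter (fun i => δ ∣ i * M + n0), (1 : ℝ) -
      (K : ℝ) * ∏ p ∈ δ.primeFactors, g p| ≤ C * (w : ℝ) ^ (8 * b + 17) := by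
    rw [mul_assoc]
    apply mul_le_mul_of_nonneg_left _ hC.le
    calc (1 + Real.log (w : ℝ)) * ∑ δ ∈ D,
        |∑ i ∈ (Finset.Ioc K0 (K0 + K)).filter (fun i => δ ∣ i * M + n0), (1 : ℝ) -
        (K : ℝ) * ∏ p ∈ δ.primeFactors, g p| ≤ w * (w : ℝ) ^ (8 * b + 16) := by
          apply mul_le_mul h4 (h2.trans h3) _ (by linarith)
          exact Finset.sum_nonneg (fun _ _ => abs_nonneg _)
      _ = (w : ℝ) ^ (8 * b + 17) := by ring
  have h7 : (1 + C * Real.exp (-(b : ℝ))) * K * (V w / V z)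
      = K * (V w / V z) + C * Real.exp (-(b : ℝ)) * K * (V w / V z) := by ring
  rw [h7]
  linarith

end Pool.Agent.Lib.MP_926cc3_nt.TH
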