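import Pool.Agent.Lib.MP_926cc3_nt.TH.Spec

/-!
# MP_926cc3_nt TH: WLG, windows to logarithmic sums
-/

set_option autoImplicit false

open Filter Topology

namespace Pool.Agent.Lib.MP_926cc3_nt.TH

namespace WLGM

theorem log_step_le (y h : ℝ) (hy : 0 < y) (hh : 0 ≤ h) :
    Real.log (y + h) - Real.log y ≤ h / y := by
  rw [← Real.log_div (by linarith) hy.ne']
  have h1 : (y + h) / y = 1 + h / y := by field_simp
  have h2 := Real.log_le_sub_one_of_pos (show 0 < (y + h) / y by positivity)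
  rw [h1] at h2 ⊢
  linarith

theorem le_log_step (y h : ℝ) (hh : 0 ≤ h) (hy : h < y) :
    h / y ≤ Real.log y - Real.log (y - h) := by
  have h0 : 0 < y - h := by linarith
  have hy0 : 0 < y := by linarith
  have h2 := Real.log_le_sub_one_of_pos (show 0 < (y - h) / y by positivity)
  rw [Real.log_div h0.ne' hy0.ne'] at h2
  have h1 : (y - h) / y = 1 - h / y := by field_simp
  rw [h1] at h2
  linarith

theorem lower (ρ : ℕ → ℝ) (H x1 x2 : ℕ) (lam : ℝ) (hρ : ∀ n, 0 ≤ ρ n) (hlam : 0 ≤ lam)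
    (hH : 1 ≤ H) (hx : H < x1)
    (h : ∀ a, x1 ≤ a → a ≤ x2 → lam * H ≤ ∑ n ∈ Finset.Ioc a (a + H), ρ n) (J : ℕ)
    (hJ : x1 + J * H ≤ x2) :
    lam * (Real.log ((x1 : ℝ) + (J + 1) * H) - Real.log ((x1 : ℝ) + H)) ≤
      ∑ n ∈ Finset.Ioc x1 (x1 + J * H), ρ n / n := by
  induction J with
  | zero => simp
  | succ J ih =>
    have hJ' : x1 + J * H ≤ x2 := by
      have : J * H ≤ (J + 1) * H := Nat.mul_le_mul_right _ (by omega)
      omega
    have ih' := ih hJ'
    have e0 : x1 + (J + 1) * H = x1 + J * H + H := by ring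
    have e1 : ∑ n ∈ Finset.Ioc x1 (x1 + (J + 1) * H), ρ n / n =
        ∑ n ∈ Finset.Ioc x1 (x1 + J * H), ρ n / n +
        ∑ n ∈ Finset.Ioc (x1 + J * H) (x1 + J * H + H), ρ n / n := by
      rw [e0, Finset.sum_Ioc_consecutive _ (by omega) (by omega)]
    have hx1 : (0 : ℝ) < x1 := by exact_mod_cast (by omega : 0 < x1)
    have hH0 : (0 : ℝ) < H := by exact_mod_cast hH
    have hy : (0 : ℝ) < (x1 : ℝ) + (J + 1) * H := by positivity
    have h2 : lam * H / ((x1 : ℝ) + (J + 1) * H) ≤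
        ∑ n ∈ Finset.Ioc (x1 + J * H) (x1 + J * H + H), ρ n / n := by
      have h3 := h (x1 + J * H) (by omega) hJ'
      calc lam * H / ((x1 : ℝ) + (J + 1) * H)
          ≤ (∑ n ∈ Finset.Ioc (x1 + J * H) (x1 + J * H + H), ρ n) / ((x1 : ℝ) + (J + 1) * H) :=
            div_le_div_of_nonneg_right h3 hy.le
        _ = ∑ n ∈ Finset.Ioc (x1 + J * H) (x1 + J * H + H), ρ n / ((x1 : ℝ) + (J + 1) * H) := by
            rw [Finset.sum_div]
        _ ≤ _ := by
            apply Finset.sum_le_sum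
            intro n hn
            rw [Finset.mem_Ioc] at hn
            have hn0 : (0 : ℝ) < n := by exact_mod_cast (by omega : 0 < n)
            have hn1 : (n : ℝ) ≤ (x1 : ℝ) + (J + 1) * H := by
              have : n ≤ x1 + (J + 1) * H := by rw [e0]; exact hn.2
              exact_mod_cast this
            exact div_le_div_of_nonneg_left (hρ n) hn0 hn1
    have h4 := log_step_le ((x1 : ℝ) + (J + 1) * H) H hy hH0.le
    have h5 : lam * (Real.log ((x1 : ℝ) + (J + 1) * H + H) - Real.log ((x1 : ℝ) + (J + 1) * H)) ≤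
        lam * H / ((x1 : ℝ) + (J + 1) * H) := by
      rw [mul_div_assoc]
      exact mul_le_mul_of_nonneg_left h4 hlam
    have e2 : (x1 : ℝ) + ((J + 1 : ℕ) + 1) * H = (x1 : ℝ) + (J + 1) * H + H := by
      push_cast; ring
    rw [e1, e2]
    have e3 : lam * (Real.log ((x1 : ℝ) + (J + 1) * H + H) - Real.log ((x1 : ℝ) + H)) =
        lam * (Real.log ((x1 : ℝ) + (J + 1) * H) - Real.log ((x1 : ℝ) + H)) +
        lam * (Real.log ((x1 : ℝ) + (J + 1) * H + H) - Real.log ((x1 : ℝ) + (J + 1) * H)) := by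
      ring
    rw [e3]
    linarith

theorem upper (ρ : ℕ → ℝ) (H x1 x2 : ℕ) (lam : ℝ) (hρ : ∀ n, 0 ≤ ρ n) (hlam : 0 ≤ lam)
    (hH : 1 ≤ H) (hx : H < x1)
    (h : ∀ a, x1 ≤ a → a ≤ x2 → ∑ n ∈ Finset.Ioc a (a + H), ρ n ≤ lam * H) (J : ℕ)
    (hJ : ∀ j < J, x1 + j * H ≤ x2) :
    ∑ n ∈ Finset.Ioc x1 (x1 + J * H), ρ n / n ≤
      lam * (Real.log ((x1 : ℝ) + J * H - H) - Real.log ((x1 : ℝ) - H)) := by
  induction J with
  | zero => simp
  | succ J ih =>
    have ih' := ih (fun j hj => hJ j (by omega))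
    have hJ' := hJ J (by omega)
    have e0 : x1 + (J + 1) * H = x1 + J * H + H := by ring
    have e1 : ∑ n ∈ Finset.Ioc x1 (x1 + (J + 1) * H), ρ n / n =
        ∑ n ∈ Finset.Ioc x1 (x1 + J * H), ρ n / n +
        ∑ n ∈ Finset.Ioc (x1 + J * H) (x1 + J * H + H), ρ n / n := by
      rw [e0, Finset.sum_Ioc_consecutive _ (by omega) (by omega)]
    have hx1 : (0 : ℝ) < x1 := by exact_mod_cast (by omega : 0 < x1)
    have hH0 : (0 : ℝ) < H := by exact_mod_cast hH
    have hxH : (H : ℝ) < x1 := by exact_mod_cast hx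
    have hJ0 : (0 : ℝ) ≤ (J : ℝ) * H := by positivity
    have hy : (0 : ℝ) < (x1 : ℝ) + J * H := by positivity
    have h2 : ∑ n ∈ Finset.Ioc (x1 + J * H) (x1 + J * H + H), ρ n / n ≤
        lam * H / ((x1 : ℝ) + J * H) := by
      have h3 := h (x1 + J * H) (by omega) hJ'
      calc ∑ n ∈ Finset.Ioc (x1 + J * H) (x1 + J * H + H), ρ n / n
          ≤ ∑ n ∈ Finset.Ioc (x1 + J * H) (x1 + J * H + H), ρ n / ((x1 : ℝ) + J * H) := by
            apply Finset.sum_le_sum
            intro n hn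
            rw [Finset.mem_Ioc] at hn
            have hn1 : (x1 : ℝ) + J * H ≤ n := by
              have : x1 + J * H ≤ n := by omega
              exact_mod_cast this
            exact div_le_div_of_nonneg_left (hρ n) hy hn1
        _ = (∑ n ∈ Finset.Ioc (x1 + J * H) (x1 + J * H + H), ρ n) / ((x1 : ℝ) + J * H) := by
            rw [Finset.sum_div]
        _ ≤ _ := div_le_div_of_nonneg_right h3 hy.le
    have h4 := le_log_step ((x1 : ℝ) + J * H) H hH0.le (by linarith)
    have h5 : lam * H / ((x1 : ℝ) + J * H) ≤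
        lam * (Real.log ((x1 : ℝ) + J * H) - Real.log ((x1 : ℝ) + J * H - H)) := by
      rw [mul_div_assoc]
      exact mul_le_mul_of_nonneg_left h4 hlam
    have e2 : (x1 : ℝ) + (J + 1 : ℕ) * H - H = (x1 : ℝ) + J * H := by
      push_cast; ring
    rw [e1, e2]
    have e3 : lam * (Real.log ((x1 : ℝ) + J * H) - Real.log ((x1 : ℝ) - H)) =
        lam * (Real.log ((x1 : ℝ) + J * H - H) - Real.log ((x1 : ℝ) - H)) +
        lam * (Real.log ((x1 : ℝ) + J * H) - Real.log ((x1 : ℝ) + J * H - H)) := by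
      ring
    rw [e3]
    linarith

end WLGM

open WLGM in
theorem specWLG : SpecWLG := by
  intro ρ H x1 x2 lam hρ hlam hH hx hx12
  have hx1 : (0 : ℝ) < x1 := by exact_mod_cast (by omega : 0 < x1)
  have hx2 : (0 : ℝ) < x2 := by exact_mod_cast (by omega : 0 < x2)
  have hH0 : (0 : ℝ) < H := by exact_mod_cast hH
  have hxH : (H : ℝ) < x1 := by exact_mod_cast hx
  constructor
  · intro h
    set J := (x2 - x1) / H with hJ
    have hJ1 : J * H ≤ x2 - x1 := Nat.div_mul_le_self _ _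
    have hJ2 : x2 - x1 < J * H + H := Nat.lt_div_mul_add (by omega)
    have h1 := lower ρ H x1 x2 lam hρ hlam hH hx h J (by omega)
    have h2 : ∑ n ∈ Finset.Ioc x1 (x1 + J * H), ρ n / n ≤ ∑ n ∈ Finset.Ioc x1 x2, ρ n / n := by
      apply Finset.sum_le_sum_of_subset_of_nonneg
      · exact Finset.Ioc_subset_Ioc_right (by omega)
      · intro n _ _
        exact div_nonneg (hρ n) (Nat.cast_nonneg n)
    have h3 : Real.log x2 ≤ Real.log ((x1 : ℝ) + (J + 1) * H) := by
      apply Real.log_le_log hx2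
      have : x2 ≤ x1 + (J + 1) * H := by
        have : (J + 1) * H = J * H + H := by ring
        omega
      exact_mod_cast this
    rw [Real.log_div hx2.ne' (by positivity)]
    calc lam * (Real.log x2 - Real.log ((x1 : ℝ) + H))
        ≤ lam * (Real.log ((x1 : ℝ) + (J + 1) * H) - Real.log ((x1 : ℝ) + H)) := by
          apply mul_le_mul_of_nonneg_left _ hlam
          linarith
      _ ≤ _ := h1.trans h2
  · intro h
    set J := (x2 - x1 + H - 1) / H with hJ
    have hJ1 : J * H ≤ x2 - x1 + H - 1 := Nat.div_mul_le_self _ _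
    have hJ2 : x2 - x1 + H - 1 < J * H + H := Nat.lt_div_mul_add (by omega)
    have h1 := upper ρ H x1 x2 lam hρ hlam hH hx h J (by
      intro j hj
      have h3 : (j + 1) * H ≤ J * H := Nat.mul_le_mul_right _ (by omega)
      have h4 : (j + 1) * H = j * H + H := by ring
      omega)
    have h2 : ∑ n ∈ Finset.Ioc x1 x2, ρ n / n ≤ ∑ n ∈ Finset.Ioc x1 (x1 + J * H), ρ n / n := by
      apply Finset.sum_le_sum_of_subset_of_nonneg
      · exact Finset.Ioc_subset_Ioc_right (by omega)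
      · intro n _ _
        exact div_nonneg (hρ n) (Nat.cast_nonneg n)
    have h3 : Real.log ((x1 : ℝ) + J * H - H) ≤ Real.log x2 := by
      apply Real.log_le_log
      · have : (0 : ℝ) ≤ (J : ℝ) * H := by positivity
        linarith
      · have : x1 + J * H ≤ x2 + H := by omega
        have h4 : (x1 : ℝ) + J * H ≤ x2 + H := by exact_mod_cast this
        linarith
    rw [Real.log_div hx2.ne' (by linarith)]
    calc ∑ n ∈ Finset.Ioc x1 x2, ρ n / n
        ≤ lam * (Real.log ((x1 : ℝ) + J * H - H) - Real.log ((x1 : ℝ) - H)) := h2.trans h1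
      _ ≤ _ := by
          apply mul_le_mul_of_nonneg_left _ hlam
          linarith

end Pool.Agent.Lib.MP_926cc3_nt.TH
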