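import Pool.Agent.Lib.MP_926cc3_nt.TH.MUL
import Pool.Agent.Lib.MP_926cc3_nt.TH.IDN
import Pool.Agent.Lib.MP_926cc3_nt.TH.ROM
import Pool.Agent.Lib.MP_926cc3_nt.TH.GIN
import Pool.Agent.Lib.MP_926cc3_nt.TH.APX
import Pool.Agent.Lib.MP_926cc3_nt.TH.BDG
import Pool.Agent.Lib.MP_926cc3_nt.TH.DDE
import Pool.Agent.Lib.MP_926cc3_nt.TH.DIE
import Pool.Agent.Lib.MP_926cc3_nt.TH.CNV
import Pool.Agent.Lib.MP_926cc3_nt.TH.WLG
import Pool.Agent.Lib.MP_926cc3_nt.TH.FLG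
import Pool.Agent.Lib.MP_926cc3_nt.TH.LIM
import Pool.Agent.Lib.MP_926cc3_nt.TH.OSC
import Pool.Agent.Lib.MP_926cc3_nt.TH.DEF
import Pool.Agent.Lib.MP_926cc3_nt.TH.SVK
import Pool.Agent.Lib.MP_926cc3_nt.TH.AVG
import Pool.Agent.Lib.MP_926cc3_nt.TH.EMP
import Pool.Agent.Lib.MP_926cc3_nt.TH.PIE
import Pool.Agent.Lib.MP_926cc3_nt.TH.DTF
import Pool.Agent.Lib.MP_926cc3_nt.TH.MOD
import Pool.Agent.Lib.MP_926cc3_nt.TH.CGZ
import Pool.Agent.Lib.MP_926cc3_nt.TH.SEL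
import Pool.Agent.Lib.MP_926cc3_nt.TH.PRBB
import Pool.Agent.Lib.MP_926cc3_nt.TH.DTFB

set_option autoImplicit false

namespace Pool.Agent.Lib.MP_926cc3_nt.TH

namespace All

theorem hAPX : SpecAPX := specAPX (specIDN specMUL) specROM specGIN
theorem hBDG : SpecBDG := specBDG hAPX specGIN
theorem hCNV : SpecCNV := specCNV hAPX hBDG specDIE specGIN
theorem hFLG : SpecFLG := specFLG specWLG
theorem hLIM : SpecLIM := specLIM hCNV hFLG
theorem hDEF : SpecDEF := specDEF specDDE hCNV hLIM specOSC specWLG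
theorem hAVG : SpecAVG := specAVG specSVK
theorem hCGZ : SpecCGZ := specCGZ specDDE hLIM
theorem hSEL : SpecSEL := specSEL hDEF hAVG specPIE specMOD

end All

universe u

theorem specMAIN : SpecMAIN.{u} :=
  main_of All.hSEL All.hCGZ (specPRB specEMP specDTF)

end Pool.Agent.Lib.MP_926cc3_nt.TH
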