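import Pool.Agent.Lib.MP_926cc3_nt.TH.PRB
import Pool.Agent.Lib.MP_926cc3_nt.TH.EMP

/-!
# MP_926cc3_nt, the upper half: in every Cramér–Granville model of level `n^{o(1)}` almost surely
`log p(g) ≤ (1 + ε) √g` for all large `g`.
-/

set_option autoImplicit false
set_option linter.unusedVariables false

open Filter Topology MeasureTheory ProbabilityTheory ArithmeticFunction

namespace Pool.Agent.Lib.MP_926cc3_nt.TH

open Pool.Agent.Lib.MP_926cc3_nt.RS

universe u

namespace UPHM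

theorem pow_le {w : ℕ → ℕ} (h2 : ∀ n, 2 ≤ w n)
    (hw : (fun n => Real.log (w n)) =o[atTop] (fun n : ℕ => Real.log n)) (K : ℕ) :
    ∀ᶠ n : ℕ in atTop, (w n : ℝ) ^ K ≤ (n : ℝ) ^ (1 / 4 : ℝ) := by
  have hK : (0 : ℝ) < 1 / (4 * ((K : ℝ) + 1)) := by positivity
  filter_upwards [hw.def hK, eventually_ge_atTop 1] with n hn hn1
  have hn1' : (1 : ℝ) ≤ n := by exact_mod_cast hn1
  have hw2 : (2 : ℝ) ≤ w n := by exact_mod_cast h2 n
  have hl0 : 0 ≤ Real.log (n : ℝ) := Real.log_nonneg hn1'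
  rw [Real.norm_eq_abs, Real.norm_eq_abs, abs_of_nonneg hl0] at hn
  have h3 := (le_abs_self _).trans hn
  have h4 : (K : ℝ) * Real.log (w n) ≤ 1 / 4 * Real.log n := by
    have hlw : 0 ≤ Real.log (w n : ℝ) := Real.log_nonneg (by linarith)
    have h5 := mul_le_mul_of_nonneg_left h3 (show (0 : ℝ) ≤ (K : ℝ) + 1 by positivity)
    have e : ((K : ℝ) + 1) * (1 / (4 * ((K : ℝ) + 1)) * Real.log n) = 1 / 4 * Real.log n := by
      field_simp
    nlinarith
  have hn0 : (0 : ℝ) < n := by linarith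
  rw [← Real.rpow_natCast, Real.rpow_def_of_pos (by linarith), Real.rpow_def_of_pos hn0]
  apply Real.exp_le_exp.2
  linarith

theorem sum_small {w : ℕ → ℕ} (hm : Monotone w) (h2 : ∀ n, 2 ≤ w n)
    (hw : (fun n => Real.log (w n)) =o[atTop] (fun n : ℕ => Real.log n)) {η : ℝ} (hη : 0 < η) :
    ∀ᶠ x : ℕ in atTop, ∀ a e : ℕ, a ≤ e → e ≤ 3 * x →
      |∑ n ∈ Finset.Ioc a e, (Gra.r (w n) n / V (w n) - 1)| ≤ η * x := by
  obtain ⟨C, hC, hint⟩ := Gra.interval
  obtain ⟨b, hb⟩ : ∃ b : ℕ, C * Real.exp (-(b : ℝ)) < η / 6 := by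
    have h1 : Tendsto (fun b : ℕ => C * Real.exp (-(b : ℝ))) atTop (𝓝 (C * 0)) :=
      (Real.tendsto_exp_neg_atTop_nhds_zero.comp tendsto_natCast_atTop_atTop).const_mul C
    rw [mul_zero] at h1
    exact (h1.eventually (gt_mem_nhds (show (0 : ℝ) < η / 6 by positivity))).exists
  obtain ⟨n1, hn1⟩ := eventually_atTop.1 (pow_le h2 hw (8 * b + 19))
  have hroot : Tendsto (fun x : ℕ => Real.sqrt (x : ℝ)) atTop atTop :=
    Real.tendsto_sqrt_atTop.comp tendsto_natCast_atTop_atTop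
  filter_upwards [hroot.eventually_ge_atTop (4 * C / η), eventually_ge_atTop 3,
    eventually_ge_atTop n1] with x hx hx3 hxn a e hae he
  have hx3' : (3 : ℝ) ≤ x := by exact_mod_cast hx3
  have hx0 : (0 : ℝ) < x := by linarith
  have h4 := Gra.window hC hint w hm h2 b a e hae
  have h5 : (w e : ℝ) ^ (8 * b + 19) ≤ Real.sqrt x := by
    have h6 := hn1 (3 * x) (by omega)
    have h7 : (w e : ℝ) ≤ w (3 * x) := by exact_mod_cast hm he
    calc (w e : ℝ) ^ (8 * b + 19) ≤ (w (3 * x) : ℝ) ^ (8 * b + 19) := by gcongr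
      _ ≤ ((3 * x : ℕ) : ℝ) ^ (1 / 4 : ℝ) := h6
      _ ≤ ((x : ℝ) ^ (2 : ℝ)) ^ (1 / 4 : ℝ) := by
          apply Real.rpow_le_rpow (by positivity) _ (by norm_num)
          push_cast
          rw [Real.rpow_two]
          nlinarith
      _ = Real.sqrt x := by
          rw [← Real.rpow_mul hx0.le, Real.sqrt_eq_rpow]
          norm_num
  have hs : Real.sqrt (x : ℝ) * Real.sqrt x = x := Real.mul_self_sqrt hx0.le
  have hs0 : 0 < Real.sqrt (x : ℝ) := Real.sqrt_pos.2 hx0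
  have h6 : 2 * C * Real.sqrt (x : ℝ) ≤ η / 2 * x := by
    rw [div_le_iff₀ hη] at hx
    have : 2 * C * Real.sqrt (x : ℝ) ≤ (η / 2 * Real.sqrt x) * Real.sqrt x := by
      apply mul_le_mul_of_nonneg_right _ hs0.le
      linarith
    calc 2 * C * Real.sqrt (x : ℝ) ≤ (η / 2 * Real.sqrt x) * Real.sqrt x := this
      _ = η / 2 * x := by rw [mul_assoc, hs]
  have h7 : (e : ℝ) - a ≤ 3 * x := by
    have h8 : (e : ℝ) ≤ 3 * x := by exact_mod_cast he
    have h9 : (0 : ℝ) ≤ a := Nat.cast_nonneg a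
    linarith
  have h8 : (0 : ℝ) ≤ (e : ℝ) - a := by
    have : (a : ℝ) ≤ e := by exact_mod_cast hae
    linarith
  calc |∑ n ∈ Finset.Ioc a e, (Gra.r (w n) n / V (w n) - 1)|
      ≤ C * Real.exp (-(b : ℝ)) * ((e : ℝ) - a) + 2 * C * (w e : ℝ) ^ (8 * b + 19) := h4
    _ ≤ η / 6 * (3 * x) + 2 * C * Real.sqrt x := by
        apply add_le_add
        · apply mul_le_mul hb.le h7 h8 (by positivity)
        · apply mul_le_mul_of_nonneg_left h5 (by positivity)
    _ ≤ η / 6 * (3 * x) + η / 2 * x := by linarith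
    _ = η * x := by ring

theorem cg_nonneg {w : ℕ → ℕ} (h2 : ∀ n, 2 ≤ w n) (n : ℕ) : 0 ≤ cgDens w n := by
  rw [Gra.cgDens_eq]
  exact div_nonneg (div_nonneg (Gra.r_nonneg _ _) (Gra.V_pos _ (h2 n)).le)
    (Real.log_natCast_nonneg n)

theorem sum_windows (f : ℕ → ℝ) (x H J : ℕ) :
    ∑ j ∈ Finset.range J, ∑ n ∈ Finset.Ico (x + j * H) (x + j * H + H), f n =
      ∑ n ∈ Finset.Ico x (x + J * H), f n := by
  induction J with
  | zero => simp
  | succ J ih =>
    rw [Finset.sum_range_succ, ih]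
    have e : x + (J + 1) * H = x + J * H + H := by ring
    rw [e, Finset.sum_Ico_consecutive f (by omega) (by omega)]

/-- the data for an empty window near `x` -/
def WinP (w : ℕ → ℕ) (β β' : ℝ) (x H : ℕ) (I : Finset ℕ) : Prop :=
  (∀ s ∈ I, x ≤ s ∧ s + H ≤ 2 * x) ∧
    (∀ s ∈ I, ∀ s' ∈ I, s ≠ s' → Disjoint (Finset.Ico s (s + H))
      (Finset.Ico s' (s' + H))) ∧
    (x : ℝ) ^ β' ≤ I.card ∧
    ∀ s ∈ I, ∑ n ∈ Finset.Ico s (s + H), cgDens w n ≤ β * Real.log x

theorem tsum_ne_top {Ω : Type u} [MeasurableSpace Ω] {μ : Measure Ω} [IsProbabilityMeasure μ]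
    {F : ℕ → Set Ω} (hF : ∀ᶠ x : ℕ in atTop, μ (F x) ≤ ENNReal.ofReal ((x : ℝ) ^ (-(2 : ℝ)))) :
    (∑' x : ℕ, μ (F x)) ≠ ⊤ := by
  obtain ⟨b, hb⟩ := eventually_atTop.1 hF
  have h1 : Summable (fun x : ℕ => (x : ℝ) ^ (-(2 : ℝ))) :=
    Real.summable_nat_rpow.2 (by norm_num)
  rw [← ENNReal.summable.sum_add_tsum_nat_add' (f := fun x => μ (F x)) (k := b)]
  apply ENNReal.add_ne_top.2
  constructor
  · exact (ENNReal.sum_lt_top.2 (fun i _ => measure_lt_top μ _)).ne
  · have h3 : Summable (fun x : ℕ => ((x + b : ℕ) : ℝ) ^ (-(2 : ℝ))) :=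
      (summable_nat_add_iff b).2 h1
    refine ne_top_of_le_ne_top h3.tsum_ofReal_ne_top (ENNReal.tsum_le_tsum (fun x => ?_))
    exact hb (x + b) (by omega)

open PRBM in
/-- almost surely, for all large `x` for which the data exist some window is empty (the proof is
that of `specPRB`, by helper96) -/
theorem runsH (hEMP : SpecEMP.{u}) (w : ℕ → ℕ)
    (hd : Tendsto (fun n => cgDens w n) atTop (𝓝 0)) {β β' : ℝ} (hβ : 0 < β) (hββ : β < β')
    (H : ℕ → ℕ) (Ω : Type u) (m0 : MeasurableSpace Ω) (μ : Measure Ω)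
    (hμ : IsProbabilityMeasure μ) (B : ℕ → Set Ω) (hB : ∀ n, MeasurableSet (B n))
    (hI : iIndepSet B μ) (hdB : ∀ᶠ n in atTop, μ.real (B n) = cgDens w n) :
    ∀ᵐ ω ∂μ, ∀ᶠ x : ℕ in atTop, (∃ I : Finset ℕ, WinP w β β' x (H x) I) →
      ∃ a : ℕ, x ≤ a ∧ a ≤ 2 * x ∧ ∀ n, a ≤ n → n < a + H x → n ∉ evSet B ω := by
  classical
  have := hμ
  -- the exponent
  set t : ℝ := (1 + β' / β) / 2 with ht
  have hb1 : 1 < β' / β := by rw [lt_div_iff₀ hβ]; linarith
  have ht1 : 1 < t := by rw [ht]; linarith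
  have ht0 : 0 < t := by linarith
  have htβ : t * β = (β + β') / 2 := by
    rw [ht]; field_simp
  obtain ⟨κ, hκ0, hκ⟩ := exists_kappa ht1
  set c : ℝ := β' - t * β with hc
  have hc0 : 0 < c := by rw [hc, htβ]; linarith
  -- the data
  set P : ℕ → Finset ℕ → Prop := fun x I => WinP w β β' x (H x) I with hP
  set I : ℕ → Finset ℕ := fun x => if h : ∃ I : Finset ℕ, P x I then h.choose else ∅ with hIdef
  have hIP : ∀ x, (∃ I : Finset ℕ, P x I) → P x (I x) := by
    intro x hx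
    rw [hIdef]
    dsimp only
    rw [dif_pos hx]
    exact hx.choose_spec
  set F : ℕ → Set Ω := fun x => if (∃ I : Finset ℕ, P x I) then
    {ω | ∀ s ∈ I x, ∃ n ∈ Finset.Ico s (s + H x), ω ∈ B n} else ∅ with hF
  -- the densities
  have hd2 : ∀ᶠ n : ℕ in atTop, cgDens w n ≤ κ :=
    (hd.eventually (gt_mem_nhds hκ0)).mono (fun a ha => le_of_lt ha)
  obtain ⟨N0, hN0⟩ := eventually_atTop.1 (hd2.and hdB)
  have hFm : ∀ᶠ x : ℕ in atTop, μ (F x) ≤ ENNReal.ofReal ((x : ℝ) ^ (-(2 : ℝ))) := by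
    filter_upwards [asym hc0, eventually_ge_atTop 1, eventually_ge_atTop N0] with x hx hx1 hxN
    have hx1' : (1 : ℝ) ≤ x := by exact_mod_cast hx1
    have hpos : (0 : ℝ) < x := by linarith
    by_cases hex : ∃ I : Finset ℕ, P x I
    · have hFx : F x = {ω | ∀ s ∈ I x, ∃ n ∈ Finset.Ico s (s + H x), ω ∈ B n} := by
        rw [hF]; dsimp only; rw [if_pos hex]
      obtain ⟨p1, p2, p3, p4⟩ := hIP x hex
      set q : ℝ := (x : ℝ) ^ (-(t * β)) with hq
      have hq0 : 0 ≤ q := Real.rpow_nonneg hpos.le _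
      have hq1 : q ≤ 1 := Real.rpow_le_one_of_one_le_of_nonpos hx1' (by nlinarith)
      have hlog : 0 ≤ Real.log (x : ℝ) := Real.log_nonneg hx1'
      have h1 := hEMP Ω m0 μ hμ B hB hI (I x) (fun s => Finset.Ico s (s + H x)) q p2 hq0 (by
        intro s hs
        have hterm : ∀ n ∈ Finset.Ico s (s + H x),
            Real.exp (-(t * cgDens w n)) ≤ 1 - μ.real (B n) := by
          intro n hn
          rw [Finset.mem_Ico] at hn
          have h2 := hN0 n (hxN.trans ((p1 s hs).1.trans hn.1))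
          have h3 : 0 ≤ cgDens w n := by rw [← h2.2]; exact measureReal_nonneg
          have h4 := hκ _ h3 h2.1
          rw [h2.2, Real.exp_neg, inv_le_iff_one_le_mul₀ (Real.exp_pos _)]
          linarith
        calc q = Real.exp (-(t * (β * Real.log x))) := by
              rw [hq, Real.rpow_def_of_pos hpos]; congr 1; ring
          _ ≤ Real.exp (-(t * ∑ n ∈ Finset.Ico s (s + H x), cgDens w n)) := by
              apply Real.exp_le_exp.2
              have := mul_le_mul_of_nonneg_left (p4 s hs) ht0.le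
              linarith
          _ = ∏ n ∈ Finset.Ico s (s + H x), Real.exp (-(t * cgDens w n)) := by
              rw [← Real.exp_sum, Finset.sum_neg_distrib, Finset.mul_sum]
          _ ≤ ∏ n ∈ Finset.Ico s (s + H x), (1 - μ.real (B n)) :=
              Finset.prod_le_prod (fun _ _ => (Real.exp_pos _).le) hterm)
      have h2 : (1 - q) ^ (I x).card ≤ Real.exp (-(x : ℝ) ^ c) := by
        calc (1 - q) ^ (I x).card ≤ (Real.exp (-q)) ^ (I x).card := by
              apply pow_le_pow_left₀ (by linarith)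
              have := Real.add_one_le_exp (-q)
              linarith
          _ = Real.exp (-(q * (I x).card)) := by
              rw [← Real.exp_nat_mul]; congr 1; ring
          _ ≤ Real.exp (-(x : ℝ) ^ c) := by
              apply Real.exp_le_exp.2
              have h3 : (x : ℝ) ^ c = q * (x : ℝ) ^ β' := by
                rw [hq, hc, ← Real.rpow_add hpos]; congr 1; ring
              rw [h3]
              have := mul_le_mul_of_nonneg_left p3 hq0
              linarith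
      rw [hFx, ← ENNReal.ofReal_toReal (measure_ne_top μ _)]
      exact ENNReal.ofReal_le_ofReal (h1.trans (h2.trans hx))
    · have hFx : F x = ∅ := by rw [hF]; dsimp only; rw [if_neg hex]
      rw [hFx, measure_empty]
      exact bot_le
  filter_upwards [ae_eventually_notMem (tsum_ne_top hFm)] with ω h1
  filter_upwards [h1] with x hxF hex
  have hFx : F x = {ω | ∀ s ∈ I x, ∃ n ∈ Finset.Ico s (s + H x), ω ∈ B n} := by
    rw [hF]; dsimp only; rw [if_pos hex]
  obtain ⟨p1, p2, p3, p4⟩ := hIP x hex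
  rw [hFx] at hxF
  simp only [Set.mem_ofPred_eq] at hxF
  push Not at hxF
  obtain ⟨s, hs, hsn⟩ := hxF
  refine ⟨s, (p1 s hs).1, ?_, ?_⟩
  · have := (p1 s hs).2
    omega
  · intro n hn1 hn2
    exact hsn n (Finset.mem_Ico.2 ⟨hn1, hn2⟩)

/-- comparison of the densities with `r / V / log x` -/
theorem cg_le {w : ℕ → ℕ} (h2 : ∀ n, 2 ≤ w n) {x n : ℕ} (hx : 2 ≤ x) (hn : x ≤ n) :
    cgDens w n ≤ Gra.r (w n) n / V (w n) / Real.log x := by
  rw [Gra.cgDens_eq]
  have hx' : (2 : ℝ) ≤ x := by exact_mod_cast hx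
  have hn' : (x : ℝ) ≤ n := by exact_mod_cast hn
  exact div_le_div_of_nonneg_left (div_nonneg (Gra.r_nonneg _ _) (Gra.V_pos _ (h2 n)).le)
    (Real.log_pos (by linarith)) (Real.log_le_log (by linarith) hn')

theorem le_cg {w : ℕ → ℕ} (h2 : ∀ n, 2 ≤ w n) {y n : ℕ} (hn : 2 ≤ n) (hy : n ≤ y) :
    Gra.r (w n) n / V (w n) / Real.log y ≤ cgDens w n := by
  rw [Gra.cgDens_eq]
  have hx' : (2 : ℝ) ≤ n := by exact_mod_cast hn
  have hn' : (n : ℝ) ≤ y := by exact_mod_cast hy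
  exact div_le_div_of_nonneg_left (div_nonneg (Gra.r_nonneg _ _) (Gra.V_pos _ (h2 n)).le)
    (Real.log_pos (by linarith)) (Real.log_le_log (by linarith) hn')

theorem growth {κ s : ℝ} (hκ : 0 < κ) (hs : s < 1) :
    ∀ᶠ x : ℕ in atTop, (x : ℝ) ^ s * Real.log x ^ 2 ≤ κ * x := by
  have h1 : (fun x : ℝ => Real.log x ^ 2) =o[atTop] (fun x : ℝ => x ^ (1 - s)) := by
    refine (isLittleO_log_rpow_rpow_atTop (2 : ℝ) (show 0 < 1 - s by linarith)).congr_left ?_
    intro x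
    exact Real.rpow_two _
  have h2 := (h1.def hκ)
  have h3 := (tendsto_natCast_atTop_atTop (R := ℝ)).eventually h2
  filter_upwards [h3, eventually_ge_atTop 1] with x hx hx1
  have hx0 : (0 : ℝ) < x := by exact_mod_cast hx1
  rw [Real.norm_of_nonneg (by positivity), Real.norm_of_nonneg (Real.rpow_nonneg hx0.le _)] at hx
  calc (x : ℝ) ^ s * Real.log x ^ 2 ≤ (x : ℝ) ^ s * (κ * (x : ℝ) ^ (1 - s)) :=
        mul_le_mul_of_nonneg_left hx (Real.rpow_nonneg hx0.le _)
    _ = κ * ((x : ℝ) ^ s * (x : ℝ) ^ (1 - s)) := by ring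
    _ = κ * x := by rw [← Real.rpow_add hx0]; norm_num

/-- many windows of length `⌊(1 - ε) log² x⌋` of small total density -/
theorem windows {w : ℕ → ℕ} (hm : Monotone w) (h2 : ∀ n, 2 ≤ w n)
    (hw : (fun n => Real.log (w n)) =o[atTop] (fun n : ℕ => Real.log n))
    {ε : ℝ} (hε : 0 < ε) (hε1 : ε < 1) :
    ∀ᶠ x : ℕ in atTop, ∃ I : Finset ℕ,
      WinP w (1 - ε / 2) (1 - ε / 4) x ⌊(1 - ε) * Real.log x ^ 2⌋₊ I := by
  have hlog : Tendsto (fun n : ℕ => Real.log (n : ℝ)) atTop atTop :=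
    Real.tendsto_log_atTop.comp tendsto_natCast_atTop_atTop
  set β : ℝ := 1 - ε / 2 with hβ
  have hβ0 : 0 < β := by rw [hβ]; linarith
  -- κ
  set κ : ℝ := 1 / (1 - ε) - (1 + ε / 4) / β with hκ
  have hκ0 : 0 < κ := by
    rw [hκ, sub_pos, div_lt_div_iff₀ hβ0 (by linarith), hβ]
    nlinarith
  filter_upwards [sum_small hm h2 hw (show 0 < ε / 4 by linarith),
    hlog.eventually_ge_atTop (2 / (1 - ε) + 1), eventually_ge_atTop 2,
    growth (show 0 < κ / 2 by positivity) (show 1 - ε / 4 < 1 by linarith),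
    growth (show 0 < κ / 2 by positivity) (show (0 : ℝ) < 1 by norm_num)]
    with x hx hxl hx2 hg1 hg2
  set L : ℝ := Real.log x with hL
  have hL1 : 1 ≤ L := by
    have : 0 < 2 / (1 - ε) := by apply div_pos (by norm_num); linarith
    linarith
  have hLε : 2 ≤ (1 - ε) * L := by
    have h3 : 2 / (1 - ε) ≤ L := by linarith
    rw [div_le_iff₀ (by linarith)] at h3
    linarith
  have hx2' : (2 : ℝ) ≤ x := by exact_mod_cast hx2
  have hx0 : (0 : ℝ) < x := by linarith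
  set H : ℕ := ⌊(1 - ε) * L ^ 2⌋₊ with hH
  have hHle : (H : ℝ) ≤ (1 - ε) * L ^ 2 := Nat.floor_le (by apply mul_nonneg <;> nlinarith)
  have hH1 : 1 ≤ H := by
    apply Nat.le_floor
    push_cast
    nlinarith
  have hH1' : (1 : ℝ) ≤ H := by exact_mod_cast hH1
  set J : ℕ := x / H with hJ
  have hJH : J * H ≤ x := Nat.div_mul_le_self x H
  have hJH' : x < J * H + H := Nat.lt_div_mul_add (by omega)
  have hJHr : (J : ℝ) * H ≤ x := by exact_mod_cast hJH
  have hJHr' : (x : ℝ) < J * H + H := by exact_mod_cast hJH'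
  -- total density
  set f : ℕ → ℝ := fun n => cgDens w n with hf
  set W : ℕ → ℝ := fun j => ∑ n ∈ Finset.Ico (x + j * H) (x + j * H + H), f n with hW
  have htot : ∑ j ∈ Finset.range J, W j ≤ (1 + ε / 4) * x / L := by
    rw [hW, sum_windows]
    have h3 : ∑ n ∈ Finset.Ico x (x + J * H), f n ≤
        ∑ n ∈ Finset.Ico x (x + J * H), Gra.r (w n) n / V (w n) / L := by
      apply Finset.sum_le_sum
      intro n hn
      rw [Finset.mem_Ico] at hn
      exact cg_le h2 hx2 hn.1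
    refine h3.trans ?_
    rw [← Finset.sum_div]
    apply div_le_div_of_nonneg_right _ (by linarith)
    have hIco : Finset.Ico x (x + J * H) = Finset.Ioc (x - 1) (x + J * H - 1) := by
      ext n; rw [Finset.mem_Ico, Finset.mem_Ioc]; omega
    have h4 := hx (x - 1) (x + J * H - 1) (by omega) (by omega)
    rw [Finset.sum_sub_distrib, ← hIco] at h4
    have h5 : ∑ n ∈ Finset.Ico x (x + J * H), (1 : ℝ) = J * H := by
      rw [Finset.sum_const, Nat.card_Ico, nsmul_eq_mul, mul_one, Nat.add_sub_cancel_left]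
      push_cast; ring
    rw [h5] at h4
    have h6 := (le_abs_self _).trans h4
    linarith
  -- the good windows
  set G : Finset ℕ := (Finset.range J).filter (fun j => W j ≤ β * L) with hG
  have hWnn : ∀ j, 0 ≤ W j := fun j => Finset.sum_nonneg (fun n _ => cg_nonneg h2 n)
  have hbad : (((Finset.range J).filter (fun j => ¬ W j ≤ β * L)).card : ℝ) * (β * L) ≤
      ∑ j ∈ Finset.range J, W j := by
    rw [← nsmul_eq_mul]
    calc ((Finset.range J).filter (fun j => ¬ W j ≤ β * L)).card • (β * L)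
        ≤ ∑ j ∈ (Finset.range J).filter (fun j => ¬ W j ≤ β * L), W j := by
          apply Finset.card_nsmul_le_sum
          intro j hj
          rw [Finset.mem_filter] at hj
          exact (not_le.1 hj.2).le
      _ ≤ ∑ j ∈ Finset.range J, W j :=
          Finset.sum_le_sum_of_subset_of_nonneg (Finset.filter_subset _ _) (fun j _ _ => hWnn j)
  have hsplit : (G.card : ℝ) + (((Finset.range J).filter (fun j => ¬ W j ≤ β * L)).card : ℝ) =
      J := by
    have h3 := Finset.card_filter_add_card_filter_not (s := Finset.range J)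
      (fun j => W j ≤ β * L)
    rw [Finset.card_range] at h3
    rw [hG]
    exact_mod_cast h3
  have hcard : (x : ℝ) ^ (1 - ε / 4) ≤ G.card := by
    have hL2 : 0 < L ^ 2 := by positivity
    have h3 : (G.card : ℝ) ≥ ((x : ℝ) - H) / ((1 - ε) * L ^ 2) - (1 + ε / 4) * x / L / (β * L) := by
      have h4 : (((Finset.range J).filter (fun j => ¬ W j ≤ β * L)).card : ℝ) ≤
          (1 + ε / 4) * x / L / (β * L) := by
        rw [le_div_iff₀ (by positivity)]
        exact hbad.trans htot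
      have h5 : ((x : ℝ) - H) / ((1 - ε) * L ^ 2) ≤ J := by
        rw [div_le_iff₀ (by apply mul_pos _ hL2; linarith)]
        have h6 : (J : ℝ) * H ≤ J * ((1 - ε) * L ^ 2) :=
          mul_le_mul_of_nonneg_left hHle (Nat.cast_nonneg _)
        linarith
      linarith
    have h4 : ((x : ℝ) - H) / ((1 - ε) * L ^ 2) ≥ ((x : ℝ) / (1 - ε)) / L ^ 2 - 1 := by
      rw [sub_div, div_div]
      have h5 : (H : ℝ) / ((1 - ε) * L ^ 2) ≤ 1 := by
        rw [div_le_one (by apply mul_pos _ hL2; linarith)]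
        exact hHle
      linarith
    have h5 : (1 + ε / 4) * x / L / (β * L) = ((1 + ε / 4) / β * x) / L ^ 2 := by
      field_simp
    have h6 : (G.card : ℝ) ≥ κ * x / L ^ 2 - 1 := by
      have : κ * x / L ^ 2 = ((x : ℝ) / (1 - ε)) / L ^ 2 - ((1 + ε / 4) / β * x) / L ^ 2 := by
        rw [hκ]; ring
      linarith
    have h7 : (x : ℝ) ^ (1 - ε / 4) + 1 ≤ κ * x / L ^ 2 := by
      rw [le_div_iff₀ hL2]
      rw [Real.rpow_zero, one_mul] at hg2
      nlinarith
    linarith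
  refine ⟨G.image (fun j => x + j * H), ?_, ?_, ?_, ?_⟩
  · intro s hs
    rw [Finset.mem_image] at hs
    obtain ⟨j, hj, rfl⟩ := hs
    rw [hG, Finset.mem_filter, Finset.mem_range] at hj
    have h3 : (j + 1) * H ≤ J * H := Nat.mul_le_mul_right H hj.1
    rw [add_mul, one_mul] at h3
    omega
  · intro s hs s' hs' hne
    rw [Finset.mem_image] at hs hs'
    obtain ⟨j, hj, rfl⟩ := hs
    obtain ⟨j', hj', rfl⟩ := hs'
    rw [Finset.disjoint_left]
    intro n hn hn'
    rw [Finset.mem_Ico] at hn hn'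
    rcases lt_trichotomy j j' with h | h | h
    · have h3 : (j + 1) * H ≤ j' * H := Nat.mul_le_mul_right H h
      rw [add_mul, one_mul] at h3
      omega
    · exact hne (by rw [h])
    · have h3 : (j' + 1) * H ≤ j * H := Nat.mul_le_mul_right H h
      rw [add_mul, one_mul] at h3
      omega
  · rw [Finset.card_image_of_injective]
    · exact hcard
    · intro j j' h
      have h3 : j * H = j' * H := by
        simp only at h
        omega
      exact Nat.eq_of_mul_eq_mul_right (by omega) h3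
  · intro s hs
    rw [Finset.mem_image] at hs
    obtain ⟨j, hj, rfl⟩ := hs
    rw [hG, Finset.mem_filter] at hj
    exact hj.2

/-- almost surely there are long runs near every large `x` -/
theorem lower {w : ℕ → ℕ} (hm : Monotone w) (h2 : ∀ n, 2 ≤ w n)
    (hw : (fun n => Real.log (w n)) =o[atTop] (fun n : ℕ => Real.log n))
    (hd : Tendsto (fun n => cgDens w n) atTop (𝓝 0))
    (Ω : Type u) (m0 : MeasurableSpace Ω) (μ : Measure Ω)
    (hμ : IsProbabilityMeasure μ) (B : ℕ → Set Ω) (hB : ∀ n, MeasurableSet (B n))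
    (hI : iIndepSet B μ) (hdB : ∀ᶠ n in atTop, μ.real (B n) = cgDens w n) :
    ∀ᵐ ω ∂μ, LowerRuns (evSet B ω) := by
  have h1 : ∀ᵐ ω ∂μ, ∀ k : ℕ, ∀ᶠ x : ℕ in atTop, ∃ a : ℕ, x ≤ a ∧ a ≤ 2 * x ∧
      ∀ n, a ≤ n → n < a + ⌊(1 - 1 / ((k : ℝ) + 2)) * Real.log x ^ 2⌋₊ → n ∉ evSet B ω := by
    rw [ae_all_iff]
    intro k
    have hk : (0 : ℝ) < 1 / ((k : ℝ) + 2) := by positivity
    have hk1 : 1 / ((k : ℝ) + 2) < 1 := by
      rw [div_lt_one (by positivity)]
      have : (0 : ℝ) ≤ k := Nat.cast_nonneg k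
      linarith
    have h3 := windows hm h2 hw hk hk1
    filter_upwards [runsH specEMP w hd (show 0 < 1 - 1 / ((k : ℝ) + 2) / 2 by linarith)
      (show 1 - 1 / ((k : ℝ) + 2) / 2 < 1 - 1 / ((k : ℝ) + 2) / 4 by linarith)
      (fun x => ⌊(1 - 1 / ((k : ℝ) + 2)) * Real.log x ^ 2⌋₊) Ω m0 μ hμ B hB hI hdB] with ω hω
    filter_upwards [hω, h3] with x hx hx3
    exact hx hx3
  filter_upwards [h1] with ω hω ε hε hε1
  obtain ⟨k, hk⟩ := exists_nat_one_div_lt hε
  filter_upwards [hω k] with x hx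
  obtain ⟨a, h3, h4, h5⟩ := hx
  refine ⟨a, h3, h4, fun n hn1 hn2 => h5 n hn1 (lt_of_lt_of_le hn2 ?_)⟩
  apply Nat.add_le_add_left
  apply Nat.floor_le_floor
  apply mul_le_mul_of_nonneg_right _ (by positivity)
  have h6 : 1 / ((k : ℝ) + 2) ≤ 1 / ((k : ℝ) + 1) :=
    one_div_le_one_div_of_le (by positivity) (by linarith)
  linarith

open EMPM in
/-- almost surely there is an element in `[2x, 3x]` for every large `x` -/
theorem dense {w : ℕ → ℕ} (hm : Monotone w) (h2 : ∀ n, 2 ≤ w n)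
    (hw : (fun n => Real.log (w n)) =o[atTop] (fun n : ℕ => Real.log n))
    (Ω : Type u) (m0 : MeasurableSpace Ω) (μ : Measure Ω)
    (hμ : IsProbabilityMeasure μ) (B : ℕ → Set Ω) (hB : ∀ n, MeasurableSet (B n))
    (hI : iIndepSet B μ) (hdB : ∀ᶠ n in atTop, μ.real (B n) = cgDens w n) :
    ∀ᵐ ω ∂μ, ∀ᶠ x : ℕ in atTop, ∃ n ∈ evSet B ω, 2 * x ≤ n ∧ n ≤ 3 * x := by
  have := hμ
  set F : ℕ → Set Ω := fun x => Ev B ∅ (Finset.Ioc (2 * x) (3 * x)) with hF
  obtain ⟨N0, hN0⟩ := eventually_atTop.1 hdB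
  have hFm : ∀ᶠ x : ℕ in atTop, μ (F x) ≤ ENNReal.ofReal ((x : ℝ) ^ (-(2 : ℝ))) := by
    filter_upwards [sum_small hm h2 hw (show (0 : ℝ) < 1 / 2 by norm_num),
      PRBM.asym (show (0 : ℝ) < 1 / 2 by norm_num), eventually_ge_atTop 3,
      eventually_ge_atTop N0, growth (show (0 : ℝ) < 1 / 4 by norm_num)
        (show (1 / 2 : ℝ) < 1 by norm_num)] with x hx hx1 hx3 hxN hg
    have hx3' : (3 : ℝ) ≤ x := by exact_mod_cast hx3
    have hx0 : (0 : ℝ) < x := by linarith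
    have h3 := hx (2 * x) (3 * x) (by omega) le_rfl
    rw [Finset.sum_sub_distrib] at h3
    have h5 : ∑ n ∈ Finset.Ioc (2 * x) (3 * x), (1 : ℝ) = x := by
      rw [Finset.sum_const, Nat.card_Ioc, nsmul_eq_mul, mul_one]
      have : 3 * x - 2 * x = x := by omega
      rw [this]
    rw [h5] at h3
    have h6 : (x : ℝ) / 2 ≤ ∑ n ∈ Finset.Ioc (2 * x) (3 * x), Gra.r (w n) n / V (w n) := by
      have := (abs_le.1 h3).1
      linarith
    have hl0 : 0 < Real.log (x : ℝ) := Real.log_pos (by linarith)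
    have hl1 : 1 ≤ Real.log (x : ℝ) := by
      rw [Real.le_log_iff_exp_le hx0]
      have := Real.exp_one_lt_d9
      linarith
    have hl3 : Real.log ((3 * x : ℕ) : ℝ) ≤ 2 * Real.log x := by
      have e : 2 * Real.log (x : ℝ) = Real.log ((x : ℝ) ^ 2) := by
        rw [Real.log_pow]; norm_num
      rw [e]
      apply Real.log_le_log (by positivity)
      push_cast
      nlinarith
    have hl3' : 0 < Real.log ((3 * x : ℕ) : ℝ) := by
      apply Real.log_pos
      push_cast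
      linarith
    have h7 : (x : ℝ) ^ (1 / 2 : ℝ) ≤ ∑ n ∈ Finset.Ioc (2 * x) (3 * x), cgDens w n := by
      calc (x : ℝ) ^ (1 / 2 : ℝ) ≤ (x : ℝ) / 2 / Real.log ((3 * x : ℕ) : ℝ) := by
            rw [le_div_iff₀ hl3']
            have h8 : 0 ≤ (x : ℝ) ^ (1 / 2 : ℝ) := Real.rpow_nonneg hx0.le _
            have h9 : (x : ℝ) ^ (1 / 2 : ℝ) * Real.log ((3 * x : ℕ) : ℝ) ≤
                (x : ℝ) ^ (1 / 2 : ℝ) * (2 * Real.log x ^ 2) := by
              apply mul_le_mul_of_nonneg_left _ h8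
              nlinarith
            linarith
        _ ≤ (∑ n ∈ Finset.Ioc (2 * x) (3 * x), Gra.r (w n) n / V (w n)) /
            Real.log ((3 * x : ℕ) : ℝ) := div_le_div_of_nonneg_right h6 hl3'.le
        _ = ∑ n ∈ Finset.Ioc (2 * x) (3 * x), Gra.r (w n) n / V (w n) /
            Real.log ((3 * x : ℕ) : ℝ) := Finset.sum_div _ _ _
        _ ≤ ∑ n ∈ Finset.Ioc (2 * x) (3 * x), cgDens w n := by
            apply Finset.sum_le_sum
            intro n hn
            rw [Finset.mem_Ioc] at hn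
            exact le_cg h2 (by omega) hn.2
    have h8 : μ.real (F x) ≤ Real.exp (-(x : ℝ) ^ (1 / 2 : ℝ)) := by
      rw [hF]
      dsimp only
      rw [Ev_real hB hI _ ∅ (Finset.disjoint_empty_left _), Finset.prod_empty, one_mul]
      calc ∏ n ∈ Finset.Ioc (2 * x) (3 * x), (1 - μ.real (B n))
          ≤ ∏ n ∈ Finset.Ioc (2 * x) (3 * x), Real.exp (-cgDens w n) := by
            apply Finset.prod_le_prod
            · intro n _
              rw [sub_nonneg]
              exact measureReal_le_one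
            · intro n hn
              rw [Finset.mem_Ioc] at hn
              rw [hN0 n (by omega)]
              have := Real.add_one_le_exp (-cgDens w n)
              linarith
        _ = Real.exp (-∑ n ∈ Finset.Ioc (2 * x) (3 * x), cgDens w n) := by
            rw [← Real.exp_sum, Finset.sum_neg_distrib]
        _ ≤ Real.exp (-(x : ℝ) ^ (1 / 2 : ℝ)) := Real.exp_le_exp.2 (by linarith)
    rw [← ENNReal.ofReal_toReal (measure_ne_top μ _)]
    exact ENNReal.ofReal_le_ofReal (h8.trans hx1)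
  filter_upwards [ae_eventually_notMem (tsum_ne_top hFm)] with ω h1
  filter_upwards [h1] with x hxF
  rw [hF] at hxF
  simp only [Ev, Finset.notMem_empty, false_imp_iff, implies_true, true_and,
    Set.mem_ofPred_eq] at hxF
  push Not at hxF
  obtain ⟨n, hn, hnB⟩ := hxF
  rw [Finset.mem_Ioc] at hn
  exact ⟨n, hnB, hn.1.le, hn.2⟩

/-- the deterministic step -/
theorem upper' {S : Set ℕ} (hU : ∀ᶠ x : ℕ in atTop, ∃ n ∈ S, 2 * x ≤ n ∧ n ≤ 3 * x)
    (hL : LowerRuns S) (ε : ℝ) (hε : 0 < ε) (hε1 : ε < 1) : ∀ᶠ g : ℕ in atTop,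
    {p : ℕ | p ∈ S ∧ ∀ i : ℕ, 1 ≤ i → i ≤ g → (1 < p - i ∧ p - i ∉ S)}.Nonempty ∧
    Real.log (firstElt S g) ≤ Real.sqrt ((g + 2) / (1 - ε)) + Real.log 6 := by
  -- eventually in x
  have hev : ∀ᶠ x : ℕ in atTop, (∃ a : ℕ, x ≤ a ∧ a ≤ 2 * x ∧
      (∀ n, a ≤ n → n < a + ⌊(1 - ε) * Real.log x ^ 2⌋₊ → n ∉ S) ∧
      ∃ n ∈ S, a ≤ n ∧ n ≤ 3 * x) ∧ 2 ≤ x := by
    filter_upwards [hL ε hε hε1, hU, eventually_ge_atTop 2] with x hx hx1 hx2
    refine ⟨?_, hx2⟩
    obtain ⟨a, h1, h2, h3⟩ := hx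
    obtain ⟨n, hnS, hn1, hn2⟩ := hx1
    exact ⟨a, h1, h2, h3, n, hnS, by omega, hn2⟩
  obtain ⟨x0, hx0⟩ := eventually_atTop.1 hev
  -- choice of x
  have hroot : Tendsto (fun g : ℕ => Real.sqrt (((g : ℝ) + 2) / (1 - ε))) atTop atTop := by
    apply Real.tendsto_sqrt_atTop.comp
    apply Tendsto.atTop_div_const (by linarith)
    exact tendsto_atTop_add_const_right _ _ tendsto_natCast_atTop_atTop
  have hexp : Tendsto (fun g : ℕ => Real.exp (Real.sqrt (((g : ℝ) + 2) / (1 - ε)))) atTop atTop :=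
    Real.tendsto_exp_atTop.comp hroot
  filter_upwards [hexp.eventually_ge_atTop (x0 : ℝ)] with g hg
  set T := Real.sqrt (((g : ℝ) + 2) / (1 - ε)) with hT
  have hT0 : 0 ≤ T := Real.sqrt_nonneg _
  set x := ⌈Real.exp T⌉₊ with hx
  have hxx0 : x0 ≤ x := by
    have : (x0 : ℝ) ≤ x := hg.trans (Nat.le_ceil _)
    exact_mod_cast this
  obtain ⟨⟨a, h1, h2, h3, h4⟩, hx2⟩ := hx0 x hxx0
  have hTx : T ≤ Real.log x := by
    rw [Real.le_log_iff_exp_le (by positivity)]
    exact Nat.le_ceil _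
  have hg1 : g ≤ ⌊(1 - ε) * Real.log x ^ 2⌋₊ := by
    apply Nat.le_floor
    have h5 : T ^ 2 = ((g : ℝ) + 2) / (1 - ε) := by
      rw [hT, Real.sq_sqrt]
      apply div_nonneg (by positivity) (by linarith)
    have h6 : T ^ 2 ≤ Real.log x ^ 2 := by gcongr
    have h7 : (1 - ε) * T ^ 2 = g + 2 := by
      rw [h5]; field_simp [show (1 - ε) ≠ 0 by linarith]
    nlinarith
  obtain ⟨p, hp, hp3⟩ := Det.nonempty_le (g := g) hx2 h1 h4
    (fun n hn1 hn2 => h3 n hn1 (by omega))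
  refine ⟨⟨p, hp⟩, ?_⟩
  have hfp : firstElt S g ≤ p := Nat.sInf_le hp
  have h8 : (firstElt S g : ℝ) ≤ 6 * Real.exp T := by
    have h9 : (x : ℝ) ≤ Real.exp T + 1 := (Nat.ceil_lt_add_one (Real.exp_pos T).le).le
    have h10 : (1 : ℝ) ≤ Real.exp T := Real.one_le_exp hT0
    have h11 : (firstElt S g : ℝ) ≤ 3 * x := by exact_mod_cast hfp.trans hp3
    linarith
  rcases Nat.eq_zero_or_pos (firstElt S g) with h0 | h0
  · rw [h0]
    simp only [Nat.cast_zero, Real.log_zero]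
    have : 0 ≤ Real.log 6 := Real.log_nonneg (by norm_num)
    linarith
  · calc Real.log (firstElt S g) ≤ Real.log (6 * Real.exp T) :=
        Real.log_le_log (by exact_mod_cast h0) h8
      _ = T + Real.log 6 := by
        rw [Real.log_mul (by norm_num) (Real.exp_pos T).ne', Real.log_exp]; ring

theorem upper {S : Set ℕ} (hU : ∀ᶠ x : ℕ in atTop, ∃ n ∈ S, 2 * x ≤ n ∧ n ≤ 3 * x)
    (hL : LowerRuns S) (ε : ℝ) (hε : 0 < ε) : ∀ᶠ g : ℕ in atTop,
    {p : ℕ | p ∈ S ∧ ∀ i : ℕ, 1 ≤ i → i ≤ g → (1 < p - i ∧ p - i ∉ S)}.Nonempty ∧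
    Real.log (firstElt S g) ≤ (1 + ε) * Real.sqrt g := by
  set ε' : ℝ := 1 - 1 / (1 + ε / 2) ^ 2 with hε'
  have hs1 : 1 < (1 + ε / 2) ^ 2 := by nlinarith
  have h1 : 0 < ε' := by
    rw [hε', sub_pos, div_lt_one (by positivity)]
    exact hs1
  have h2 : ε' < 1 := by
    rw [hε']
    have : 0 < 1 / (1 + ε / 2) ^ 2 := by positivity
    linarith
  have hroot : Tendsto (fun x : ℕ => Real.sqrt (x : ℝ)) atTop atTop :=
    Real.tendsto_sqrt_atTop.comp tendsto_natCast_atTop_atTop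
  filter_upwards [upper' hU hL ε' h1 h2, hroot.eventually_ge_atTop
    (((1 + ε / 2) * Real.sqrt 2 + Real.log 6) / (ε / 2))] with g hg hg2
  refine ⟨hg.1, hg.2.trans ?_⟩
  have e : ((g : ℝ) + 2) / (1 - ε') = (1 + ε / 2) ^ 2 * (g + 2) := by
    rw [hε']
    field_simp
    ring
  rw [e, Real.sqrt_mul (by positivity), Real.sqrt_sq (by positivity)]
  have h3 : Real.sqrt ((g : ℝ) + 2) ≤ Real.sqrt g + Real.sqrt 2 := by
    have h5 : (0 : ℝ) ≤ g := Nat.cast_nonneg g
    have h6 := Real.mul_self_sqrt h5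
    have h7 := Real.mul_self_sqrt (show (0 : ℝ) ≤ 2 by norm_num)
    have h8 := Real.sqrt_nonneg (g : ℝ)
    have h9 := Real.sqrt_nonneg (2 : ℝ)
    rw [Real.sqrt_le_left (by positivity)]
    nlinarith [mul_nonneg h8 h9]
  rw [div_le_iff₀ (by positivity)] at hg2
  have h4 : (1 + ε / 2) * Real.sqrt ((g : ℝ) + 2) ≤ (1 + ε / 2) * (Real.sqrt g + Real.sqrt 2) :=
    mul_le_mul_of_nonneg_left h3 (by positivity)
  nlinarith

end UPHM

/-- **The upper half.** -/
theorem UPHM.main (hd : SpecCGZ) (Ω : Type u) (m0 : MeasurableSpace Ω) (μ : Measure Ω)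
    (hμ : IsProbabilityMeasure μ) (B : ℕ → Set Ω) (hB : ∀ n, MeasurableSet (B n))
    (hI : iIndepSet B μ) {w : ℕ → ℕ} (hm : Monotone w) (h2 : ∀ n, 2 ≤ w n)
    (hw : (fun n => Real.log (w n)) =o[atTop] (fun n : ℕ => Real.log n))
    (hdB : ∀ᶠ n in atTop, μ.real (B n) = cgDens w n) :
    ∀ᵐ ω ∂μ, (∀ ε : ℝ, 0 < ε → ∀ᶠ g : ℕ in atTop,
      {p : ℕ | p ∈ evSet B ω ∧ ∀ i : ℕ, 1 ≤ i → i ≤ g →
        (1 < p - i ∧ p - i ∉ evSet B ω)}.Nonempty ∧
      Real.log (firstElt (evSet B ω) g) ≤ (1 + ε) * Real.sqrt g) ∧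
      ∀ N : ℕ, ∃ n ∈ evSet B ω, N ≤ n := by
  filter_upwards [UPHM.lower hm h2 hw (hd w h2 hw) Ω m0 μ hμ B hB hI hdB,
    UPHM.dense hm h2 hw Ω m0 μ hμ B hB hI hdB] with ω h3 h4
  refine ⟨fun ε hε => UPHM.upper h4 h3 ε hε, fun N => ?_⟩
  obtain ⟨x, ⟨n, h5, h6, -⟩, hx⟩ := (h4.and (eventually_ge_atTop N)).exists
  exact ⟨n, h5, by omega⟩

end Pool.Agent.Lib.MP_926cc3_nt.TH
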