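import Pool.Agent.Lib.MP_926cc3_nt.TH.All
import Pool.Agent.Lib.MP_926cc3_nt.TH.UPH

/-!
# MP_926cc3_nt: the threshold for adapted random sets

The statements of `UPH`, `PRBB`, `RS.Gra.shanks` for an adapted random set whose predictable density
is almost surely asymptotic to the density of the Cramér–Granville model of level `w`.
-/

set_option autoImplicit false
set_option linter.unusedSectionVars false
set_option linter.unusedVariables false

open Filter Topology MeasureTheory ProbabilityTheory Asymptotics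

namespace Pool.Agent.Lib.MP_926cc3_nt.TH

open Pool.Agent.Lib.MP_926cc3_nt.RS Pool.Agent.Lib.MP_926cc3_nt.RS.Dens

universe u

namespace ADPM

variable {Ω : Type u} [m0 : MeasurableSpace Ω] {μ : Measure Ω} [IsProbabilityMeasure μ]
  {ℱ : Filtration ℕ m0} {R : Ω → Set ℕ} {d : ℕ → Ω → ℝ}

/-- the windows with starting points in `I` -/
theorem measure_family (h : Dens μ ℱ R d) {κ s t : ℝ} (hs : 0 ≤ s) (ht : 0 ≤ t)
    (hκ : ∀ x : ℝ, 0 ≤ x → x ≤ κ → 1 ≤ Real.exp (t * x) * (1 - x)) (L : ℕ) (I : Finset ℕ) :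
    (∀ a ∈ I, 1 ≤ a) → (∀ a ∈ I, ∀ b ∈ I, a < b → a + L ≤ b) →
    (∀ m, (∀ a ∈ I, a + L ≤ m + 1) →
      MeasurableSet[ℱ m] (⋂ a ∈ I, (Good R d κ s a (a + L))ᶜ)) ∧
    μ.real (⋂ a ∈ I, (Good R d κ s a (a + L))ᶜ) ≤ (1 - Real.exp (-(t * s))) ^ I.card := by
  classical
  induction I using Finset.induction_on_max with
  | empty =>
    intro _ _
    refine ⟨fun m _ => by simp, by simp⟩
  | insert b I hmax ih =>
    intro h1 h2
    obtain ⟨i1, i2⟩ := ih (fun a ha => h1 a (Finset.mem_insert_of_mem ha))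
      (fun a ha c hc hac => h2 a (Finset.mem_insert_of_mem ha) c (Finset.mem_insert_of_mem hc) hac)
    have hb := h1 b (Finset.mem_insert_self _ _)
    have hbI : b ∉ I := fun hh => lt_irrefl b (hmax b hh)
    have hle : ∀ a ∈ I, a + L ≤ b := fun a ha =>
      h2 a (Finset.mem_insert_of_mem ha) b (Finset.mem_insert_self _ _) (hmax a ha)
    have e : (⋂ a ∈ insert b I, (Good R d κ s a (a + L))ᶜ) =
        (⋂ a ∈ I, (Good R d κ s a (a + L))ᶜ) \ Good R d κ s b (b + L) := by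
      ext ω
      simp only [Set.mem_iInter, Finset.mem_insert, forall_eq_or_imp, Set.mem_compl_iff,
        Set.mem_sdiff]
      exact and_comm
    rw [e]
    constructor
    · intro m hm
      apply MeasurableSet.diff
      · exact i1 m (fun a ha => hm a (Finset.mem_insert_of_mem ha))
      · exact h.Good_meas hb (hm b (Finset.mem_insert_self _ _))
    · have h3 := h.measure_good hs ht hκ (a := b) (m := b + L) hb (Nat.le_add_right _ _)
        (i1 (b - 1) (fun a ha => by have := hle a ha; omega))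
      refine h3.trans ?_
      rw [Finset.card_insert_of_notMem hbI, pow_succ, mul_comm ((1 - Real.exp (-(t * s))) ^ I.card)]
      apply mul_le_mul_of_nonneg_left i2
      have : Real.exp (-(t * s)) ≤ 1 := Real.exp_le_one_iff.2 (by
        have := mul_nonneg ht hs
        linarith)
      linarith

/-- the predictable density is eventually at most `(1+η)` times the deterministic one -/
theorem le_of_equiv {f g : ℕ → ℝ} (hg : ∀ᶠ n in atTop, 0 ≤ g n) (h : f ~[atTop] g) {η : ℝ}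
    (hη : 0 < η) : ∀ᶠ n in atTop, (1 - η) * g n ≤ f n ∧ f n ≤ (1 + η) * g n := by
  filter_upwards [h.isLittleO.def hη, hg] with n h1 h2
  simp only [Pi.sub_apply, Real.norm_eq_abs] at h1
  rw [abs_of_nonneg h2] at h1
  have h3 := abs_le.1 h1
  constructor <;> linarith [h3.1, h3.2]

open UPHM PRBM in
/-- almost surely, for all large `x` for which the data exist some window is empty -/
theorem runsA (h : Dens μ ℱ R d) {w : ℕ → ℕ} (h2 : ∀ n, 2 ≤ w n)
    (hd : Tendsto (fun n => cgDens w n) atTop (𝓝 0))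
    (hdg : ∀ᵐ ω ∂μ, (fun n => d n ω) ~[atTop] cgDens w)
    {β β' : ℝ} (hβ : 0 < β) (hββ : β < β') (H : ℕ → ℕ) (hH : ∀ x, 1 ≤ H x) :
    ∀ᵐ ω ∂μ, ∀ᶠ x : ℕ in atTop, (∃ I : Finset ℕ, WinP w β β' x (H x) I) →
      ∃ a : ℕ, x ≤ a ∧ a ≤ 2 * x ∧ ∀ n, a ≤ n → n < a + H x → n ∉ R ω := by
  classical
  -- an intermediate exponent
  set γ : ℝ := (β + β') / 2 with hγ
  have hγ1 : β < γ := by rw [hγ]; linarith
  have hγ2 : γ < β' := by rw [hγ]; linarith
  have hγ0 : 0 < γ := by linarith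
  set t : ℝ := (1 + β' / γ) / 2 with ht
  have hb1 : 1 < β' / γ := by rw [lt_div_iff₀ hγ0]; linarith
  have ht1 : 1 < t := by rw [ht]; linarith
  have ht0 : 0 < t := by linarith
  have htγ : t * γ = (γ + β') / 2 := by
    rw [ht]; field_simp
  obtain ⟨κ, hκ0, hκ⟩ := exists_kappa ht1
  set c : ℝ := β' - t * γ with hc
  have hc0 : 0 < c := by rw [hc, htγ]; linarith
  set I : ℕ → Finset ℕ := fun x => if h : ∃ I : Finset ℕ, WinP w β β' x (H x) I
    then h.choose else ∅ with hIdef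
  have hIP : ∀ x, (∃ I : Finset ℕ, WinP w β β' x (H x) I) → WinP w β β' x (H x) (I x) := by
    intro x hx
    rw [hIdef]
    dsimp only
    rw [dif_pos hx]
    exact hx.choose_spec
  set F : ℕ → Set Ω := fun x => if (∃ I : Finset ℕ, WinP w β β' x (H x) I) then
    (⋂ a ∈ I x, (Good R d κ (γ * Real.log x) a (a + H x))ᶜ) else ∅ with hF
  have hFm : ∀ᶠ x : ℕ in atTop, μ (F x) ≤ ENNReal.ofReal ((x : ℝ) ^ (-(2 : ℝ))) := by
    filter_upwards [asym hc0, eventually_ge_atTop 1] with x hx hx1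
    have hx1' : (1 : ℝ) ≤ x := by exact_mod_cast hx1
    have hpos : (0 : ℝ) < x := by linarith
    by_cases hex : ∃ I : Finset ℕ, WinP w β β' x (H x) I
    · have hFx : F x = ⋂ a ∈ I x, (Good R d κ (γ * Real.log x) a (a + H x))ᶜ := by
        rw [hF]; dsimp only; rw [if_pos hex]
      obtain ⟨p1, p2, p3, p4⟩ := hIP x hex
      set q : ℝ := (x : ℝ) ^ (-(t * γ)) with hq
      have hq0 : 0 ≤ q := Real.rpow_nonneg hpos.le _
      have hq1 : q ≤ 1 := Real.rpow_le_one_of_one_le_of_nonpos hx1' (by nlinarith)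
      have hlog : 0 ≤ Real.log (x : ℝ) := Real.log_nonneg hx1'
      have h3 := (measure_family h (κ := κ) (s := γ * Real.log x) (t := t)
        (mul_nonneg hγ0.le hlog) ht0.le hκ (H x) (I x) (fun a ha => hx1.trans (p1 a ha).1)
        (fun a ha b hb hab => by
          by_contra hlt
          push Not at hlt
          have h4 := p2 a ha b hb hab.ne
          rw [Finset.disjoint_left] at h4
          have h5 := hH x
          exact h4 (Finset.mem_Ico.2 ⟨hab.le, hlt⟩) (Finset.mem_Ico.2 ⟨le_rfl, by omega⟩))).2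
      have e : Real.exp (-(t * (γ * Real.log x))) = q := by
        rw [hq, Real.rpow_def_of_pos hpos]; congr 1; ring
      rw [e] at h3
      have h4 : (1 - q) ^ (I x).card ≤ Real.exp (-(x : ℝ) ^ c) := by
        calc (1 - q) ^ (I x).card ≤ (Real.exp (-q)) ^ (I x).card := by
              apply pow_le_pow_left₀ (by linarith)
              have := Real.add_one_le_exp (-q)
              linarith
          _ = Real.exp (-(q * (I x).card)) := by
              rw [← Real.exp_nat_mul]; congr 1; ring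
          _ ≤ Real.exp (-(x : ℝ) ^ c) := by
              apply Real.exp_le_exp.2
              have h5 : (x : ℝ) ^ c = q * (x : ℝ) ^ β' := by
                rw [hq, hc, ← Real.rpow_add hpos]; congr 1; ring
              rw [h5]
              have := mul_le_mul_of_nonneg_left p3 hq0
              linarith
      rw [hFx, ← ENNReal.ofReal_toReal (measure_ne_top μ _)]
      exact ENNReal.ofReal_le_ofReal (h3.trans (h4.trans hx))
    · have hFx : F x = ∅ := by rw [hF]; dsimp only; rw [if_neg hex]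
      rw [hFx, measure_empty]
      exact bot_le
  have hη : 0 < γ / β - 1 := by
    rw [sub_pos, lt_div_iff₀ hβ]; linarith
  filter_upwards [ae_eventually_notMem (tsum_ne_top hFm), hdg] with ω h1 h3
  have h4 := le_of_equiv (Eventually.of_forall (cg_nonneg h2)) h3 hη
  have h5 : Tendsto (fun n => (1 + (γ / β - 1)) * cgDens w n) atTop (𝓝 0) := by
    have := hd.const_mul (1 + (γ / β - 1))
    rwa [mul_zero] at this
  obtain ⟨N0, hN0⟩ := eventually_atTop.1 (h4.and (h5.eventually (gt_mem_nhds hκ0)))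
  filter_upwards [h1, eventually_ge_atTop N0] with x hxF hxN hex
  have hFx : F x = ⋂ a ∈ I x, (Good R d κ (γ * Real.log x) a (a + H x))ᶜ := by
    rw [hF]; dsimp only; rw [if_pos hex]
  obtain ⟨p1, p2, p3, p4⟩ := hIP x hex
  rw [hFx] at hxF
  simp only [Set.mem_iInter, Set.mem_compl_iff, not_forall, not_not] at hxF
  obtain ⟨a, ha, hgood⟩ := hxF
  have hax := (p1 a ha).1
  refine ⟨a, hax, by have := (p1 a ha).2; omega, ?_⟩
  rcases hgood with hg | hg
  · exact hg
  · exfalso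
    apply hg
    refine ⟨fun n hn1 hn2 => ?_, ?_⟩
    · have h6 := hN0 n (by omega)
      exact h6.1.2.trans h6.2.le
    · calc ∑ n ∈ Finset.Ico a (a + H x), d n ω
          ≤ ∑ n ∈ Finset.Ico a (a + H x), (1 + (γ / β - 1)) * cgDens w n := by
            apply Finset.sum_le_sum
            intro n hn
            rw [Finset.mem_Ico] at hn
            exact (hN0 n (by omega)).1.2
        _ = γ / β * ∑ n ∈ Finset.Ico a (a + H x), cgDens w n := by
            rw [← Finset.mul_sum]; ring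
        _ ≤ γ / β * (β * Real.log x) := mul_le_mul_of_nonneg_left (p4 a ha) (by positivity)
        _ = γ * Real.log x := by field_simp

/-- almost surely there are long runs near every large `x` -/
theorem lowerA (h : Dens μ ℱ R d) {w : ℕ → ℕ} (hm : Monotone w) (h2 : ∀ n, 2 ≤ w n)
    (hw : (fun n => Real.log (w n)) =o[atTop] (fun n : ℕ => Real.log n))
    (hd : Tendsto (fun n => cgDens w n) atTop (𝓝 0))
    (hdg : ∀ᵐ ω ∂μ, (fun n => d n ω) ~[atTop] cgDens w) :
    ∀ᵐ ω ∂μ, LowerRuns (R ω) := by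
  have h1 : ∀ᵐ ω ∂μ, ∀ k : ℕ, ∀ᶠ x : ℕ in atTop, ∃ a : ℕ, x ≤ a ∧ a ≤ 2 * x ∧
      ∀ n, a ≤ n → n < a + ⌊(1 - 1 / ((k : ℝ) + 2)) * Real.log x ^ 2⌋₊ → n ∉ R ω := by
    rw [ae_all_iff]
    intro k
    have hk : (0 : ℝ) < 1 / ((k : ℝ) + 2) := by positivity
    have hk1 : 1 / ((k : ℝ) + 2) < 1 := by
      rw [div_lt_one (by positivity)]
      have : (0 : ℝ) ≤ k := Nat.cast_nonneg k
      linarith
    have h3 := UPHM.windows hm h2 hw hk hk1
    have hlog : Tendsto (fun n : ℕ => Real.log (n : ℝ)) atTop atTop :=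
      Real.tendsto_log_atTop.comp tendsto_natCast_atTop_atTop
    filter_upwards [runsA h h2 hd hdg (show 0 < 1 - 1 / ((k : ℝ) + 2) / 2 by linarith)
      (show 1 - 1 / ((k : ℝ) + 2) / 2 < 1 - 1 / ((k : ℝ) + 2) / 4 by linarith)
      (fun x => max 1 ⌊(1 - 1 / ((k : ℝ) + 2)) * Real.log x ^ 2⌋₊)
      (fun x => le_max_left _ _)] with ω hω
    have hbig : ∀ᶠ x : ℕ in atTop, 1 ≤ ⌊(1 - 1 / ((k : ℝ) + 2)) * Real.log x ^ 2⌋₊ := by
      have hpos : 0 < 1 - 1 / ((k : ℝ) + 2) := by linarith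
      have h4 : Tendsto (fun x : ℕ => (1 - 1 / ((k : ℝ) + 2)) * Real.log (x : ℝ) ^ 2) atTop
          atTop := ((tendsto_pow_atTop two_ne_zero).comp hlog).const_mul_atTop hpos
      filter_upwards [h4.eventually_ge_atTop 1] with x hx
      exact Nat.le_floor (by exact_mod_cast hx)
    filter_upwards [hω, h3, hbig] with x hx hx3 hx4
    rw [max_eq_right hx4] at hx
    exact hx hx3
  filter_upwards [h1] with ω hω ε hε hε1
  obtain ⟨k, hk⟩ := exists_nat_one_div_lt hε
  filter_upwards [hω k] with x hx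
  obtain ⟨a, h3, h4, h5⟩ := hx
  refine ⟨a, h3, h4, fun n hn1 hn2 => h5 n hn1 (lt_of_lt_of_le hn2 ?_)⟩
  apply Nat.add_le_add_left
  apply Nat.floor_le_floor
  apply mul_le_mul_of_nonneg_right _ (by positivity)
  have h6 : 1 / ((k : ℝ) + 2) ≤ 1 / ((k : ℝ) + 1) :=
    one_div_le_one_div_of_le (by positivity) (by linarith)
  linarith

open UPHM in
/-- almost surely there is an element in `[2x, 3x]` for every large `x` -/
theorem denseA (h : Dens μ ℱ R d) {w : ℕ → ℕ} (hm : Monotone w) (h2 : ∀ n, 2 ≤ w n)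
    (hw : (fun n => Real.log (w n)) =o[atTop] (fun n : ℕ => Real.log n))
    (hdg : ∀ᵐ ω ∂μ, (fun n => d n ω) ~[atTop] cgDens w) :
    ∀ᵐ ω ∂μ, ∀ᶠ x : ℕ in atTop, ∃ n ∈ R ω, 2 * x ≤ n ∧ n ≤ 3 * x := by
  set F : ℕ → Set Ω := fun x => EmptyBig R d (2 * (x + 1)) (3 * (x + 1) + 1)
    ((((x + 1 : ℕ) : ℝ)) ^ (1 / 2 : ℝ) / 2) with hF
  have hFm : ∀ᶠ x : ℕ in atTop, μ (F x) ≤ ENNReal.ofReal ((x : ℝ) ^ (-(2 : ℝ))) := by
    have h1 := (isLittleO_log_rpow_atTop (show (0 : ℝ) < 1 / 2 by norm_num)).bound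
      (show (0 : ℝ) < 1 / 4 by norm_num)
    have h3 := tendsto_natCast_atTop_atTop.eventually h1
    filter_upwards [h3, eventually_ge_atTop 1] with x hx hx1
    have hx1' : (1 : ℝ) ≤ x := by exact_mod_cast hx1
    have hpos : (0 : ℝ) < x := by linarith
    rw [Real.norm_of_nonneg (Real.log_nonneg hx1'),
      Real.norm_of_nonneg (Real.rpow_nonneg hpos.le _)] at hx
    rw [hF]
    refine (h.measure_emptyBig (by omega) (by omega) _).trans (ENNReal.ofReal_le_ofReal ?_)
    rw [Real.rpow_def_of_pos hpos (-(2 : ℝ))]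
    apply Real.exp_le_exp.2
    have h4 : (x : ℝ) ^ (1 / 2 : ℝ) ≤ (((x + 1 : ℕ) : ℝ)) ^ (1 / 2 : ℝ) := by
      apply Real.rpow_le_rpow hpos.le _ (by norm_num)
      push_cast; linarith
    linarith
  filter_upwards [ae_eventually_notMem (tsum_ne_top hFm), hdg] with ω h1 h3
  obtain ⟨N0, hN0⟩ := eventually_atTop.1 (le_of_equiv (Eventually.of_forall (cg_nonneg h2)) h3
    (show (0 : ℝ) < 1 / 2 by norm_num))
  obtain ⟨N1, hN1⟩ := eventually_atTop.1 h1
  filter_upwards [sum_small hm h2 hw (show (0 : ℝ) < 1 / 2 by norm_num),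
      eventually_ge_atTop 3, eventually_ge_atTop N0, eventually_ge_atTop (N1 + 1),
      growth (show (0 : ℝ) < 1 / 4 by norm_num)
        (show (1 / 2 : ℝ) < 1 by norm_num)] with x hx hx3 hxN hxN1 hg
  have hx3' : (3 : ℝ) ≤ x := by exact_mod_cast hx3
  have hx0 : (0 : ℝ) < x := by linarith
  have h3 := hx (2 * x) (3 * x) (by omega) le_rfl
  rw [Finset.sum_sub_distrib] at h3
  have h5 : ∑ n ∈ Finset.Ioc (2 * x) (3 * x), (1 : ℝ) = x := by
    rw [Finset.sum_const, Nat.card_Ioc, nsmul_eq_mul, mul_one]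
    have : 3 * x - 2 * x = x := by omega
    rw [this]
  rw [h5] at h3
  have h6 : (x : ℝ) / 2 ≤ ∑ n ∈ Finset.Ioc (2 * x) (3 * x), Gra.r (w n) n / V (w n) := by
    have := (abs_le.1 h3).1
    linarith
  have hl0 : 0 < Real.log (x : ℝ) := Real.log_pos (by linarith)
  have hl1 : 1 ≤ Real.log (x : ℝ) := by
    rw [Real.le_log_iff_exp_le hx0]
    have := Real.exp_one_lt_d9
    linarith
  have hl3 : Real.log ((3 * x : ℕ) : ℝ) ≤ 2 * Real.log x := by
    have e : 2 * Real.log (x : ℝ) = Real.log ((x : ℝ) ^ 2) := by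
      rw [Real.log_pow]; norm_num
    rw [e]
    apply Real.log_le_log (by positivity)
    push_cast
    nlinarith
  have hl3' : 0 < Real.log ((3 * x : ℕ) : ℝ) := by
    apply Real.log_pos
    push_cast
    linarith
  have h7 : (x : ℝ) ^ (1 / 2 : ℝ) ≤ ∑ n ∈ Finset.Ioc (2 * x) (3 * x), cgDens w n := by
    calc (x : ℝ) ^ (1 / 2 : ℝ) ≤ (x : ℝ) / 2 / Real.log ((3 * x : ℕ) : ℝ) := by
          rw [le_div_iff₀ hl3']
          have h8 : 0 ≤ (x : ℝ) ^ (1 / 2 : ℝ) := Real.rpow_nonneg hx0.le _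
          have h9 : (x : ℝ) ^ (1 / 2 : ℝ) * Real.log ((3 * x : ℕ) : ℝ) ≤
              (x : ℝ) ^ (1 / 2 : ℝ) * (2 * Real.log x ^ 2) := by
            apply mul_le_mul_of_nonneg_left _ h8
            nlinarith
          linarith
      _ ≤ (∑ n ∈ Finset.Ioc (2 * x) (3 * x), Gra.r (w n) n / V (w n)) /
          Real.log ((3 * x : ℕ) : ℝ) := div_le_div_of_nonneg_right h6 hl3'.le
      _ = ∑ n ∈ Finset.Ioc (2 * x) (3 * x), Gra.r (w n) n / V (w n) /
          Real.log ((3 * x : ℕ) : ℝ) := Finset.sum_div _ _ _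
      _ ≤ ∑ n ∈ Finset.Ioc (2 * x) (3 * x), cgDens w n := by
          apply Finset.sum_le_sum
          intro n hn
          rw [Finset.mem_Ioc] at hn
          exact le_cg h2 (by omega) hn.2
  -- the event does not occur
  have h8 := hN1 (x - 1) (by omega)
  rw [hF] at h8
  have e1 : x - 1 + 1 = x := by omega
  simp only [e1] at h8
  by_contra hcon
  push Not at hcon
  apply h8
  refine ⟨fun n hn1 hn2 hn3 => ?_, ?_⟩
  · have := hcon n hn3 hn1
    omega
  · calc ((x : ℝ)) ^ (1 / 2 : ℝ) / 2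
        ≤ (1 - 1 / 2) * ∑ n ∈ Finset.Ioc (2 * x) (3 * x), cgDens w n := by linarith
      _ = ∑ n ∈ Finset.Ioc (2 * x) (3 * x), (1 - 1 / 2) * cgDens w n := Finset.mul_sum _ _ _
      _ ≤ ∑ n ∈ Finset.Ioc (2 * x) (3 * x), d n ω := by
          apply Finset.sum_le_sum
          intro n hn
          rw [Finset.mem_Ioc] at hn
          exact (hN0 n (by omega)).1
      _ ≤ ∑ n ∈ Finset.Ico (2 * x) (3 * x + 1), d n ω := by
          apply Finset.sum_le_sum_of_subset_of_nonneg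
          · intro n hn
            rw [Finset.mem_Ioc] at hn
            rw [Finset.mem_Ico]
            omega
          · intro n _ _
            exact h.nonneg n ω

/-- regularity is stable under equivalence -/
theorem regular_equiv {f g : ℕ → ℝ} (hg0 : ∀ n, 0 ≤ g n) (hg : Regular g) (h : f ~[atTop] g) :
    Regular f := by
  intro c hc
  have h1 := hg c hc
  rw [Metric.tendsto_atTop] at h1 ⊢
  intro ε hε
  set η : ℝ := ε / (2 * (c + 1)) with hη
  have hη0 : 0 < η := by positivity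
  obtain ⟨N1, hN1⟩ := h1 (min (ε / 2) 1) (by positivity)
  obtain ⟨N2, hN2⟩ := eventually_atTop.1 (le_of_equiv (Eventually.of_forall hg0) h hη0)
  refine ⟨max (max N1 N2) 2, fun a ha => ?_⟩
  have ha1 : N1 ≤ a := le_trans (le_trans (le_max_left _ _) (le_max_left _ _)) ha
  have ha2 : N2 ≤ a := le_trans (le_trans (le_max_right _ _) (le_max_left _ _)) ha
  have ha3 : 2 ≤ a := le_trans (le_max_right _ _) ha
  have hlog : 0 < Real.log (a : ℝ) := Real.log_pos (by exact_mod_cast (by omega : 1 < a))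
  have h3 := hN1 a ha1
  rw [Real.dist_eq] at h3 ⊢
  set SG := ∑ n ∈ Finset.Ico a (a + ⌊c * Real.log a ^ 2⌋₊), g n with hSG
  set SF := ∑ n ∈ Finset.Ico a (a + ⌊c * Real.log a ^ 2⌋₊), f n with hSF
  have h4 : |SF - SG| ≤ η * SG := by
    rw [hSF, hSG, ← Finset.sum_sub_distrib, Finset.mul_sum]
    refine (Finset.abs_sum_le_sum_abs _ _).trans (Finset.sum_le_sum (fun n hn => ?_))
    rw [Finset.mem_Ico] at hn
    have h5 := hN2 n (by omega)
    rw [abs_le]
    constructor <;> linarith [h5.1, h5.2]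
  have h5 : |SG / Real.log a - c| < ε / 2 := lt_of_lt_of_le h3 (min_le_left _ _)
  have h6 : SG / Real.log a < c + 1 := by
    have := (abs_lt.1 (lt_of_lt_of_le h3 (min_le_right _ _))).2
    linarith
  have h7 : |SF / Real.log a - SG / Real.log a| ≤ η * (SG / Real.log a) := by
    rw [← sub_div, abs_div, abs_of_pos hlog, mul_div_assoc']
    exact div_le_div_of_nonneg_right h4 hlog.le
  have h8 : η * (SG / Real.log a) < ε / 2 := by
    have h9 : η * (SG / Real.log a) < η * (c + 1) := mul_lt_mul_of_pos_left h6 hη0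
    have h10 : η * (c + 1) = ε / 2 := by rw [hη]; field_simp
    linarith
  calc |SF / Real.log a - c| = |(SF / Real.log a - SG / Real.log a) +
        (SG / Real.log a - c)| := by congr 1; ring
    _ ≤ |SF / Real.log a - SG / Real.log a| + |SG / Real.log a - c| := abs_add_le _ _
    _ < ε := by linarith

end ADPM

open ADPM UPHM in
/-- **Theorem.** The threshold for adapted random sets. -/
theorem ADPM.main {w : ℕ → ℕ} (hm : Monotone w) (h2 : ∀ n, 2 ≤ w n)
    (hw : (fun n => Real.log (w n)) =o[atTop] (fun n : ℕ => Real.log n)) :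
    ∃ c : ℝ, 0 < c ∧ c < 1 ∧ ∀ (Ω : Type u) (m0 : MeasurableSpace Ω) (μ : Measure Ω)
      (_ : IsProbabilityMeasure μ) (ℱ : Filtration ℕ m0) (R : Ω → Set ℕ) (d : ℕ → Ω → ℝ),
      Dens μ ℱ R d → (∀ᵐ ω ∂μ, (fun n => d n ω) ~[atTop] cgDens w) →
      (∀ᵐ ω ∂μ, ∀ ε : ℝ, 0 < ε → ∀ᶠ g : ℕ in atTop,
        {p : ℕ | p ∈ R ω ∧ ∀ i : ℕ, 1 ≤ i → i ≤ g → (1 < p - i ∧ p - i ∉ R ω)}.Nonempty ∧
        Real.log (firstElt (R ω) g) ≤ (1 + ε) * Real.sqrt g) ∧
      ((fun n => Real.log (w n)) =o[atTop] (fun n : ℕ => Real.log (Real.log n)) →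
        ∀ᵐ ω ∂μ, ShanksLaw (R ω)) ∧
      (¬ (fun n => Real.log (w n)) =o[atTop] (fun n : ℕ => Real.log (Real.log n)) →
        ∀ᵐ ω ∂μ, ¬ ShanksLaw (R ω) ∧ ∃ᶠ g : ℕ in atTop,
          {p : ℕ | p ∈ R ω ∧ ∀ i : ℕ, 1 ≤ i → i ≤ g → (1 < p - i ∧ p - i ∉ R ω)}.Nonempty ∧
          Real.log (firstElt (R ω) g) ≤ c * Real.sqrt g) := by
  have hz : Tendsto (fun n => cgDens w n) atTop (𝓝 0) := All.hCGZ w h2 hw
  have hupper : ∀ (Ω : Type u) (m0 : MeasurableSpace Ω) (μ : Measure Ω)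
      (_ : IsProbabilityMeasure μ) (ℱ : Filtration ℕ m0) (R : Ω → Set ℕ) (d : ℕ → Ω → ℝ),
      Dens μ ℱ R d → (∀ᵐ ω ∂μ, (fun n => d n ω) ~[atTop] cgDens w) →
      ∀ᵐ ω ∂μ, (∀ ε : ℝ, 0 < ε → ∀ᶠ g : ℕ in atTop,
        {p : ℕ | p ∈ R ω ∧ ∀ i : ℕ, 1 ≤ i → i ≤ g → (1 < p - i ∧ p - i ∉ R ω)}.Nonempty ∧
        Real.log (firstElt (R ω) g) ≤ (1 + ε) * Real.sqrt g) ∧ ∀ N : ℕ, ∃ n ∈ R ω, N ≤ n := by
    intro Ω m0 μ hμ ℱ R d hD hdg
    filter_upwards [lowerA hD hm h2 hw hz hdg, denseA hD hm h2 hw hdg] with ω h3 h4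
    refine ⟨fun ε hε => UPHM.upper h4 h3 ε hε, fun N => ?_⟩
    obtain ⟨x, ⟨n, h5, h6, -⟩, hx⟩ := (h4.and (eventually_ge_atTop N)).exists
    exact ⟨n, h5, by omega⟩
  by_cases ho : (fun n => Real.log (w n)) =o[atTop] (fun n : ℕ => Real.log (Real.log n))
  · refine ⟨1 / 2, by norm_num, by norm_num, ?_⟩
    intro Ω m0 μ hμ ℱ R d hD hdg
    have hreg := Gra.regular hm h2 ho (cgDens w) (Eventually.of_forall (fun n => rfl))
    refine ⟨?_, fun _ => ?_, fun hh => absurd ho hh⟩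
    · filter_upwards [hupper Ω m0 μ hμ ℱ R d hD hdg] with ω h3
      exact h3.1
    · apply hD.shanks
      · filter_upwards [hdg] with ω h3
        exact h3.symm.tendsto_nhds hz
      · filter_upwards [hdg] with ω h3
        exact regular_equiv (cg_nonneg h2) hreg.2 h3
  · obtain ⟨ε, β, β', hε, hβ, hββ, hfr⟩ := All.hSEL w hm h2 hw ho
    have hs1 : 1 < Real.sqrt (1 + ε / 2) := by
      rw [Real.lt_sqrt (by norm_num)]
      linarith
    refine ⟨1 / Real.sqrt (1 + ε / 2), by positivity, ?_, ?_⟩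
    · rw [div_lt_one (by linarith)]
      exact hs1
    intro Ω m0 μ hμ ℱ R d hD hdg
    have hup := hupper Ω m0 μ hμ ℱ R d hD hdg
    refine ⟨?_, fun h => absurd h ho, fun _ => ?_⟩
    · filter_upwards [hup] with ω h3
      exact h3.1
    · have hrun := runsA hD h2 hz hdg hβ hββ
        (fun x => max 1 ⌊(1 + ε) * Real.log x ^ 2⌋₊) (fun x => le_max_left _ _)
      filter_upwards [hup, hrun] with ω h3 h4
      have hbig : ∀ᶠ x : ℕ in atTop, 1 ≤ ⌊(1 + ε) * Real.log x ^ 2⌋₊ := by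
        have hlog : Tendsto (fun n : ℕ => Real.log (n : ℝ)) atTop atTop :=
          Real.tendsto_log_atTop.comp tendsto_natCast_atTop_atTop
        have h5 : Tendsto (fun x : ℕ => (1 + ε) * Real.log (x : ℝ) ^ 2) atTop
            atTop := ((tendsto_pow_atTop two_ne_zero).comp hlog).const_mul_atTop (by linarith)
        filter_upwards [h5.eventually_ge_atTop 1] with x hx
        exact Nat.le_floor (by exact_mod_cast hx)
      have hfreq : ∃ᶠ x : ℕ in atTop, ∃ a : ℕ, x ≤ a ∧ a ≤ 2 * x ∧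
          ∀ n, a ≤ n → n < a + ⌊(1 + ε) * Real.log x ^ 2⌋₊ → n ∉ R ω := by
        refine (hfr.and_eventually (h4.and hbig)).mono ?_
        rintro x ⟨⟨I, hI⟩, h5, h6⟩
        rw [max_eq_right h6] at h5
        exact h5 ⟨I, hI⟩
      exact ⟨specDTF _ ε hε hfreq, DTFBM.runs hε h3.2 hfreq⟩

end Pool.Agent.Lib.MP_926cc3_nt.TH
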