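import Pool.Agent.Lib.MP_926cc3_nt.TH.Spec

/-!
# MP_926cc3_nt TH: FLG, the increments of `G z` at a high level
-/

set_option autoImplicit false

open Filter Topology

namespace Pool.Agent.Lib.MP_926cc3_nt.TH

open Pool.Agent.Lib.MP_926cc3_nt.RS

namespace FLGM

theorem V_le_one (z : ℕ) : V z ≤ 1 := by
  unfold V
  apply Finset.prod_le_one
  · intro p hp
    rw [Finset.mem_filter] at hp
    have h2 : (1 : ℝ) ≤ p := by exact_mod_cast hp.2.one_le
    rw [sub_nonneg, div_le_one (by linarith)]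
    exact h2
  · intro p hp
    have : 0 ≤ 1 / (p : ℝ) := by positivity
    linarith

theorem G_mono_diff (z : ℕ) (x1 x2 : ℕ) (h : x1 ≤ x2) :
    ∑ n ∈ Finset.Ioc 0 x2, r z n / n - ∑ n ∈ Finset.Ioc 0 x1, r z n / n =
      ∑ n ∈ Finset.Ioc x1 x2, r z n / n := by
  rw [← Finset.sum_Ioc_consecutive _ (Nat.zero_le x1) h]
  ring

/-- `-log (1-u) ≤ 2u` -/
theorem neg_log_one_sub (u : ℝ) (h0 : 0 ≤ u) (h1 : u ≤ 1 / 2) : -(2 * u) ≤ Real.log (1 - u) := by
  have h2 : 0 < 1 - u := by linarith
  have h3 := Real.one_sub_inv_le_log_of_pos h2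
  have h4 : (1 - u)⁻¹ ≤ 1 + 2 * u := by
    rw [inv_le_comm₀ h2 (by linarith), inv_le_iff_one_le_mul₀' (by linarith)]
    nlinarith
  linarith

theorem core (C0 : ℝ) (hC0 : 0 < C0) (hint : ∀ (b w a e : ℕ), 2 ≤ w → a ≤ e →
    |∑ n ∈ Finset.Ioc a e, Gra.r w n - ((e : ℝ) - a) * V w| ≤
      C0 * Real.exp (-(b : ℝ)) * ((e : ℝ) - a) * V w + C0 * (w : ℝ) ^ (8 * b + 17))
    (hWLG : SpecWLG) (b : ℕ) (t1 t2 η : ℝ) (ht1 : 8 * (b : ℝ) + 21 ≤ t1) (ht : t1 < t2)
    (hη : 0 < η) (z : ℕ) (hz : 2 ≤ z) (h1z : C0 / z ≤ η) (h2z : 3 / (z : ℝ) ≤ η)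
    (h3z : (1 + 2 * C0) * (4 / (z : ℝ)) ≤ η) :
    (1 - C0 * Real.exp (-(b : ℝ)) - η) * (V z * Real.log z) * (t2 - t1) - η ≤ G z t2 - G z t1 ∧
    G z t2 - G z t1 ≤ (1 + C0 * Real.exp (-(b : ℝ)) + η) * (V z * Real.log z) * (t2 - t1) + η := by
  have hz2 : (2 : ℝ) ≤ z := by exact_mod_cast hz
  have hz0 : (0 : ℝ) < z := by linarith
  have hL : 0 < Real.log z := Real.log_pos (by linarith)
  have hV := Gra.V_pos z hz
  have hV1 := V_le_one z
  have hVi := Gra.V_inv_le z hz
  set E := C0 * Real.exp (-(b : ℝ)) with hE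
  have hE0 : 0 < E := by positivity
  have hEle : E ≤ C0 := by
    have : Real.exp (-(b : ℝ)) ≤ 1 := by
      rw [Real.exp_le_one_iff]
      have : (0 : ℝ) ≤ b := Nat.cast_nonneg b
      linarith
    have := mul_le_mul_of_nonneg_left this hC0.le
    linarith
  set H : ℕ := z ^ (8 * b + 19) with hH
  have hH1 : 1 ≤ H := Nat.one_le_pow _ _ (by omega)
  have hH0 : (0 : ℝ) < H := by exact_mod_cast hH1
  set X1 := Real.exp (t1 * Real.log z) with hX1
  set X2 := Real.exp (t2 * Real.log z) with hX2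
  have hX1p : 0 < X1 := Real.exp_pos _
  have hX2p : 0 < X2 := Real.exp_pos _
  have hzpow : ∀ k : ℕ, Real.exp ((k : ℝ) * Real.log z) = (z : ℝ) ^ k := by
    intro k
    rw [Real.exp_nat_mul, Real.exp_log hz0]
  have hX1ge : (z : ℝ) ^ (8 * b + 21) ≤ X1 := by
    rw [← hzpow, hX1, Real.exp_le_exp]
    apply mul_le_mul_of_nonneg_right _ hL.le
    push_cast
    exact ht1
  have hX12 : X1 < X2 := by
    rw [hX1, hX2, Real.exp_lt_exp]
    exact mul_lt_mul_of_pos_right ht hL
  set x1 := ⌊X1⌋₊ with hx1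
  set x2 := ⌊X2⌋₊ with hx2
  have hx12 : x1 ≤ x2 := Nat.floor_le_floor hX12.le
  have hx1ge : z ^ (8 * b + 21) ≤ x1 := by
    rw [hx1]
    apply Nat.le_floor
    push_cast
    exact hX1ge
  have hHz : z ^ 2 * H = z ^ (8 * b + 21) := by
    rw [hH, ← pow_add]
    congr 1
    ring
  have hHzr : (z : ℝ) ^ 2 * H ≤ X1 := by
    have : (z : ℝ) ^ 2 * H = (z : ℝ) ^ (8 * b + 21) := by exact_mod_cast hHz
    rw [this]
    exact hX1ge
  have hz4 : 4 ≤ z ^ 2 := by nlinarith
  have hHx : H < x1 := by
    have : 4 * H ≤ z ^ 2 * H := Nat.mul_le_mul_right _ hz4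
    omega
  have hx1le : (x1 : ℝ) ≤ X1 := Nat.floor_le hX1p.le
  have hx2le : (x2 : ℝ) ≤ X2 := Nat.floor_le hX2p.le
  have hx1lt : X1 < x1 + 1 := Nat.lt_floor_add_one X1
  have hx2lt : X2 < x2 + 1 := Nat.lt_floor_add_one X2
  have hx1p : (0 : ℝ) < x1 := by exact_mod_cast (by omega : 0 < x1)
  have hx2p : (0 : ℝ) < x2 := by exact_mod_cast (by omega : 0 < x2)
  have hHx' : (H : ℝ) < x1 := by exact_mod_cast hHx
  have hG : G z t2 - G z t1 = ∑ n ∈ Finset.Ioc x1 x2, r z n / n := by
    unfold G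
    exact G_mono_diff z x1 x2 hx12
  have hG0 : 0 ≤ G z t2 - G z t1 := by
    rw [hG]
    apply Finset.sum_nonneg
    intro n _
    exact div_nonneg (Gra.r_nonneg z n) (Nat.cast_nonneg n)
  -- windows
  have hpw : (z : ℝ) ^ (8 * b + 17) ≤ H * V z / z := by
    have e : (H : ℝ) = (z : ℝ) ^ (8 * b + 17) * z ^ 2 := by
      rw [hH]; push_cast; rw [← pow_add]
    rw [le_div_iff₀ hz0, e]
    have h5 : 1 ≤ z * V z := by
      have := mul_le_mul_of_nonneg_right hVi hV.le
      rwa [inv_mul_cancel₀ hV.ne'] at this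
    calc (z : ℝ) ^ (8 * b + 17) * z = (z : ℝ) ^ (8 * b + 17) * z * 1 := by ring
      _ ≤ (z : ℝ) ^ (8 * b + 17) * z * (z * V z) := by
          apply mul_le_mul_of_nonneg_left h5 (by positivity)
      _ = _ := by ring
  have hwin : ∀ a : ℕ, |∑ n ∈ Finset.Ioc a (a + H), r z n - H * V z| ≤
      (E + C0 / z) * (H * V z) := by
    intro a
    have h5 := hint b z a (a + H) hz (by omega)
    have e1 : (((a + H : ℕ) : ℝ) - a) = H := by push_cast; ring
    rw [e1] at h5
    refine h5.trans ?_
    have h6 := mul_le_mul_of_nonneg_left hpw hC0.le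
    calc C0 * Real.exp (-(b : ℝ)) * H * V z + C0 * (z : ℝ) ^ (8 * b + 17)
        ≤ E * H * V z + C0 * (H * V z / z) := by rw [hE]; linarith
      _ = _ := by ring
  have hWl := hWLG (fun n => r z n) H x1 x2 ((1 - (E + C0 / z)) * V z) (fun n => Gra.r_nonneg z n)
  have hWu := hWLG (fun n => r z n) H x1 x2 ((1 + (E + C0 / z)) * V z) (fun n => Gra.r_nonneg z n)
    (by positivity) hH1 hHx hx12
  have hCz : 0 < C0 / z := by positivity
  have hd : 0 < t2 - t1 := by linarith
  have hLd : 0 < V z * Real.log z * (t2 - t1) := by positivity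
  constructor
  · by_cases hneg : 1 - (E + C0 / z) < 0
    · have h5 : (1 - E - η) * (V z * Real.log z * (t2 - t1)) ≤ 0 := by
        apply mul_nonpos_of_nonpos_of_nonneg _ hLd.le
        linarith
      have e : (1 - E - η) * (V z * Real.log z) * (t2 - t1) =
        (1 - E - η) * (V z * Real.log z * (t2 - t1)) := by ring
      rw [e]
      linarith
    · rw [not_lt] at hneg
      have h6 := (hWl (by positivity) hH1 hHx hx12).1 (by
        intro a _ _
        have := (abs_le.1 (hwin a)).1
        have e : (1 - (E + C0 / z)) * V z * H = H * V z - (E + C0 / z) * (H * V z) := by ring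
        rw [e]
        linarith)
      rw [← hG] at h6
      have h7 : (t2 - t1) * Real.log z - 3 / z ≤ Real.log ((x2 : ℝ) / ((x1 : ℝ) + H)) := by
        rw [Real.log_div hx2p.ne' (by positivity)]
        -- x2 ≥ X2 (1 - 1/z)
        have hX2z : (z : ℝ) ≤ X2 := by
          have h8 : (z : ℝ) ^ 1 ≤ (z : ℝ) ^ (8 * b + 21) := pow_le_pow_right₀ (by linarith) (by omega)
          rw [pow_one] at h8
          linarith
        have h9 : X2 * (1 - 1 / z) ≤ x2 := by
          have : 1 ≤ X2 * (1 / z) := by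
            rw [mul_one_div, le_div_iff₀ hz0]
            linarith
          linarith
        have hi : 1 / (z : ℝ) ≤ 1 / 2 := one_div_le_one_div_of_le (by norm_num) hz2
        have h10 : Real.log (X2 * (1 - 1 / z)) ≤ Real.log x2 := by
          apply Real.log_le_log _ h9
          apply mul_pos hX2p
          linarith
        have h11 : Real.log (X2 * (1 - 1 / z)) = t2 * Real.log z + Real.log (1 - 1 / z) := by
          rw [Real.log_mul hX2p.ne' (by linarith), hX2, Real.log_exp]
        have h12 := neg_log_one_sub (1 / (z : ℝ)) (by positivity) hi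
        have h13 : (x1 : ℝ) + H ≤ X1 * (1 + 1 / z) := by
          have : (H : ℝ) ≤ X1 * (1 / z) := by
            rw [mul_one_div, le_div_iff₀ hz0]
            have h21 : (H : ℝ) * z * 1 ≤ H * z * z :=
              mul_le_mul_of_nonneg_left (by linarith) (by positivity)
            have h22 : (z : ℝ) ^ 2 * H = H * z * z := by ring
            linarith
          linarith
        have h14 : Real.log ((x1 : ℝ) + H) ≤ Real.log (X1 * (1 + 1 / z)) :=
          Real.log_le_log (by positivity) h13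
        have h15 : Real.log (X1 * (1 + 1 / z)) = t1 * Real.log z + Real.log (1 + 1 / z) := by
          rw [Real.log_mul hX1p.ne' (by positivity), hX1, Real.log_exp]
        have h16 := Real.log_le_sub_one_of_pos (show 0 < 1 + 1 / (z : ℝ) by positivity)
        have e3 : 3 / (z : ℝ) = 2 * (1 / z) + 1 / z := by ring
        rw [e3]
        linarith
      have h8 : (1 - (E + C0 / z)) * V z * ((t2 - t1) * Real.log z - 3 / z) ≤ G z t2 - G z t1 := by
        refine le_trans ?_ h6
        exact mul_le_mul_of_nonneg_left h7 (by positivity)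
      have h9 : (1 - (E + C0 / z)) * V z * (3 / z) ≤ η := by
        have h10 : (1 - (E + C0 / z)) * V z ≤ 1 := by
          calc (1 - (E + C0 / z)) * V z ≤ 1 * 1 := by
                apply mul_le_mul _ hV1 hV.le zero_le_one
                linarith
            _ = 1 := one_mul 1
        calc (1 - (E + C0 / z)) * V z * (3 / z) ≤ 1 * (3 / z) :=
              mul_le_mul_of_nonneg_right h10 (by positivity)
          _ ≤ η := by rw [one_mul]; exact h2z
      have h11 : (1 - E - η) * (V z * Real.log z * (t2 - t1)) ≤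
          (1 - (E + C0 / z)) * (V z * Real.log z * (t2 - t1)) := by
        apply mul_le_mul_of_nonneg_right _ hLd.le
        linarith
      calc (1 - E - η) * (V z * Real.log z) * (t2 - t1) - η
          = (1 - E - η) * (V z * Real.log z * (t2 - t1)) - η := by ring
        _ ≤ (1 - (E + C0 / z)) * (V z * Real.log z * (t2 - t1)) -
            (1 - (E + C0 / z)) * V z * (3 / z) := by linarith
        _ = (1 - (E + C0 / z)) * V z * ((t2 - t1) * Real.log z - 3 / z) := by ring
        _ ≤ _ := h8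
  · have h6 := hWu.2 (by
      intro a _ _
      have := (abs_le.1 (hwin a)).2
      have e : (1 + (E + C0 / z)) * V z * H = H * V z + (E + C0 / z) * (H * V z) := by ring
      rw [e]
      linarith)
    rw [← hG] at h6
    have h7 : Real.log ((x2 : ℝ) / ((x1 : ℝ) - H)) ≤ (t2 - t1) * Real.log z + 4 / z := by
      rw [Real.log_div hx2p.ne' (by linarith)]
      have h10 : Real.log x2 ≤ t2 * Real.log z := by
        have := Real.log_le_log hx2p hx2le
        rwa [hX2, Real.log_exp] at this
      have hi : 1 / (z : ℝ) ≤ 1 / 2 := one_div_le_one_div_of_le (by norm_num) hz2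
      have h8 : (z : ℝ) * (1 + H) ≤ X1 := by
        have h9 : (z : ℝ) ^ 2 * H = z * (z * H) := by ring
        have h10 : (1 : ℝ) ≤ H := by exact_mod_cast hH1
        have h11 : 1 + (H : ℝ) ≤ z * H := by
          have := mul_le_mul_of_nonneg_right hz2 hH0.le
          linarith
        have h12 := mul_le_mul_of_nonneg_left h11 hz0.le
        linarith
      have h9 : X1 * (1 - 1 / z) ≤ (x1 : ℝ) - H := by
        have : 1 + (H : ℝ) ≤ X1 * (1 / z) := by
          rw [mul_one_div, le_div_iff₀ hz0]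
          linarith
        linarith
      have h11 : Real.log (X1 * (1 - 1 / z)) = t1 * Real.log z + Real.log (1 - 1 / z) := by
        rw [Real.log_mul hX1p.ne' (by linarith), hX1, Real.log_exp]
      have h12 := neg_log_one_sub (1 / (z : ℝ)) (by positivity) hi
      have h13 : Real.log (X1 * (1 - 1 / z)) ≤ Real.log ((x1 : ℝ) - H) := by
        apply Real.log_le_log _ h9
        apply mul_pos hX1p
        linarith
      have e3 : 4 / (z : ℝ) = 2 * (1 / z) + 2 * (1 / z) := by ring
      have hpos : (0 : ℝ) ≤ 1 / z := by positivity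
      rw [e3]
      linarith
    have h8 : G z t2 - G z t1 ≤ (1 + (E + C0 / z)) * V z * ((t2 - t1) * Real.log z + 4 / z) := by
      refine h6.trans ?_
      exact mul_le_mul_of_nonneg_left h7 (by positivity)
    have hCz1 : C0 / z ≤ C0 := by
      rw [div_le_iff₀ hz0]
      have := mul_le_mul_of_nonneg_left hz2 hC0.le
      linarith
    have h9 : (1 + (E + C0 / z)) * V z * (4 / z) ≤ η := by
      have h10 : (1 + (E + C0 / z)) * V z ≤ 1 + 2 * C0 := by
        calc (1 + (E + C0 / z)) * V z ≤ (1 + 2 * C0) * 1 := by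
              apply mul_le_mul _ hV1 hV.le (by positivity)
              linarith
          _ = 1 + 2 * C0 := mul_one _
      calc (1 + (E + C0 / z)) * V z * (4 / z) ≤ (1 + 2 * C0) * (4 / z) :=
            mul_le_mul_of_nonneg_right h10 (by positivity)
        _ ≤ η := h3z
    have h11 : (1 + (E + C0 / z)) * (V z * Real.log z * (t2 - t1)) ≤
        (1 + E + η) * (V z * Real.log z * (t2 - t1)) := by
      apply mul_le_mul_of_nonneg_right _ hLd.le
      linarith
    calc G z t2 - G z t1 ≤ (1 + (E + C0 / z)) * V z * ((t2 - t1) * Real.log z + 4 / z) := h8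
      _ = (1 + (E + C0 / z)) * (V z * Real.log z * (t2 - t1)) +
          (1 + (E + C0 / z)) * V z * (4 / z) := by ring
      _ ≤ (1 + E + η) * (V z * Real.log z * (t2 - t1)) + η := by linarith
      _ = _ := by ring

theorem ev_div (A η : ℝ) (hη : 0 < η) : ∀ᶠ z : ℕ in atTop, A / (z : ℝ) ≤ η := by
  have h : Tendsto (fun z : ℕ => A / (z : ℝ)) atTop (𝓝 0) :=
    tendsto_const_div_atTop_nhds_zero_nat A
  exact (h.eventually (gt_mem_nhds hη)).mono (fun z hz => hz.le)

end FLGM

open FLGM in
theorem specFLG (hWLG : SpecWLG) : SpecFLG := by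
  obtain ⟨C0, hC0, hint⟩ := Gra.interval
  refine ⟨C0, hC0, ?_⟩
  intro b t1 t2 η ht1 ht hη
  filter_upwards [eventually_ge_atTop 2, ev_div C0 η hη, ev_div 3 η hη,
    ev_div ((1 + 2 * C0) * 4) η hη] with z hz h1 h2 h3
  exact core C0 hC0 hint hWLG b t1 t2 η ht1 ht hη z hz h1 h2 (by rwa [← mul_div_assoc])

end Pool.Agent.Lib.MP_926cc3_nt.TH
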