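import Pool.Agent.Lib.MP_926cc3_nt.TH.GRO
import Pool.Agent.Lib.MP_3efbeb_nt.GU.Exm

/-!
# MP_926cc3_nt: the threshold in the sieve of growing level, higher levels
-/

set_option autoImplicit false
set_option linter.unusedSectionVars false
set_option linter.unusedVariables false

open Filter Topology MeasureTheory ProbabilityTheory Asymptotics

namespace Pool.Agent.Lib.MP_926cc3_nt.TH

open Pool.Agent.Lib.MP_926cc3_nt.RS Pool.Agent.Lib.MP_3efbeb_nt.GL
  Pool.Agent.Lib.MP_3efbeb_nt.RST Pool.Agent.Lib.MP_3efbeb_nt.GU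

universe u

namespace GR2M

open GROM

variable {W : ℕ → ℕ}

theorem equiv_cg' (hW : Good W) : gW W =ᶠ[atTop] cgDens (lw W) := by
  filter_upwards [hW.lt, eventually_ge_atTop 2] with n h1 h2
  exact gW_eq h2 (by omega)

theorem lw_log' (hW : Tame W) :
    (fun n => Real.log (lw W n)) =o[atTop] (fun n : ℕ => Real.log n) := by
  rw [isLittleO_iff]
  intro ε hε
  obtain ⟨A, hA⟩ := exists_nat_gt (1 / ε)
  have hA0 : 0 < A := by
    rcases Nat.eq_zero_or_pos A with h | h
    · rw [h] at hA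
      have : 0 < 1 / ε := by positivity
      simp only [CharP.cast_eq_zero] at hA
      linarith
    · exact h
  have hA' : (1 : ℝ) ≤ A := by exact_mod_cast hA0
  filter_upwards [hW.pow A 1 one_pos, tlog.eventually_ge_atTop (2 * (2 * Real.log 2) / ε),
    eventually_ge_atTop 3] with n h1 h2 h3
  have hn3 : (3 : ℝ) ≤ n := by exact_mod_cast h3
  have hl : 0 < Real.log (n : ℝ) := Real.log_pos (by linarith)
  have hl2 : 0 < Real.log 2 := Real.log_pos (by norm_num)
  rw [Real.norm_of_nonneg (log_lw_nonneg W n), Real.norm_of_nonneg hl.le]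
  refine (log_lw_le W n).trans ?_
  have h5 : Real.log ((W n : ℝ) + 1) ≤ Real.log 2 + ε / 2 * Real.log n := by
    rcases Nat.eq_zero_or_pos (W n) with h6 | h6
    · rw [h6]
      simp only [CharP.cast_eq_zero, zero_add, Real.log_one]
      positivity
    · have h7 : (1 : ℝ) ≤ W n := by exact_mod_cast h6
      have h8 : Real.log ((W n : ℝ) + 1) ≤ Real.log 2 + Real.log (W n) := by
        rw [← Real.log_mul (by norm_num) (by linarith)]
        exact Real.log_le_log (by linarith) (by linarith)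
      have h9 : ((W n : ℝ)) ^ A ≤ Real.sqrt n := by
        rw [one_mul] at h1
        refine le_trans (pow_le_pow_left₀ (Nat.cast_nonneg _) ?_ A) h1
        exact_mod_cast hW.mono (by omega)
      have h10 := Real.log_le_log (by positivity) h9
      rw [Real.log_pow, Real.log_sqrt (by linarith)] at h10
      have h11 : Real.log (W n) ≤ ε / 2 * Real.log n := by
        have h12 : 0 ≤ Real.log (W n : ℝ) := Real.log_nonneg h7
        rw [div_lt_iff₀ hε] at hA
        have h13 : Real.log (W n : ℝ) ≤ ε * ((A : ℝ) * Real.log (W n)) := by nlinarith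
        have h14 := mul_le_mul_of_nonneg_left h10 hε.le
        linarith
      linarith
  rw [div_le_iff₀ hε] at h2
  linarith

/-- every level is small on the logarithmic scale -/
theorem lw_log_level (X : HX) (h : IsLevel W) :
    (fun n => Real.log (lw W n)) =o[atTop] (fun n : ℕ => Real.log n) := by
  by_cases ht : Tendsto W atTop atTop
  · obtain ⟨b, C, hR⟩ := reg_of_level h ht
    exact lw_log' (X.tam W b C hR)
  · obtain ⟨w, hw⟩ := ev_const_of_not_top h.1 ht
    exact lw_log (lev_of_const h.1 hw)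

/-- **Theorem.** The threshold in the sieve of level `W`. -/
theorem main (X : HX) (h : IsLevel W) : ∃ c : ℝ, 0 < c ∧ c < 1 ∧
    ∀ (Ω : Type u) [MeasurableSpace Ω] (μ : Measure Ω) [IsProbabilityMeasure μ]
      (A : ℕ → ℕ → Set Ω), (∀ m n, MeasurableSet (A m n)) →
      iIndepSet (fun q : ℕ × ℕ => A q.1 q.2) μ →
      (∀ m n, W n < m → m < n → μ.real (A m n) = 1 / m) →
      (∀ᵐ ω ∂μ, ∀ ε : ℝ, 0 < ε → ∀ᶠ g : ℕ in atTop,
        {p : ℕ | p ∈ growSet W A ω ∧
          ∀ i : ℕ, 1 ≤ i → i ≤ g → (1 < p - i ∧ p - i ∉ growSet W A ω)}.Nonempty ∧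
        Real.log (firstElt (growSet W A ω) g) ≤ (1 + ε) * Real.sqrt g) ∧
      ((fun n => Real.log ((W n : ℝ) + 1)) =o[atTop] (fun n : ℕ => Real.log (Real.log n)) →
        ∀ᵐ ω ∂μ, ShanksLaw (growSet W A ω)) ∧
      (¬ (fun n => Real.log ((W n : ℝ) + 1)) =o[atTop]
          (fun n : ℕ => Real.log (Real.log n)) →
        ∀ᵐ ω ∂μ, ¬ ShanksLaw (growSet W A ω) ∧ ∃ᶠ g : ℕ in atTop,
          {p : ℕ | p ∈ growSet W A ω ∧
            ∀ i : ℕ, 1 ≤ i → i ≤ g → (1 < p - i ∧ p - i ∉ growSet W A ω)}.Nonempty ∧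
          Real.log (firstElt (growSet W A ω) g) ≤ c * Real.sqrt g) := by
  have hG := good_level X h
  obtain ⟨c, hc0, hc1, hc⟩ := ADPM.main.{u} (lw_mono hG.mono) two_le_lw (lw_log_level X h)
  refine ⟨c, hc0, hc1, ?_⟩
  intro Ω m0 μ hμ A hA hI hP
  have hdg : ∀ᵐ ω ∂μ, (fun n => dW W A n ω) ~[atTop] cgDens (lw W) := by
    filter_upwards [dens_ae' (μ := μ) hG hA hI hP] with ω hω
    exact hω.congr_right (equiv_cg' hG)
  have h1 := hc Ω m0 μ hμ _ _ _ (Sv.dens (μ := μ) hA hI hP) hdg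
  rw [lw_loglog_iff] at h1
  exact h1

/-- the level `max N ⌊exp ((log n) ^ a)⌋` lies above the threshold -/
theorem exp_above (N : ℕ) {a : ℝ} (ha : 0 < a) :
    ¬ (fun n : ℕ => Real.log ((EXMM.expLevel N a n : ℝ) + 1)) =o[atTop]
      (fun n : ℕ => Real.log (Real.log n)) := by
  intro h
  have h1 := h.def (show (0 : ℝ) < 1 by norm_num)
  have h2 : (fun n : ℕ => Real.log (Real.log (n : ℝ))) =o[atTop]
      (fun n : ℕ => Real.log (n : ℝ) ^ a) :=
    (isLittleO_log_rpow_atTop ha).comp_tendsto tlog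
  have h3 := h2.def (show (0 : ℝ) < 1 / 2 by norm_num)
  obtain ⟨n, hn, hn2, hn3, hn4⟩ := (h1.and (h3.and
    ((tllog.eventually_ge_atTop 1).and ((EXMM.tpow ha).eventually_ge_atTop 1)))).exists
  rw [Real.norm_of_nonneg (show 0 ≤ Real.log (Real.log (n : ℝ)) by linarith)] at hn hn2
  rw [Real.norm_of_nonneg (show 0 ≤ Real.log (n : ℝ) ^ a by linarith)] at hn2
  have h4 : Real.log (n : ℝ) ^ a ≤ Real.log ((EXMM.expLevel N a n : ℝ) + 1) := by
    rw [Real.le_log_iff_exp_le (by positivity)]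
    unfold EXMM.expLevel
    push_cast
    have h5 := (Nat.lt_floor_add_one (Real.exp (Real.log (n : ℝ) ^ a))).le
    have h6 := le_max_right (N : ℝ) (⌊Real.exp (Real.log (n : ℝ) ^ a)⌋₊ : ℝ)
    linarith
  have h5 := (le_abs_self _).trans hn
  linarith

end GR2M

end Pool.Agent.Lib.MP_926cc3_nt.TH
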