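import Pool.Agent.Lib.MP_926cc3_nt.TH.ADP
import Pool.Agent.Lib.MP_3efbeb_nt.GL.Main

/-!
# MP_926cc3_nt: the threshold in the sieve of growing level
-/

set_option autoImplicit false
set_option linter.unusedSectionVars false
set_option linter.unusedVariables false

open Filter Topology MeasureTheory ProbabilityTheory Asymptotics

namespace Pool.Agent.Lib.MP_926cc3_nt.TH

open Pool.Agent.Lib.MP_926cc3_nt.RS Pool.Agent.Lib.MP_3efbeb_nt.GL
  Pool.Agent.Lib.MP_3efbeb_nt.RST

universe u

namespace GROM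

/-- the level of the Cramér–Granville model -/
def lw (W : ℕ → ℕ) (n : ℕ) : ℕ := max 2 (W n + 1)

variable {W : ℕ → ℕ}

theorem two_le_lw (n : ℕ) : 2 ≤ lw W n := le_max_left _ _

theorem lw_mono (hW : Monotone W) : Monotone (lw W) := by
  intro a b hab
  unfold lw
  exact max_le_max le_rfl (Nat.add_le_add_right (hW hab) 1)

theorem V_lw (W : ℕ → ℕ) (n : ℕ) : V (lw W n) = Path.theta (W n) := by
  unfold lw
  rcases Nat.eq_zero_or_pos (W n) with h | h
  · rw [h, theta_zero]
    unfold V
    apply Finset.prod_eq_one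
    intro p hp
    rw [Finset.mem_filter, Finset.mem_range] at hp
    have := hp.2.two_le
    have h2 := hp.1
    simp at h2
    omega
  · rw [max_eq_right (by omega), theta_eq]
    rfl

theorem noSmall_iff {n : ℕ} : NoSmall (lw W n) n ↔ (primorial (W n)).Coprime n := by
  unfold NoSmall lw
  rw [primorial, Nat.coprime_prod_left_iff]
  constructor
  · intro h p hp
    rw [Finset.mem_filter, Finset.mem_range] at hp
    rw [hp.2.coprime_iff_not_dvd]
    intro hd
    have := h p hp.2 hd
    have h3 := (le_max_right _ _).trans this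
    omega
  · intro h p hp hd
    by_contra hlt
    push Not at hlt
    have h2 := hp.two_le
    have h3 : p ≤ W n := by
      rcases lt_max_iff.1 hlt with h4 | h4
      · omega
      · omega
    have h4 := h p (by rw [Finset.mem_filter, Finset.mem_range]; exact ⟨by omega, hp⟩)
    rw [hp.coprime_iff_not_dvd] at h4
    exact h4 hd

theorem gW_eq {n : ℕ} (h2 : 2 ≤ n) (hn : W n < n) : gW W n = cgDens (lw W) n := by
  unfold gW cgDens
  rw [rho_eq h2 hn, V_lw]
  unfold cop
  simp only [noSmall_iff]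
  split_ifs
  · rw [mul_comm]
  · simp

theorem equiv_cg (hW : Lev W) : gW W =ᶠ[atTop] cgDens (lw W) := by
  filter_upwards [hW.lt_self, eventually_ge_atTop 2] with n h1 h2
  exact gW_eq h2 (by omega)

theorem log_lw_le (W : ℕ → ℕ) (n : ℕ) :
    Real.log (lw W n) ≤ Real.log 2 + Real.log ((W n : ℝ) + 1) := by
  have h0 : (0 : ℝ) ≤ W n := Nat.cast_nonneg _
  rw [← Real.log_mul (by norm_num) (by linarith)]
  apply Real.log_le_log
  · have := two_le_lw (W := W) n
    exact_mod_cast (by omega : 0 < lw W n)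
  · unfold lw
    push_cast
    apply max_le <;> linarith

theorem log_le_lw (W : ℕ → ℕ) (n : ℕ) : Real.log ((W n : ℝ) + 1) ≤ Real.log (lw W n) := by
  apply Real.log_le_log
  · have h0 : (0 : ℝ) ≤ W n := Nat.cast_nonneg _
    linarith
  · unfold lw
    push_cast
    exact le_max_right _ _

theorem log_lw_nonneg (W : ℕ → ℕ) (n : ℕ) : 0 ≤ Real.log (lw W n) :=
  Real.log_natCast_nonneg _

theorem tllog : Tendsto (fun n : ℕ => Real.log (Real.log (n : ℝ))) atTop atTop :=
  Real.tendsto_log_atTop.comp tlog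

theorem lw_log (hW : Lev W) :
    (fun n => Real.log (lw W n)) =o[atTop] (fun n : ℕ => Real.log n) := by
  have h1 : (fun n : ℕ => Real.log (Real.log (n : ℝ))) =o[atTop] (fun n : ℕ => Real.log n) :=
    Real.isLittleO_log_id_atTop.comp_tendsto tlog
  have h2 : (fun _ : ℕ => 2 * Real.log 2) =o[atTop] (fun n : ℕ => Real.log n) := by
    rw [isLittleO_const_left]
    exact Or.inr (tendsto_norm_atTop_atTop.comp tlog)
  refine IsBigO.trans_isLittleO ?_ (h2.add h1)
  apply IsBigO.of_bound 1
  filter_upwards [hW.small, tlog.eventually_ge_atTop 1, tllog.eventually_ge_atTop 0]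
    with n h3 h4 h5
  have h6 := log_lw_le W n
  have h7 : Real.log ((W n : ℝ) + 1) ≤ Real.log 2 + Real.log (Real.log n) := by
    rw [← Real.log_mul (by norm_num) (by linarith)]
    apply Real.log_le_log
    · have h0 : (0 : ℝ) ≤ W n := Nat.cast_nonneg _
      linarith
    · linarith
  have h8 : 0 ≤ Real.log 2 := Real.log_nonneg (by norm_num)
  rw [Real.norm_of_nonneg (log_lw_nonneg W n), one_mul, Real.norm_of_nonneg (by linarith)]
  linarith

theorem lw_loglog_iff (W : ℕ → ℕ) :
    (fun n => Real.log (lw W n)) =o[atTop] (fun n : ℕ => Real.log (Real.log n)) ↔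
    (fun n => Real.log ((W n : ℝ) + 1)) =o[atTop] (fun n : ℕ => Real.log (Real.log n)) := by
  constructor
  · intro h
    refine IsBigO.trans_isLittleO ?_ h
    apply IsBigO.of_bound 1
    refine Eventually.of_forall (fun n => ?_)
    have h0 : (0 : ℝ) ≤ W n := Nat.cast_nonneg _
    rw [Real.norm_of_nonneg (log_lw_nonneg W n), one_mul,
      Real.norm_of_nonneg (Real.log_nonneg (by linarith))]
    exact log_le_lw W n
  · intro h
    have h2 : (fun _ : ℕ => Real.log 2) =o[atTop] (fun n : ℕ => Real.log (Real.log n)) := by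
      rw [isLittleO_const_left]
      exact Or.inr (tendsto_norm_atTop_atTop.comp tllog)
    refine IsBigO.trans_isLittleO ?_ (h2.add h)
    apply IsBigO.of_bound 1
    refine Eventually.of_forall (fun n => ?_)
    have h0 : (0 : ℝ) ≤ W n := Nat.cast_nonneg _
    have h8 : 0 ≤ Real.log 2 := Real.log_nonneg (by norm_num)
    have h9 : 0 ≤ Real.log ((W n : ℝ) + 1) := Real.log_nonneg (by linarith)
    rw [Real.norm_of_nonneg (log_lw_nonneg W n), one_mul, Real.norm_of_nonneg (by linarith)]
    exact log_lw_le W n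

/-- **Theorem.** The threshold in the sieve of level `W`. -/
theorem main (hW : Lev W) : ∃ c : ℝ, 0 < c ∧ c < 1 ∧
    ∀ (Ω : Type u) [MeasurableSpace Ω] (μ : Measure Ω) [IsProbabilityMeasure μ]
      (A : ℕ → ℕ → Set Ω), (∀ m n, MeasurableSet (A m n)) →
      iIndepSet (fun q : ℕ × ℕ => A q.1 q.2) μ →
      (∀ m n, W n < m → m < n → μ.real (A m n) = 1 / m) →
      (∀ᵐ ω ∂μ, ∀ ε : ℝ, 0 < ε → ∀ᶠ g : ℕ in atTop,
        {p : ℕ | p ∈ growSet W A ω ∧
          ∀ i : ℕ, 1 ≤ i → i ≤ g → (1 < p - i ∧ p - i ∉ growSet W A ω)}.Nonempty ∧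
        Real.log (firstElt (growSet W A ω) g) ≤ (1 + ε) * Real.sqrt g) ∧
      ((fun n => Real.log ((W n : ℝ) + 1)) =o[atTop] (fun n : ℕ => Real.log (Real.log n)) →
        ∀ᵐ ω ∂μ, ShanksLaw (growSet W A ω)) ∧
      (¬ (fun n => Real.log ((W n : ℝ) + 1)) =o[atTop]
          (fun n : ℕ => Real.log (Real.log n)) →
        ∀ᵐ ω ∂μ, ¬ ShanksLaw (growSet W A ω) ∧ ∃ᶠ g : ℕ in atTop,
          {p : ℕ | p ∈ growSet W A ω ∧
            ∀ i : ℕ, 1 ≤ i → i ≤ g → (1 < p - i ∧ p - i ∉ growSet W A ω)}.Nonempty ∧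
          Real.log (firstElt (growSet W A ω) g) ≤ c * Real.sqrt g) := by
  obtain ⟨c, hc0, hc1, hc⟩ := ADPM.main.{u} (lw_mono hW.mono) two_le_lw (lw_log hW)
  refine ⟨c, hc0, hc1, ?_⟩
  intro Ω m0 μ hμ A hA hI hP
  have hdg : ∀ᵐ ω ∂μ, (fun n => dW W A n ω) ~[atTop] cgDens (lw W) := by
    filter_upwards [dens_ae (μ := μ) hW hA hI hP] with ω hω
    exact hω.congr_right (equiv_cg hW)
  have h1 := hc Ω m0 μ hμ _ _ _ (Sv.dens (μ := μ) hA hI hP) hdg
  rw [lw_loglog_iff] at h1
  exact h1

/-! ### examples of levels -/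

theorem lev_loglog (N : ℕ) : Lev (fun n : ℕ => max N ⌊Real.log (Real.log n)⌋₊) where
  mono := by
    intro a b hab
    apply max_le_max le_rfl
    rcases Nat.lt_or_ge a 3 with h | h
    · have : ⌊Real.log (Real.log (a : ℝ))⌋₊ = 0 := by
        apply Nat.floor_of_nonpos
        interval_cases a
        · simp
        · simp
        · apply Real.log_nonpos
          · exact Real.log_nonneg (by norm_num)
          · have := Real.log_two_lt_d9
            push_cast
            linarith
      rw [this]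
      exact Nat.zero_le _
    · apply Nat.floor_le_floor
      have ha : (3 : ℝ) ≤ a := by exact_mod_cast h
      have h1 : 0 < Real.log (a : ℝ) := Real.log_pos (by linarith)
      apply Real.log_le_log h1
      apply Real.log_le_log (by linarith)
      exact_mod_cast hab
  small := by
    have h1 : (fun n : ℕ => Real.log (Real.log (n : ℝ))) =o[atTop] (fun n : ℕ => Real.log n) :=
      Real.isLittleO_log_id_atTop.comp_tendsto tlog
    filter_upwards [tlog.eventually_ge_atTop (2 * N), h1.def (show (0 : ℝ) < 1 / 2 by norm_num),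
      tllog.eventually_ge_atTop 0, tlog.eventually_ge_atTop 0] with n hn h2 h3 h4
    rw [Real.norm_of_nonneg h3, Real.norm_of_nonneg h4] at h2
    have h5 := Nat.floor_le h3
    push_cast
    rcases le_total (N : ℝ) (⌊Real.log (Real.log (n : ℝ))⌋₊ : ℝ) with h | h
    · rw [max_eq_right h]; linarith
    · rw [max_eq_left h]; linarith
  dbl := by
    refine ⟨2, ?_⟩
    filter_upwards [tllog.eventually_ge_atTop 1, tlog.eventually_ge_atTop 1] with n hn h1
    have h0 : Real.log (Real.log ((n ^ 2 : ℕ) : ℝ)) = Real.log 2 + Real.log (Real.log n) := by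
      push_cast
      rw [Real.log_pow, ← Real.log_mul (by norm_num) (by linarith)]
      push_cast
      rfl
    rw [h0]
    have h2 := Real.log_two_lt_d9
    have h3 := Nat.lt_floor_add_one (Real.log (Real.log (n : ℝ)))
    have h4 : 1 ≤ ⌊Real.log (Real.log (n : ℝ))⌋₊ := Nat.le_floor (by push_cast; linarith)
    have h5 : ⌊Real.log 2 + Real.log (Real.log (n : ℝ))⌋₊ ≤
        ⌊Real.log (Real.log (n : ℝ))⌋₊ + 1 := by
      have h6 : ⌊Real.log 2 + Real.log (Real.log (n : ℝ))⌋₊ <
          ⌊Real.log (Real.log (n : ℝ))⌋₊ + 2 := by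
        rw [Nat.floor_lt (by
          have := Real.log_nonneg (show (1 : ℝ) ≤ 2 by norm_num)
          linarith)]
        push_cast
        linarith
      omega
    have h6 : ⌊Real.log (Real.log (n : ℝ))⌋₊ ≤ max N ⌊Real.log (Real.log (n : ℝ))⌋₊ :=
      le_max_right _ _
    have h7 : N ≤ max N ⌊Real.log (Real.log (n : ℝ))⌋₊ := le_max_left _ _
    apply max_le
    · omega
    · omega

theorem loglog_top (N : ℕ) :
    Tendsto (fun n : ℕ => max N ⌊Real.log (Real.log n)⌋₊) atTop atTop :=
  tendsto_atTop_mono (fun n => le_max_right _ _) (tendsto_nat_floor_atTop.comp tllog)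

/-- the level `max N ⌊log log n⌋` lies below the threshold -/
theorem loglog_below (N : ℕ) :
    (fun n : ℕ => Real.log (((max N ⌊Real.log (Real.log n)⌋₊ : ℕ) : ℝ) + 1)) =o[atTop]
      (fun n : ℕ => Real.log (Real.log n)) := by
  have h1 : (fun n : ℕ => Real.log (Real.log (Real.log (n : ℝ)))) =o[atTop]
      (fun n : ℕ => Real.log (Real.log n)) :=
    Real.isLittleO_log_id_atTop.comp_tendsto tllog
  have h2 : (fun _ : ℕ => Real.log 2) =o[atTop] (fun n : ℕ => Real.log (Real.log n)) := by
    rw [isLittleO_const_left]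
    exact Or.inr (tendsto_norm_atTop_atTop.comp tllog)
  refine IsBigO.trans_isLittleO ?_ (h2.add h1)
  apply IsBigO.of_bound 1
  filter_upwards [tllog.eventually_ge_atTop (N + 1)] with n hn
  set l := Real.log (Real.log (n : ℝ)) with hl
  have hN0 : (0 : ℝ) ≤ N := Nat.cast_nonneg _
  have h3 := Nat.floor_le (show 0 ≤ l by linarith)
  have h4 : ((max N ⌊l⌋₊ : ℕ) : ℝ) + 1 ≤ 2 * l := by
    push_cast
    rcases le_total (N : ℝ) (⌊l⌋₊ : ℝ) with h | h
    · rw [max_eq_right h]; linarith
    · rw [max_eq_left h]; linarith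
  have h5 : (0 : ℝ) ≤ ((max N ⌊l⌋₊ : ℕ) : ℝ) := Nat.cast_nonneg _
  have h6 : 0 ≤ Real.log l := Real.log_nonneg (by linarith)
  have h7 : 0 ≤ Real.log 2 := Real.log_nonneg (by norm_num)
  rw [Real.norm_of_nonneg (Real.log_nonneg (by linarith)), one_mul,
    Real.norm_of_nonneg (by linarith), ← Real.log_mul (by norm_num) (by linarith)]
  exact Real.log_le_log (by linarith) h4

theorem const_below (N : ℕ) :
    (fun n : ℕ => Real.log ((N : ℝ) + 1)) =o[atTop]
      (fun n : ℕ => Real.log (Real.log n)) := by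
  rw [isLittleO_const_left]
  exact Or.inr (tendsto_norm_atTop_atTop.comp tllog)

/-- the level `max N ⌊log n / 2⌋` lies above the threshold -/
theorem log_above (N : ℕ) :
    ¬ (fun n : ℕ => Real.log (((max N ⌊Real.log n / 2⌋₊ : ℕ) : ℝ) + 1)) =o[atTop]
      (fun n : ℕ => Real.log (Real.log n)) := by
  intro h
  have h1 := h.def (show (0 : ℝ) < 1 / 2 by norm_num)
  obtain ⟨n, hn, h2, h3⟩ := (h1.and ((tllog.eventually_ge_atTop (2 * Real.log 2 + 1)).and
    (tlog.eventually_ge_atTop 1))).exists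
  have hl2 : 0 ≤ Real.log 2 := Real.log_nonneg (by norm_num)
  have h4 : Real.log (n : ℝ) / 2 ≤ ((max N ⌊Real.log (n : ℝ) / 2⌋₊ : ℕ) : ℝ) + 1 := by
    have h5 := (Nat.lt_floor_add_one (Real.log (n : ℝ) / 2)).le
    push_cast
    have h6 := le_max_right (N : ℝ) (⌊Real.log (n : ℝ) / 2⌋₊ : ℝ)
    linarith
  have h5 : Real.log (Real.log (n : ℝ)) - Real.log 2 ≤
      Real.log (((max N ⌊Real.log (n : ℝ) / 2⌋₊ : ℕ) : ℝ) + 1) := by
    rw [← Real.log_div (by linarith) (by norm_num)]
    exact Real.log_le_log (by linarith) h4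
  rw [Real.norm_of_nonneg (show 0 ≤ Real.log (Real.log (n : ℝ)) by linarith)] at hn
  have h6 := (le_abs_self _).trans hn
  linarith

end GROM

end Pool.Agent.Lib.MP_926cc3_nt.TH
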