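import Pool.Agent.Lib.MP_926cc3_nt.TH.Spec

/-!
# Module MUL: multiplicativity of the indicator of the rough numbers
-/

set_option autoImplicit false

namespace Pool.Agent.Lib.MP_926cc3_nt.TH

open Pool.Agent.Lib.MP_926cc3_nt.RS

theorem specMUL : SpecMUL := by
  refine ⟨fun z m n => ?_, fun z => ?_⟩
  · have h : NoSmall z (m * n) ↔ NoSmall z m ∧ NoSmall z n := by
      unfold NoSmall
      constructor
      · intro h
        exact ⟨fun p hp hpm => h p hp (hpm.mul_right n), fun p hp hpn => h p hp (hpn.mul_left m)⟩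
      · rintro ⟨h1, h2⟩ p hp hpmn
        rcases hp.dvd_mul.mp hpmn with h3 | h3
        · exact h1 p hp h3
        · exact h2 p hp h3
    show Gra.r z (m * n) = Gra.r z m * Gra.r z n
    unfold Gra.r
    by_cases h1 : NoSmall z m
    · by_cases h2 : NoSmall z n
      · rw [if_pos (h.mpr ⟨h1, h2⟩), if_pos h1, if_pos h2, mul_one]
      · rw [if_neg (fun g => h2 (h.mp g).2), if_neg h2, mul_zero]
    · rw [if_neg (fun g => h1 (h.mp g).1), if_neg h1, zero_mul]
  · show Gra.r z 1 = 1
    unfold Gra.r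
    rw [if_pos]
    intro p hp hp1
    exact absurd (Nat.dvd_one.mp hp1) hp.one_lt.ne'

end Pool.Agent.Lib.MP_926cc3_nt.TH
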