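import Pool.Agent.Lib.MP_926cc3_nt.TH.Spec

set_option autoImplicit false
set_option linter.unusedVariables false

open Filter Topology

namespace Pool.Agent.Lib.MP_926cc3_nt.TH

open Pool.Agent.Lib.MP_926cc3_nt.RS

namespace SELM

theorem hlog : Tendsto (fun n : ℕ => Real.log (n : ℝ)) atTop atTop :=
  Real.tendsto_log_atTop.comp tendsto_natCast_atTop_atTop

theorem log_le_rpow (r : ℝ) (hr : 0 < r) : ∀ᶠ x : ℕ in atTop, Real.log (x : ℝ) ≤ (x : ℝ) ^ r := by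
  have := (isLittleO_log_rpow_atTop hr).bound one_pos
  have h2 := tendsto_natCast_atTop_atTop (R := ℝ) |>.eventually this
  filter_upwards [h2, eventually_ge_atTop 1] with x hx hx1
  rw [one_mul, Real.norm_eq_abs, Real.norm_eq_abs] at hx
  have hx1' : (1 : ℝ) ≤ x := by exact_mod_cast hx1
  rw [abs_of_nonneg (Real.log_nonneg hx1'), abs_of_nonneg (by positivity)] at hx
  exact hx

theorem large (r : ℝ) (hr : 0 < r) (C : ℝ) : ∀ᶠ x : ℕ in atTop, C ≤ (x : ℝ) ^ r :=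
  ((tendsto_rpow_atTop hr).comp tendsto_natCast_atTop_atTop).eventually_ge_atTop C

theorem large_log (r : ℝ) (hr : 0 < r) (C : ℝ) : ∀ᶠ x : ℕ in atTop, C ≤ Real.log (x : ℝ) ^ r :=
  ((tendsto_rpow_atTop hr).comp hlog).eventually_ge_atTop C

/-- powers of the logarithm -/
theorem pow_log_le (r : ℝ) (hr : 0 < r) (T : ℕ) :
    ∀ᶠ x : ℕ in atTop, Real.log (x : ℝ) ^ T ≤ (x : ℝ) ^ r := by
  have h1 : (0 : ℝ) < r / ((T : ℝ) + 1) := by positivity
  filter_upwards [log_le_rpow _ h1, eventually_ge_atTop 1] with x hx hx1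
  have hx1' : (1 : ℝ) ≤ x := by exact_mod_cast hx1
  have h0 : 0 ≤ Real.log (x : ℝ) := Real.log_nonneg hx1'
  calc Real.log (x : ℝ) ^ T ≤ ((x : ℝ) ^ (r / ((T : ℝ) + 1))) ^ T := pow_le_pow_left₀ h0 hx T
    _ = (x : ℝ) ^ (r / ((T : ℝ) + 1) * T) := by
      rw [← Real.rpow_natCast, ← Real.rpow_mul (by linarith)]
    _ ≤ (x : ℝ) ^ r := by
      apply Real.rpow_le_rpow_of_exponent_le hx1'
      rw [div_mul_eq_mul_div, div_le_iff₀ (by positivity)]
      nlinarith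

theorem w_small {w : ℕ → ℕ} (h2 : ∀ n, 2 ≤ w n)
    (hw1 : (fun n => Real.log (w n)) =o[atTop] (fun n : ℕ => Real.log n)) (c : ℝ) (hc : 0 < c) :
    ∀ᶠ n : ℕ in atTop, (w n : ℝ) ≤ (n : ℝ) ^ c := by
  filter_upwards [hw1.def hc, eventually_gt_atTop 1] with n hn hn1
  have hn1' : (1 : ℝ) < n := by exact_mod_cast hn1
  have hw2 : (2 : ℝ) ≤ w n := by exact_mod_cast h2 n
  rw [Real.norm_eq_abs, Real.norm_eq_abs, abs_of_pos (Real.log_pos hn1')] at hn
  have h3 : Real.log (w n) ≤ c * Real.log n := (le_abs_self _).trans hn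
  rw [← Real.log_rpow (by linarith)] at h3
  exact (Real.log_le_log_iff (by linarith) (by positivity)).1 h3

theorem freq {w : ℕ → ℕ} (h2 : ∀ n, 2 ≤ w n)
    (hw2 : ¬ (fun n => Real.log (w n)) =o[atTop] (fun n : ℕ => Real.log (Real.log n))) :
    ∃ a0 : ℝ, 0 < a0 ∧ a0 ≤ 1 ∧ ∃ᶠ x : ℕ in atTop, Real.log (x : ℝ) ^ a0 ≤ w x := by
  rw [Asymptotics.isLittleO_iff] at hw2
  push Not at hw2
  obtain ⟨c, hc, hf⟩ := hw2
  refine ⟨min c 1, lt_min hc one_pos, min_le_right _ _, ?_⟩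
  refine (hf.and_eventually (hlog.eventually_gt_atTop 1)).mono ?_
  rintro x ⟨hx, hx1⟩
  have hw2 : (2 : ℝ) ≤ w x := by exact_mod_cast h2 x
  have hl0 : 0 < Real.log (Real.log x) := Real.log_pos hx1
  rw [Real.norm_eq_abs, Real.norm_eq_abs, abs_of_pos hl0,
    abs_of_nonneg (Real.log_nonneg (by linarith))] at hx
  rw [← Real.log_rpow (by linarith)] at hx
  have h3 : Real.log (x : ℝ) ^ c ≤ w x :=
    ((Real.log_lt_log_iff (by positivity) (by linarith)).1 hx).le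
  exact (Real.rpow_le_rpow_of_exponent_le hx1.le (min_le_left _ _)).trans h3

/-- the numerical lemma -/
theorem num {σ ρ : ℝ} (hσ : 0 < σ) (hσ4 : σ ≤ 1 / 4) (hρ : 0 < ρ) (T : ℕ) :
    ∀ᶠ x : ℕ in atTop, ∀ P H a M : ℕ, P = ⌊(x : ℝ) ^ (1 - σ) / 2⌋₊ →
      (H : ℝ) ≤ 2 * Real.log x ^ 2 → (a : ℝ) ≤ Real.log x ^ T → 1 ≤ M →
      (M : ℝ) ≤ (x : ℝ) ^ (σ / 2) * (2 * H) →
      a + H ≤ P ∧ (x : ℝ) ^ (1 - 3 * σ) ≤ ρ * (((P - (a + H)) / M : ℕ) : ℝ) ∧
        (x : ℝ) ^ (1 - 3 * σ) ≤ (((P - (a + H)) / M : ℕ) : ℝ) := by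
  have hr1 : 0 < (1 - σ) / 2 := by linarith
  filter_upwards [pow_log_le ((1 - σ) / 2) hr1 T, pow_log_le ((1 - σ) / 2) hr1 2,
    large ((1 - σ) / 2) hr1 32, pow_log_le (σ / 4) (by linarith) 2, large (σ / 4) (by linarith) 64,
    large σ hσ (1 / (3 * ρ)), large σ hσ 1, large (1 - 2 * σ) (by linarith) 1,
    eventually_ge_atTop 2] with x h1 h2 h3 h4 h5 h6 h6' h7 hx
  intro P H a M hP hH ha hM1 hM
  have hxr : (2 : ℝ) ≤ x := by exact_mod_cast hx
  have hx0 : (0 : ℝ) < x := by linarith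
  set X := (x : ℝ) ^ ((1 - σ) / 2) with hX
  have hXX : (x : ℝ) ^ (1 - σ) = X * X := by
    rw [hX, ← Real.rpow_add hx0]; congr 1; ring
  have hY : (x : ℝ) ^ σ = (x : ℝ) ^ (σ / 2) * ((x : ℝ) ^ (σ / 4) * (x : ℝ) ^ (σ / 4)) := by
    rw [← Real.rpow_add hx0, ← Real.rpow_add hx0]; congr 1; ring
  have hs2 : 0 < (x : ℝ) ^ (σ / 2) := by positivity
  have hsum : (a : ℝ) + H + 2 ≤ (x : ℝ) ^ (1 - σ) / 4 := by
    rw [hXX]
    nlinarith
  have hPr : (x : ℝ) ^ (1 - σ) / 2 - 1 < P := by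
    rw [hP]; exact Nat.sub_one_lt_floor _
  have haH : ((a + H : ℕ) : ℝ) ≤ P := by
    push_cast
    linarith
  have haH' : a + H ≤ P := by exact_mod_cast haH
  have hM16 : (M : ℝ) ≤ (x : ℝ) ^ σ / 16 := by
    rw [hY]
    have h8 : (M : ℝ) ≤ (x : ℝ) ^ (σ / 2) * (4 * Real.log x ^ 2) := by
      refine hM.trans ?_
      apply mul_le_mul_of_nonneg_left _ hs2.le
      linarith
    have h9 : 64 * Real.log (x : ℝ) ^ 2 ≤ (x : ℝ) ^ (σ / 4) * (x : ℝ) ^ (σ / 4) := by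
      have : 0 ≤ Real.log (x : ℝ) ^ 2 := sq_nonneg _
      calc 64 * Real.log (x : ℝ) ^ 2 ≤ (x : ℝ) ^ (σ / 4) * Real.log (x : ℝ) ^ 2 := by gcongr
        _ ≤ (x : ℝ) ^ (σ / 4) * (x : ℝ) ^ (σ / 4) := by gcongr
    have h10 := mul_le_mul_of_nonneg_left h9 hs2.le
    linarith
  have hMr : (0 : ℝ) < M := by exact_mod_cast hM1
  have hK : ((P - (a + H) : ℕ) : ℝ) / M < (((P - (a + H)) / M : ℕ) : ℝ) + 1 := by
    rw [div_lt_iff₀ hMr]
    have := Nat.lt_div_mul_add (a := P - (a + H)) (b := M) (by omega)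
    have h8 : ((P - (a + H) : ℕ) : ℝ) < (((P - (a + H)) / M * M + M : ℕ) : ℝ) := by
      exact_mod_cast this
    push_cast at h8 ⊢
    linarith
  have hnum : (x : ℝ) ^ (1 - σ) / 4 ≤ ((P - (a + H) : ℕ) : ℝ) := by
    rw [Nat.cast_sub haH']
    push_cast
    linarith
  have h11 : 4 * (x : ℝ) ^ (1 - 2 * σ) ≤ ((P - (a + H) : ℕ) : ℝ) / M := by
    rw [le_div_iff₀ hMr]
    refine le_trans ?_ hnum
    calc 4 * (x : ℝ) ^ (1 - 2 * σ) * M ≤ 4 * (x : ℝ) ^ (1 - 2 * σ) * ((x : ℝ) ^ σ / 16) := by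
          apply mul_le_mul_of_nonneg_left hM16; positivity
      _ = (x : ℝ) ^ (1 - 2 * σ) * (x : ℝ) ^ σ / 4 := by ring
      _ = (x : ℝ) ^ (1 - σ) / 4 := by
          rw [← Real.rpow_add hx0]; congr 2; ring
  set K : ℝ := (((P - (a + H)) / M : ℕ) : ℝ) with hKdef
  have h12 : 3 * (x : ℝ) ^ (1 - 2 * σ) ≤ K := by linarith
  have h13 : (x : ℝ) ^ (1 - 2 * σ) = (x : ℝ) ^ σ * (x : ℝ) ^ (1 - 3 * σ) := by
    rw [← Real.rpow_add hx0]; congr 1; ring
  have h14 : 0 < (x : ℝ) ^ (1 - 3 * σ) := by positivity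
  refine ⟨haH', ?_, ?_⟩
  · rw [div_le_iff₀ (by positivity)] at h6
    calc (x : ℝ) ^ (1 - 3 * σ) = 1 * (x : ℝ) ^ (1 - 3 * σ) := (one_mul _).symm
      _ ≤ ((x : ℝ) ^ σ * (3 * ρ)) * (x : ℝ) ^ (1 - 3 * σ) := by
          apply mul_le_mul_of_nonneg_right h6 h14.le
      _ = ρ * (3 * ((x : ℝ) ^ σ * (x : ℝ) ^ (1 - 3 * σ))) := by ring
      _ ≤ ρ * K := by
          rw [← h13]
          exact mul_le_mul_of_nonneg_left h12 hρ.le
  · calc (x : ℝ) ^ (1 - 3 * σ) = 1 * (x : ℝ) ^ (1 - 3 * σ) := (one_mul _).symm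
      _ ≤ (x : ℝ) ^ σ * (x : ℝ) ^ (1 - 3 * σ) := mul_le_mul_of_nonneg_right h6' h14.le
      _ = (x : ℝ) ^ (1 - 2 * σ) := h13.symm
      _ ≤ K := by
          have : 0 < (x : ℝ) ^ (1 - 2 * σ) := by positivity
          linarith

/-- the density of a window -/
theorem dens_window {w : ℕ → ℕ} (h2 : ∀ n, 2 ≤ w n) {x c a H w0 : ℕ} {k1 L : ℝ} (hx : 2 ≤ x)
    (hxa : x ≤ c + a) (hw : ∀ n, c + a < n → n ≤ c + (a + H) → w n = w0) (hw0 : 2 ≤ w0)
    (hsum : ∑ n ∈ Finset.Ioc a (a + H), r w0 (c + n) ≤ k1 * V w0 * H) (hk1 : 0 ≤ k1)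
    (hH : (H : ℝ) ≤ L * Real.log x ^ 2) :
    ∑ n ∈ Finset.Ico (c + a + 1) (c + a + 1 + H), cgDens w n ≤ L * k1 * Real.log x := by
  have hxr : (2 : ℝ) ≤ x := by exact_mod_cast hx
  have hlx : 0 < Real.log (x : ℝ) := Real.log_pos (by linarith)
  have hV := Gra.V_pos w0 hw0
  have e1 : ∑ n ∈ Finset.Ico (c + a + 1) (c + a + 1 + H), cgDens w n =
      ∑ n ∈ Finset.Ioc a (a + H), cgDens w (c + n) := by
    have h1 : Finset.Ioc a (a + H) = Finset.Ico (a + 1) (a + 1 + H) := by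
      ext n; rw [Finset.mem_Ioc, Finset.mem_Ico]; omega
    rw [h1]
    have h3 := Finset.sum_Ico_add (fun n => cgDens w n) (a + 1) (a + 1 + H) c
    rw [h3]
    congr 1
    congr 1 <;> ring
  rw [e1]
  calc ∑ n ∈ Finset.Ioc a (a + H), cgDens w (c + n)
      ≤ ∑ n ∈ Finset.Ioc a (a + H), r w0 (c + n) / V w0 / Real.log x := by
        apply Finset.sum_le_sum
        intro n hn
        rw [Finset.mem_Ioc] at hn
        rw [Gra.cgDens_eq, hw (c + n) (by omega) (by omega)]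
        apply div_le_div_of_nonneg_left
        · exact div_nonneg (Gra.r_nonneg _ _) hV.le
        · exact hlx
        · apply Real.log_le_log (by linarith)
          exact_mod_cast (by omega : x ≤ c + n)
    _ = (∑ n ∈ Finset.Ioc a (a + H), r w0 (c + n)) / V w0 / Real.log x := by
        rw [Finset.sum_div, Finset.sum_div]
    _ ≤ (k1 * V w0 * H) / V w0 / Real.log x := by
        apply div_le_div_of_nonneg_right _ hlx.le
        exact div_le_div_of_nonneg_right hsum hV.le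
    _ = k1 * H / Real.log x := by field_simp
    _ ≤ k1 * (L * Real.log x ^ 2) / Real.log x := by gcongr
    _ = L * k1 * Real.log x := by field_simp

end SELM

open SELM in
theorem specSEL (hDEF : SpecDEF) (hAVG : SpecAVG) (hPIE : SpecPIE) (hMOD : SpecMOD) :
    SpecSEL := by
  classical
  intro w hm h2 hw1 hw2
  obtain ⟨a0, ha0, ha01, hfreq⟩ := freq h2 hw2
  obtain ⟨U, hU⟩ := exists_nat_ge (6 / a0)
  obtain ⟨kap, hk0, hk1, T, z0, hdef⟩ := hDEF U
  obtain ⟨rho, A, hrho, havg⟩ := hAVG kap ((1 + kap) / 2) hk0 (by linarith) (by linarith)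
  set k1 := (1 + kap) / 2 with hk1def
  have hk1p : 0 < k1 := by positivity
  have hk1l : k1 < 1 := by rw [hk1def]; linarith
  set ε := 1 - k1 with hε
  have hε0 : 0 < ε := by linarith
  have hε1 : ε < 1 := by linarith
  set β := (1 + ε) * k1 with hβ
  have hβ0 : 0 < β := by positivity
  have hβ1 : β < 1 := by
    have : β = 1 - (1 - k1) ^ 2 := by rw [hβ, hε]; ring
    rw [this]
    have : 0 < (1 - k1) ^ 2 := by apply pow_pos; linarith
    linarith
  set σ := (1 - β) / 4 with hσdef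
  have hσ : 0 < σ := by rw [hσdef]; linarith
  have hσ4 : σ ≤ 1 / 4 := by rw [hσdef]; linarith
  set δ := σ / (2 * Real.log 4) with hδdef
  have hl4 : 1 < Real.log 4 := by
    rw [Real.lt_log_iff_exp_lt (by norm_num)]
    have := Real.exp_one_lt_d9
    linarith
  have hδ : 0 < δ := by positivity
  have hδ1 : δ ≤ 1 := by
    rw [hδdef, div_le_one (by positivity)]
    linarith
  refine ⟨ε, β, 1 - 3 * σ, hε0, hβ0, by linarith, ?_⟩
  have hw2x : ∀ c : ℝ, 0 < c → ∀ᶠ x : ℕ in atTop, (w (2 * x) : ℝ) ≤ ((2 * x : ℕ) : ℝ) ^ c := by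
    intro c hc
    have h1 : Tendsto (fun x : ℕ => 2 * x) atTop atTop :=
      tendsto_id.const_mul_atTop' (by norm_num : 0 < 2)
    exact h1.eventually (w_small h2 hw1 c hc)
  -- f1
  have f1 : ∀ᶠ x : ℕ in atTop, w (2 * x) < ⌊(x : ℝ) ^ σ⌋₊ := by
    filter_upwards [hw2x (σ / 4) (by linarith), large (σ / 2) (by linarith) 3,
      eventually_ge_atTop 2] with x h1 h3 hx
    have hxr : (2 : ℝ) ≤ x := by exact_mod_cast hx
    have hx0 : (0 : ℝ) < x := by linarith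
    have h4 : ((2 * x : ℕ) : ℝ) ^ (σ / 4) ≤ (x : ℝ) ^ (σ / 2) := by
      have h5 : ((2 * x : ℕ) : ℝ) ≤ (x : ℝ) ^ (2 : ℝ) := by
        push_cast
        rw [Real.rpow_two]
        nlinarith
      calc ((2 * x : ℕ) : ℝ) ^ (σ / 4) ≤ ((x : ℝ) ^ (2 : ℝ)) ^ (σ / 4) :=
            Real.rpow_le_rpow (by positivity) h5 (by linarith)
        _ = (x : ℝ) ^ (σ / 2) := by
            rw [← Real.rpow_mul hx0.le]; congr 1; ring
    have h6 : (x : ℝ) ^ σ = (x : ℝ) ^ (σ / 2) * (x : ℝ) ^ (σ / 2) := by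
      rw [← Real.rpow_add hx0]; congr 1; ring
    have h7 : ((w (2 * x) : ℕ) : ℝ) + 1 ≤ (x : ℝ) ^ σ := by
      rw [h6]
      have := h1.trans h4
      nlinarith
    have h8 : w (2 * x) + 1 ≤ ⌊(x : ℝ) ^ σ⌋₊ := by
      apply Nat.le_floor
      push_cast
      exact h7
    omega
  -- f2
  have f2 : ∀ᶠ x : ℕ in atTop, (w (2 * x) : ℝ) ^ A ≤ (x : ℝ) ^ (1 - 3 * σ) := by
    have hc : (0 : ℝ) < 1 / (8 * ((A : ℝ) + 1)) := by positivity
    filter_upwards [hw2x _ hc, eventually_ge_atTop 2] with x h1 hx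
    have hxr : (2 : ℝ) ≤ x := by exact_mod_cast hx
    have hx0 : (0 : ℝ) < x := by linarith
    have h5 : ((2 * x : ℕ) : ℝ) ≤ (x : ℝ) ^ (2 : ℝ) := by
      push_cast
      rw [Real.rpow_two]
      nlinarith
    calc (w (2 * x) : ℝ) ^ A ≤ (((2 * x : ℕ) : ℝ) ^ (1 / (8 * ((A : ℝ) + 1)))) ^ A :=
          pow_le_pow_left₀ (Nat.cast_nonneg _) h1 A
      _ ≤ (((x : ℝ) ^ (2 : ℝ)) ^ (1 / (8 * ((A : ℝ) + 1)))) ^ A := by
          apply pow_le_pow_left₀ (by positivity)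
          exact Real.rpow_le_rpow (by positivity) h5 hc.le
      _ = (x : ℝ) ^ (2 * (1 / (8 * ((A : ℝ) + 1))) * A) := by
          rw [← Real.rpow_natCast, ← Real.rpow_mul hx0.le, ← Real.rpow_mul hx0.le]
      _ ≤ (x : ℝ) ^ (1 - 3 * σ) := by
          apply Real.rpow_le_rpow_of_exponent_le (by linarith)
          have h6 : 2 * (1 / (8 * ((A : ℝ) + 1))) * A ≤ 1 / 4 := by
            have e : 2 * (1 / (8 * ((A : ℝ) + 1))) * A = (A : ℝ) / (4 * ((A : ℝ) + 1)) := by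
              field_simp; ring
            rw [e, div_le_iff₀ (by positivity)]
            linarith
          linarith
  -- f4
  have f4 : ∀ᶠ x : ℕ in atTop, Real.log (x : ℝ) ^ (a0 / 2) ≤ (⌊δ * Real.log x⌋₊ : ℝ) := by
    have h1 : ∀ᶠ y : ℝ in atTop, y ^ (a0 / 2) + 1 ≤ δ * y := by
      have h3 : Tendsto (fun y : ℝ => y ^ (1 - a0 / 2)) atTop atTop :=
        tendsto_rpow_atTop (by linarith)
      filter_upwards [h3.eventually_ge_atTop (2 / δ), eventually_ge_atTop 1] with y hy hy1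
      have h4 : y = y ^ (1 - a0 / 2) * y ^ (a0 / 2) := by
        rw [← Real.rpow_add (by linarith)]
        rw [show 1 - a0 / 2 + a0 / 2 = (1 : ℝ) by ring, Real.rpow_one]
      have h5 : 1 ≤ y ^ (a0 / 2) := Real.one_le_rpow hy1 (by linarith)
      have h6 : 2 ≤ δ * y ^ (1 - a0 / 2) := by
        rw [div_le_iff₀ hδ] at hy; linarith
      calc y ^ (a0 / 2) + 1 ≤ 2 * y ^ (a0 / 2) := by linarith
        _ ≤ (δ * y ^ (1 - a0 / 2)) * y ^ (a0 / 2) := by gcongr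
        _ = δ * y := by rw [mul_assoc, ← h4]
    filter_upwards [hlog.eventually h1] with x hx
    have := Nat.sub_one_lt_floor (δ * Real.log x)
    linarith
  have hfl := num hσ hσ4 hrho T
  refine (hfreq.and_eventually (f1.and (f2.and (f4.and (hfl.and
    ((large_log (a0 / 2) (by linarith) (max z0 3)).and
      ((hlog.eventually_ge_atTop 2).and (eventually_ge_atTop 2)))))))).mono ?_
  rintro x ⟨hxw, g1, g2, g4, gn, g5, g6, hx⟩
  have hxr : (2 : ℝ) ≤ x := by exact_mod_cast hx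
  have hx0 : (0 : ℝ) < x := by linarith
  set H := ⌊(1 + ε) * Real.log x ^ 2⌋₊ with hHdef
  set J := ⌊(x : ℝ) ^ σ⌋₊ with hJdef
  set P := ⌊(x : ℝ) ^ (1 - σ) / 2⌋₊ with hPdef
  have hH2 : (H : ℝ) ≤ (1 + ε) * Real.log x ^ 2 := Nat.floor_le (by positivity)
  have hH2' : (H : ℝ) ≤ 2 * Real.log x ^ 2 := by
    refine hH2.trans ?_
    apply mul_le_mul_of_nonneg_right _ (sq_nonneg _)
    linarith
  have hH1 : 1 ≤ H := by
    apply Nat.le_floor
    push_cast
    nlinarith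
  have hJP : 2 * (J * P) ≤ x := by
    have h1 : (J : ℝ) ≤ (x : ℝ) ^ σ := Nat.floor_le (by positivity)
    have h3 : (P : ℝ) ≤ (x : ℝ) ^ (1 - σ) / 2 := Nat.floor_le (by positivity)
    have h4 : (2 : ℝ) * (J * P) ≤ x := by
      calc (2 : ℝ) * (J * P) ≤ 2 * ((x : ℝ) ^ σ * ((x : ℝ) ^ (1 - σ) / 2)) := by gcongr
        _ = (x : ℝ) ^ σ * (x : ℝ) ^ (1 - σ) := by ring
        _ = x := by
          rw [← Real.rpow_add hx0, show σ + (1 - σ) = (1 : ℝ) by ring, Real.rpow_one]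
    exact_mod_cast h4
  obtain ⟨j, hjJ, hconst⟩ := hPIE w x P J hm (by
    have : w (x + J * P) ≤ w (2 * x) := hm (by omega)
    omega)
  set u := x + j * P with hu
  have hju : (j + 1) * P ≤ J * P := Nat.mul_le_mul_right P (by omega)
  have hj1 : (j + 1) * P = j * P + P := by ring
  have huP : u + P + 1 ≤ 2 * x := by omega
  set w0 := w u with hw0
  have hw0x : w x ≤ w0 := hm (by omega)
  have hw0l : w0 ≤ w (2 * x) := hm (by omega)
  have hw02 : 2 ≤ w0 := h2 _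
  -- z
  set z := min w0 ⌊δ * Real.log x⌋₊ with hz
  have hlx1 : 1 ≤ Real.log (x : ℝ) := by linarith
  have hz1 : Real.log (x : ℝ) ^ (a0 / 2) ≤ z := by
    rw [hz, Nat.cast_min]
    apply le_min
    · have h1 : Real.log (x : ℝ) ^ (a0 / 2) ≤ Real.log (x : ℝ) ^ a0 :=
        Real.rpow_le_rpow_of_exponent_le hlx1 (by linarith)
      have h3 : (w x : ℝ) ≤ w0 := by exact_mod_cast hw0x
      linarith
    · exact g4
  have hzmax : (max z0 3 : ℕ) ≤ z := by
    have : ((max z0 3 : ℕ) : ℝ) ≤ z := by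
      push_cast
      exact g5.trans hz1
    exact_mod_cast this
  have hzz0 : z0 ≤ z := le_trans (le_max_left _ _) hzmax
  have hz3 : 3 ≤ z := le_trans (le_max_right _ _) hzmax
  have hzw : z ≤ w0 := min_le_left _ _
  have hzδ : (z : ℝ) ≤ δ * Real.log x := by
    have h1 : (z : ℝ) ≤ (⌊δ * Real.log x⌋₊ : ℝ) := by exact_mod_cast min_le_right _ _
    exact h1.trans (Nat.floor_le (by positivity))
  have hz4 : (4 : ℝ) ^ z ≤ (x : ℝ) ^ (σ / 2) := by
    rw [← Real.rpow_natCast, Real.rpow_def_of_pos (by norm_num), Real.rpow_def_of_pos hx0]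
    apply Real.exp_le_exp.2
    calc Real.log 4 * z ≤ Real.log 4 * (δ * Real.log x) := by gcongr
      _ = Real.log x * (σ / 2) := by
        rw [hδdef]; field_simp
  have hzl : (z : ℝ) ≤ Real.log x := by
    refine hzδ.trans ?_
    nlinarith
  have hHz : H ≤ z ^ U := by
    have h1 : 2 * Real.log (x : ℝ) ^ 2 ≤ (z : ℝ) ^ U := by
      calc 2 * Real.log (x : ℝ) ^ 2 ≤ Real.log (x : ℝ) * Real.log (x : ℝ) ^ 2 := by gcongr
        _ = Real.log (x : ℝ) ^ (3 : ℝ) := by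
            rw [show (3 : ℝ) = ((3 : ℕ) : ℝ) by norm_num, Real.rpow_natCast]; ring
        _ ≤ Real.log (x : ℝ) ^ (a0 / 2 * U) := by
            apply Real.rpow_le_rpow_of_exponent_le hlx1
            rw [div_le_iff₀ ha0] at hU
            linarith
        _ = (Real.log (x : ℝ) ^ (a0 / 2)) ^ U := by
            rw [← Real.rpow_natCast, ← Real.rpow_mul (by linarith)]
        _ ≤ (z : ℝ) ^ U := pow_le_pow_left₀ (by positivity) hz1 U
    have h3 : (H : ℝ) ≤ ((z ^ U : ℕ) : ℝ) := by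
      push_cast; linarith
    exact_mod_cast h3
  obtain ⟨a, haz, hasum⟩ := hdef z hzz0 H hH1 hHz
  have haT : (a : ℝ) ≤ Real.log x ^ T := by
    calc (a : ℝ) ≤ ((z ^ T : ℕ) : ℝ) := by exact_mod_cast haz
      _ = (z : ℝ) ^ T := by push_cast; rfl
      _ ≤ Real.log x ^ T := pow_le_pow_left₀ (Nat.cast_nonneg _) hzl T
  obtain ⟨M, hMp, hMH, hMle⟩ := hMOD z H hz3 hH1
  have hM1 : 1 ≤ M := le_trans hH1 hMH
  have hMr : (M : ℝ) ≤ (x : ℝ) ^ (σ / 2) * (2 * H) := by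
    calc (M : ℝ) ≤ ((4 ^ z * (2 * H) : ℕ) : ℝ) := by exact_mod_cast hMle
      _ = (4 : ℝ) ^ z * (2 * H) := by push_cast; rfl
      _ ≤ _ := by gcongr
  obtain ⟨haHP, hKrho, hK⟩ := gn P H a M rfl hH2' haT hM1 hMr
  set K := (P - (a + H)) / M with hKdef
  have hwK : w0 ^ A ≤ K := by
    have h1 : ((w0 ^ A : ℕ) : ℝ) ≤ K := by
      push_cast
      calc (w0 : ℝ) ^ A ≤ (w (2 * x) : ℝ) ^ A := by
            apply pow_le_pow_left₀ (Nat.cast_nonneg _)
            exact_mod_cast hw0l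
        _ ≤ (x : ℝ) ^ (1 - 3 * σ) := g2
        _ ≤ K := hK
    exact_mod_cast h1
  obtain ⟨I, hIsub, hIcard, hIsum⟩ := havg z w0 M a H (u / M) K (by omega) hzw hMp hH1 hasum hwK
  have hkb : ∀ k ∈ I, u < k * M ∧ k * M + (a + H) ≤ u + P := by
    intro k hk
    have h1 := hIsub hk
    rw [Finset.mem_Ioc] at h1
    constructor
    · exact (Nat.div_lt_iff_lt_mul (by omega)).1 h1.1
    · have h3 : k * M ≤ (u / M + K) * M := Nat.mul_le_mul_right M h1.2
      have h4 : u / M * M ≤ u := Nat.div_mul_le_self u M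
      have h5 : K * M ≤ P - (a + H) := Nat.div_mul_le_self _ M
      have h6 : (u / M + K) * M = u / M * M + K * M := by ring
      omega
  have hinj : Set.InjOn (fun k => k * M + a + 1) (I : Set ℕ) := by
    intro k _ l _ h
    simp only at h
    have : k * M = l * M := by omega
    exact Nat.eq_of_mul_eq_mul_right (by omega) this
  refine ⟨I.image (fun k => k * M + a + 1), ?_, ?_, ?_, ?_⟩
  · intro s hs
    rw [Finset.mem_image] at hs
    obtain ⟨k, hk, rfl⟩ := hs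
    have h1 := hkb k hk
    constructor <;> omega
  · intro s hs s' hs' hne
    rw [Finset.mem_image] at hs hs'
    obtain ⟨k, hk, rfl⟩ := hs
    obtain ⟨l, hl, rfl⟩ := hs'
    rw [Finset.disjoint_left]
    intro n hn hn'
    rw [Finset.mem_Ico] at hn hn'
    apply hne
    rcases lt_trichotomy k l with h | h | h
    · exfalso
      have h1 : (k + 1) * M ≤ l * M := Nat.mul_le_mul_right M (by omega)
      have h3 : (k + 1) * M = k * M + M := by ring
      omega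
    · rw [h]
    · exfalso
      have h1 : (l + 1) * M ≤ k * M := Nat.mul_le_mul_right M (by omega)
      have h3 : (l + 1) * M = l * M + M := by ring
      omega
  · rw [Finset.card_image_of_injOn hinj]
    exact hKrho.trans hIcard
  · intro s hs
    rw [Finset.mem_image] at hs
    obtain ⟨k, hk, rfl⟩ := hs
    have h1 := hkb k hk
    have h3 := dens_window h2 (x := x) (c := k * M) (a := a) (H := H) (w0 := w0) (k1 := k1)
      (L := 1 + ε) hx (by omega) (by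
        intro n hn1 hn2
        exact hconst n (by omega) (by omega)) hw02 (hIsum k hk) hk1p.le hH2
    exact h3

end Pool.Agent.Lib.MP_926cc3_nt.TH
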