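import Pool.Agent.Lib.MP_926cc3_nt.RS.GraReg

/-!
# MP_926cc3_nt (Shanks): the threshold in the Cramér–Granville models

Goal (`SpecMAIN`): for nondecreasing `w` with `log w(n) = o(log n)` and NOT `log w(n) = o(log log n)`
the Cramér–Granville model of level `w` almost surely violates Shanks' law.  Together with
`RS.Gra.shanks` this is a sharp threshold: Shanks' law holds if and only if
`log w(n) = o(log log n)`.

Notation: `r z n` is `1` if `n` has no prime factor `< z`, else `0`; `V z = ∏_{p<z} (1-1/p)`.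
`G z t = ∑_{n ≤ z^t} r z n / n` (a step function of `t`), `z^t = exp (t * log z)`.
`g` is the solution of `g = 1` on `(-∞,1]`, `t g'(t) = g(t-1)` for `t > 1`.
-/

set_option autoImplicit false

open Filter Topology MeasureTheory ProbabilityTheory ArithmeticFunction

namespace Pool.Agent.Lib.MP_926cc3_nt.TH

open Pool.Agent.Lib.MP_926cc3_nt.RS

/-- indicator of the integers with no prime factor `< z` (`RS.Gra.r`) -/
noncomputable abbrev r (z n : ℕ) : ℝ := Gra.r z n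

/-- `∑_{n ≤ z^t} r z n / n` -/
noncomputable def G (z : ℕ) (t : ℝ) : ℝ :=
  ∑ n ∈ Finset.Ioc 0 ⌊Real.exp (t * Real.log z)⌋₊, r z n / n

/-- the limit function of `G z` -/
def IsG (g : ℝ → ℝ) : Prop :=
  Continuous g ∧ Monotone g ∧ (∀ t, t ≤ 1 → g t = 1) ∧
    ∀ t, 1 < t → HasDerivAt g (g (t - 1) / t) t

/-! ## Part N: number theory -/

/-- **MUL** (30 lines). `r z (m n) = r z m * r z n` for all `m n` (a prime divides `m n` iff it divides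
`m` or `n`), and `r z 1 = 1`. -/
def SpecMUL : Prop := (∀ z m n : ℕ, r z (m * n) = r z m * r z n) ∧ ∀ z : ℕ, r z 1 = 1

/-- **IDN** (70 lines; from MUL).
Proof. `ArithmeticFunction.sum_Ioc_mul_eq_sum_sum` for the arithmetic functions `f m = r z m / m`,
`k d = r z d * Λ d / d` (value `0` at `0`): `(f * k) n = ∑_{m d = n} r z m r z d Λ d / (m d)
= (r z n / n) ∑_{d ∣ n} Λ d = (r z n / n) log n` (`vonMangoldt_sum`). -/
def SpecIDN : Prop := ∀ z x : ℕ, 2 ≤ z →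
  ∑ n ∈ Finset.Ioc 0 x, r z n / n * Real.log n =
    ∑ m ∈ Finset.Ioc 0 x, r z m / m * ∑ d ∈ Finset.Ioc 0 (x / m), r z d * Λ d / d

/-- **ROM** (120 lines). Mertens for the rough numbers. Use `Pool.Agent.Lib.MP_1446ad_nt.SM.specMRA`
(`∑_{p ≤ N} log p / p = log N + O(1)`, file SM/MRA.lean) and `nonprime_bd` (the sum of `Λ d / d` over the `d`
that are not prime is bounded; `Pool.Agent.Lib.MP_5b6025_nt.RP.Mertens`).
Proof. If `Λ d ≠ 0` then `d` is a power of a prime `p`, and `r z d = 1` gives `p ≥ z`, so `d ≥ z`: the sum is `0`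
for `Y < z`. For `Y ≥ z` the primes `d` contribute `∑_{z ≤ p ≤ Y} log p / p`, the difference of the
sums up to `Y` and up to `z - 1 ≥ 1`, which is `log Y - log (z-1) + O(1)`, and `0 ≤ log z - log (z-1) ≤ log 2`. -/
def SpecROM : Prop := ∃ C : ℝ, 0 ≤ C ∧ ∀ z Y : ℕ, 2 ≤ z →
  (Y < z → ∑ d ∈ Finset.Ioc 0 Y, r z d * Λ d / d = 0) ∧
  (z ≤ Y → |∑ d ∈ Finset.Ioc 0 Y, r z d * Λ d / d - Real.log ((Y : ℝ) / z)| ≤ C)

/-- **GIN** (120 lines). `G z` is a finite sum of multiples of indicators of half lines.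
Proof. Fix `t ≥ 0`, `N = ⌊z^t⌋`, `τ_n = log n / log z`. For `s ≤ t` and `1 ≤ n ≤ N`: `n ≤ ⌊z^s⌋` iff
`log n ≤ s log z` iff `τ_n ≤ s`; so on `[0,t]` `G z s = ∑_{n ≤ N} (r z n / n) 1[τ_n ≤ s]`, and
`∫_0^t 1[τ_n ≤ s] ds = t - τ_n` as `0 ≤ τ_n ≤ t`. Monotone: the terms are nonnegative. For `0 ≤ t < 1` the
only term with `r z n ≠ 0` and `n ≤ z^t < z` is `n = 1` (`r z n = 1`, `n ≥ 2`: a prime factor is `≥ z`, so
`n ≥ z`). -/
def SpecGIN : Prop := ∀ z : ℕ, 2 ≤ z → Monotone (G z) ∧ (∀ t : ℝ, 0 ≤ t → t < 1 → G z t = 1) ∧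
  ∀ t : ℝ, 0 ≤ t → ∫ s in (0 : ℝ)..t, G z s =
    ∑ n ∈ Finset.Ioc 0 ⌊Real.exp (t * Real.log z)⌋₊, r z n / n * (t - Real.log n / Real.log z)

/-- **APX** (150 lines; from IDN, ROM, GIN). The approximate equation.
Proof. `L = log z`, `X = exp (t L)`, `x = ⌊X⌋`, `τ_n = log n / L`. By GIN `t G(t) - ∫_0^t G = ∑_{n ≤ x} (r n / n) τ_n`, by
IDN this is `(1/L) ∑_{m ≤ x} (r m / m) Q(x/m)` (natural division), `Q` the inner sum. By ROM `Q(x/m) = 0`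
unless `z ≤ x/m`, i.e. `m z ≤ x`, i.e. `m z ≤ X`, i.e. `τ_m ≤ t - 1`, and then `|Q(x/m) - log((x/m)/z)| ≤ C` and
`|log (x/m : ℕ) - log (X/m)| ≤ log 2` (`⌊x/m⌋ = ⌊X/m⌋ ≥ X/(2m)` as `X/m ≥ 1`), while
`log (X/(m z)) = L (t - 1 - τ_m)`. By GIN `∫_0^(t-1) G = ∑_{τ_m ≤ t-1} (r m / m)(t-1-τ_m)`. So the error is at most
`((C + log 2)/L) ∑_{m ≤ x} r m / m`. -/
def SpecAPX : Prop := ∃ C : ℝ, 0 ≤ C ∧ ∀ z : ℕ, 2 ≤ z → ∀ t : ℝ, 1 ≤ t →
  |t * G z t - (∫ s in (0 : ℝ)..t, G z s) - ∫ s in (0 : ℝ)..(t - 1), G z s| ≤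
    C * G z t / Real.log z

/-- **BDG** (100 lines; from APX, GIN). `G z t ≤ exp (4 t)` for large `z`.
Proof. Let `log z ≥ 4 C`, `T ≥ 0`, `M = sup_{0 ≤ s ≤ T} exp(-4s) G z s` (finite: `G z` is monotone, nonnegative). For
`1 ≤ t ≤ T`: `(3/4) t G(t) ≤ (t - C/log z) G(t) ≤ ∫_0^t G + ∫_0^(t-1) G ≤ 2 M ∫_0^t exp(4s) ds ≤ (M/2) exp(4t)`, so
`exp(-4t) G(t) ≤ (2/3) M`; for `t < 1` `exp(-4t) G(t) ≤ 1` (GIN). So `M ≤ max(1, 2M/3)`, `M ≤ 1`. -/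
def SpecBDG : Prop := ∃ z0 : ℕ, 2 ≤ z0 ∧ ∀ z : ℕ, z0 ≤ z → ∀ t : ℝ, 0 ≤ t →
  G z t ≤ Real.exp (4 * t)

/-- **DDE** (200 lines). Existence of `g` (method of steps / Picard iteration).
Proof. `G_0 = 1`, `G_{n+1}(t) = 1 + ∫_1^(max t 1) G_n(s-1)/(max s 1) ds`. All `G_n` are continuous and `≥ 1`,
`G_{n+1} = 1` on `(-∞,1]`, and by induction `G_{n+1}(t) = G_n(t)` for `t ≤ n + 1`. Put `g(t) = G_{⌈t⌉₊}(t)`; then
`g = G_m` on `(-∞, m]` for every `m`, so `g` is continuous, `g(t) = 1 + ∫_1^t g(s-1)/s ds` for `t ≥ 1`, which gives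
the derivative (FTC) and the monotonicity. -/
def SpecDDE : Prop := ∃ g : ℝ → ℝ, IsG g

/-- **DIE** (80 lines). The integral form.
Proof. Both sides of the identity are continuous on `[1, ∞)`, differentiable on `(1, ∞)` with the same derivative
`g(t) + g(t-1)`, and both are `1` at `t = 1` (`∫_0^1 1 + ∫_0^0 = 1`). -/
def SpecDIE : Prop := ∀ g : ℝ → ℝ, IsG g → ∀ t : ℝ, 1 ≤ t →
  t * g t = (∫ s in (0 : ℝ)..t, g s) + ∫ s in (0 : ℝ)..(t - 1), g s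

/-- **CNV** (120 lines; from APX, BDG, DIE, GIN). `G z t → g t` as `z → ∞`.
Proof. Fix `T ≥ 1`. `D(s) = |G z s - g s|` is bounded on `[0,T]`, is `0` on `[0,1)`, and for `1 ≤ t ≤ T`
`D(t) ≤ t D(t) ≤ ∫_0^t D + ∫_0^(t-1) D + E ≤ 2 ∫_0^t D + E`, `E = C exp(4T)/log z`. With `M = sup_{[0,T]} exp(-4s) D(s)`:
`D(t) ≤ 2 M exp(4t)/4 + E`, so `M ≤ M/2 + E`, `M ≤ 2 E`, `D(t) ≤ 2 E exp(4T) → 0`. -/
def SpecCNV : Prop := ∀ g : ℝ → ℝ, IsG g → ∀ t : ℝ, 0 ≤ t →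
  Tendsto (fun z : ℕ => G z t) atTop (𝓝 (g t))

/-- **WLG** (150 lines). From windows to logarithmic sums (`ρ ≥ 0` arbitrary).
Proof. Lower bound: `J = (x2 - x1)/H` full windows `(x1+jH, x1+(j+1)H]`, `j < J`, inside `(x1,x2]`; on window `j`
`∑ ρ n / n ≥ lam H/(x1+(j+1)H) ≥ lam log((x1+(j+2)H)/(x1+(j+1)H))`; telescoping,
`≥ lam log((x1+(J+1)H)/(x1+H)) ≥ lam log(x2/(x1+H))`. Upper bound: `J = ⌈(x2-x1)/H⌉` windows cover; on window `j`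
`∑ ρ n / n ≤ lam H/(x1+jH) ≤ lam log((x1+jH)/(x1+(j-1)H))`; sum `≤ lam log((x1+(J-1)H)/(x1-H)) ≤ lam log(x2/(x1-H))`. -/
def SpecWLG : Prop := ∀ (ρ : ℕ → ℝ) (H x1 x2 : ℕ) (lam : ℝ), (∀ n, 0 ≤ ρ n) → 0 ≤ lam → 1 ≤ H →
  H < x1 → x1 ≤ x2 →
  ((∀ a, x1 ≤ a → a ≤ x2 → lam * H ≤ ∑ n ∈ Finset.Ioc a (a + H), ρ n) →
    lam * Real.log ((x2 : ℝ) / ((x1 : ℝ) + H)) ≤ ∑ n ∈ Finset.Ioc x1 x2, ρ n / n) ∧
  ((∀ a, x1 ≤ a → a ≤ x2 → ∑ n ∈ Finset.Ioc a (a + H), ρ n ≤ lam * H) →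
    ∑ n ∈ Finset.Ioc x1 x2, ρ n / n ≤ lam * Real.log ((x2 : ℝ) / ((x1 : ℝ) - H)))

/-- **FLG** (180 lines; from WLG; use `RS.Gra.interval`, `RS.Gra.V_pos`, `RS.Gra.V_inv_le`).
Proof. `H = z^(8b+19)`, `x_i = ⌊z^(t_i)⌋`, so `x1 ≥ z^(8b+21) - 1 ≥ z H/...` and `H/x1 ≤ 2/z²`. By `interval`
`|∑_{(a,a+H]} r - H V| ≤ C e^(-b) H V + C z^(8b+17) ≤ (C e^(-b) + C/z) H V` (`1/V ≤ z`). WLG with
`lam = (1 ± (C e^(-b) + C/z)) V` (if the lower `lam` is negative the lower bound is trivial, `G` is monotone), and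
`log (x2/(x1 ∓ H)) = (t2 - t1) log z + O(1/z)`, `V ≤ 1`, `V (t2-t1) log z · C/z` is at most
`η (V log z) (t2-t1)`. -/
def SpecFLG : Prop := ∃ C : ℝ, 0 < C ∧ ∀ (b : ℕ) (t1 t2 η : ℝ), 8 * (b : ℝ) + 21 ≤ t1 → t1 < t2 →
  0 < η → ∀ᶠ z : ℕ in atTop,
    (1 - C * Real.exp (-(b : ℝ)) - η) * (V z * Real.log z) * (t2 - t1) - η ≤ G z t2 - G z t1 ∧
    G z t2 - G z t1 ≤ (1 + C * Real.exp (-(b : ℝ)) + η) * (V z * Real.log z) * (t2 - t1) + η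

/-- **LIM** (180 lines; from CNV, FLG). `V z log z` has a positive limit `c` and `g` has slope `c` at infinity.
Proof. `c_z = V z log z > 0`. Fix `b` with `C e^(-b) ≤ 1/4`, `t1 = 8b+21`, `t2 = t1+1`, `η = 1/4`: the lower bound
of FLG and CNV show that `c_z` is bounded. For any ultrafilter `F ≤ atTop` on `ℕ` let `c_F = lim_F c_z ≥ 0`;
in the limit (first `z`, then `η → 0`) `(1 - C e^(-b)) c_F (t2-t1) ≤ g t2 - g t1 ≤ (1 + C e^(-b)) c_F (t2-t1)` for all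
`t2 > t1 ≥ 8b+21`. So `g(t+1) - g(t) → c_F` as `t → ∞`: all `c_F` are equal, `c_z → c`. `c > 0`: otherwise `g` is
constant on `[8b+21, ∞)`, but `g' (t) = g(t-1)/t > 0`. The constant in the claim is `C c` (or its maximum with 1). -/
def SpecLIM : Prop := ∀ g : ℝ → ℝ, IsG g → ∃ c : ℝ, 0 < c ∧
  Tendsto (fun z : ℕ => V z * Real.log z) atTop (𝓝 c) ∧
  ∃ C : ℝ, 0 < C ∧ ∀ (b : ℕ) (t1 t2 : ℝ), 8 * (b : ℝ) + 21 ≤ t1 → t1 < t2 →
    |g t2 - g t1 - c * (t2 - t1)| ≤ C * Real.exp (-(b : ℝ)) * (t2 - t1)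

/-- **OSC** (150 lines; real analysis). `g` is not eventually at least as steep as its asymptotic slope.
Proof. `E(t) = g(t) - c (t+1)`. For `t > 1`: `E'(t) = g(t-1)/t - c = E(t-1)/t`. By the estimate
`|E(t2) - E(t1)| ≤ C e^(-b)(t2-t1)`, so `|E'(t1)| ≤ C e^(-b)`, `|E(t1 - 1)| ≤ t1 C e^(-b)` for `8b+21 ≤ t1 ≤ 8b+29`:
`E → 0` at infinity. Suppose the claim fails: `E` is nondecreasing on `[U,∞)` (`U ≥ 2`). Then `E ≤ 0` on
`[U,∞)`, and `E(t-1) = t E'(t) ≥ 0` for `t > U`, so `E = 0` on `[U,∞)`. If `E = 0` on `(s,∞)`, then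
`E(t-1) = t E'(t) = 0` for `t > max(s,1)`, so `E = 0` on `(max(s,1)-1,∞)`; after finitely many steps `E = 0` on
`(0,∞)`; but `E(t) = 1 - c(t+1)` for `t ≤ 1`, a contradiction (`E(1/2) = E(1) = 0`). -/
def SpecOSC : Prop := ∀ (g : ℝ → ℝ) (c C : ℝ), IsG g → 0 < c → 0 < C →
  (∀ (b : ℕ) (t1 t2 : ℝ), 8 * (b : ℝ) + 21 ≤ t1 → t1 < t2 →
    |g t2 - g t1 - c * (t2 - t1)| ≤ C * Real.exp (-(b : ℝ)) * (t2 - t1)) →
  ∀ U : ℝ, ∃ t1 t2 : ℝ, U ≤ t1 ∧ t1 < t2 ∧ g t2 - g t1 < c * (t2 - t1)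

/-- **DEF** (180 lines; from DDE, CNV, LIM, OSC, WLG). Deficient windows of every length `≤ z^U`.
Proof. OSC with `max U 1 + 2` gives `t1 < t2`; choose `kap0 < kap < 1` with `g t2 - g t1 < kap0 c (t2-t1)`. By CNV, LIM
`G z t2 - G z t1 < kap0' V (t2-t1) log z` for large `z`, `kap0' < kap`. If every window `(a,a+H]` with
`x1 = ⌊z^(t1)⌋ ≤ a ≤ x2 = ⌊z^(t2)⌋` had more than `kap V H` rough numbers, WLG would give
`G z t2 - G z t1 ≥ kap V log(x2/(x1+H)) ≥ kap V ((t2-t1) log z - 4/z)` (`H ≤ z^U ≤ x1/z`), a contradiction for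
large `z`, as `V log z → c > 0`. Take `T` with `t2 ≤ T`. -/
def SpecDEF : Prop := ∀ U : ℕ, ∃ kap : ℝ, 0 < kap ∧ kap < 1 ∧ ∃ T z0 : ℕ, ∀ z : ℕ, z0 ≤ z →
  ∀ H : ℕ, 1 ≤ H → H ≤ z ^ U → ∃ a : ℕ, a ≤ z ^ T ∧
    ∑ n ∈ Finset.Ioc a (a + H), r z n ≤ kap * V z * H

/-- **SVK** (180 lines). The sieve in `k` (`Pool.Agent.Lib.MP391708.QPA.specFL`, as in `RS.Gra.interval`).
Proof. `specFL` with `z := w`, `S = Ioc K0 (K0+K)`, `v k = k M + n0`, `om = 1`, `X = K`, `g p = 0` if `p < z`, `1/p`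
otherwise; `∏_{p<w} (1 - g p) = V w / V z`. Remainder: let `δ` be squarefree with all prime factors `< w`. If a
prime `p < z` divides `δ`: `p ∣ M`, `p ∤ n0` (`r z n0 = 1`), so `δ ∤ k M + n0`, the count is `0` and `∏ g = 0`. Otherwise
`δ` is coprime to `M`, `k` runs over one class modulo `δ`, and `|count - K/δ| ≤ 1`. There are at most
`w^(8b+16)` values of `δ`, and `1 + log w ≤ w`. -/
def SpecSVK : Prop := ∃ C : ℝ, 0 < C ∧ ∀ b z w M n0 K0 K : ℕ, 2 ≤ z → z ≤ w →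
  (∀ p : ℕ, p.Prime → (p ∣ M ↔ p < z)) → r z n0 = 1 →
  ∑ k ∈ Finset.Ioc K0 (K0 + K), r w (k * M + n0) ≤
    (1 + C * Real.exp (-(b : ℝ))) * K * (V w / V z) + C * (w : ℝ) ^ (8 * b + 17)

/-- **AVG** (150 lines; from SVK). A positive proportion of the shifts `k M` of a deficient window is
deficient at level `w`.
Proof. `∑_k ∑_{n ∈ (a,a+H]} r w (kM+n)`: only `n` with `r z n = 1` contribute (if a prime `p < z` divides `n` it
divides `k M + n` and `p < w`); by SVK the sum is at most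
`kap V(z) H (1 + C e^(-b)) K V(w)/V(z) + H C w^(8b+17) ≤ (kap (1 + C e^(-b)) + s) V(w) H K =: kap3 V(w) H K`, if
`C w^(8b+18) ≤ s K` (`1/V(w) ≤ w`), which holds if `w^A ≤ K`, `A = 8b+18+j`, `C ≤ s 2^j`. Choose `b`, `s` with
`kap3 < kap'`; then by Markov's inequality fewer than `(kap3/kap') K` of the `k` are bad. `rho = 1 - kap3/kap'`. -/
def SpecAVG : Prop := ∀ kap kap' : ℝ, 0 < kap → kap < kap' → kap' < 1 →
  ∃ (rho : ℝ) (A : ℕ), 0 < rho ∧ ∀ z w M a H K0 K : ℕ, 2 ≤ z → z ≤ w →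
  (∀ p : ℕ, p.Prime → (p ∣ M ↔ p < z)) → 1 ≤ H →
  ∑ n ∈ Finset.Ioc a (a + H), r z n ≤ kap * V z * H → w ^ A ≤ K →
  ∃ I : Finset ℕ, I ⊆ Finset.Ioc K0 (K0 + K) ∧ rho * K ≤ I.card ∧
    ∀ k ∈ I, ∑ n ∈ Finset.Ioc a (a + H), r w (k * M + n) ≤ kap' * V w * H

/-! ## Part P: probability and assembly -/

/-- **EMP** (150 lines). Disjoint windows of independent events.
Proof. (i) `μ.real (⋂_{n ∈ W} (B n)ᶜ) = ∏_{n ∈ W} (1 - μ.real (B n))`, (ii) for pairwise disjoint `W k` the events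
`⋃_{n ∈ W k} B n` are independent, both by induction with
`iIndepSet.indep_generateFrom_of_disjoint` (see `RS.Ind.dens`) or `iIndepFun.finsets`. So the probability is
`∏_k (1 - ∏_{n ∈ W k} (1 - μ.real (B n))) ≤ (1-q)^|I|`. -/
def SpecEMP : Prop := ∀ (Ω : Type*) (_ : MeasurableSpace Ω) (μ : Measure Ω),
  IsProbabilityMeasure μ → ∀ (B : ℕ → Set Ω), (∀ n, MeasurableSet (B n)) → iIndepSet B μ →
  ∀ (I : Finset ℕ) (W : ℕ → Finset ℕ) (q : ℝ),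
  (∀ k ∈ I, ∀ l ∈ I, k ≠ l → Disjoint (W k) (W l)) → 0 ≤ q →
  (∀ k ∈ I, q ≤ ∏ n ∈ W k, (1 - μ.real (B n))) →
  μ.real {ω | ∀ k ∈ I, ∃ n ∈ W k, ω ∈ B n} ≤ (1 - q) ^ I.card

/-- **PIE** (40 lines). Pigeonhole: a monotone `w` that grows by less than `J` on `J` consecutive pieces is
constant on one of them. -/
def SpecPIE : Prop := ∀ (w : ℕ → ℕ) (x H J : ℕ), Monotone w → w (x + J * H) < w x + J →
  ∃ j : ℕ, j < J ∧ ∀ n : ℕ, x + j * H ≤ n → n ≤ x + (j + 1) * H → w n = w (x + j * H)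

/-- **DTF** (150 lines). Infinitely many long runs violate Shanks' law.
Proof. Suppose `ShanksLaw S`: `log (firstElt S g) ≥ (1-δ)√g` for `g ≥ g0` (`sInf ∅ = 0` and `log 0 = 0`, so the sets are
nonempty for large `g`, and `S` is unbounded), where `(1-δ)² (1+ε) > 1`. Take a large `x` as in the hypothesis,
`L = ⌊(1+ε) log² x⌋`, `q` the least element of `S` that is `≥ a + L`, `g = q - a ≥ L`. The `g` predecessors of `q` are
in `[a,q)`, greater than `1` and not in `S`, so `firstElt S g ≤ q = a + g ≤ 2x + g`, `(1-δ)√g ≤ log (2x+g)`. If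
`g ≤ 2x` this contradicts `g ≥ (1+ε) log² x - 1`, as `log (4x) = log x + log 4`; if `g > 2x` it reads `(1-δ)√g ≤ log (2g)`,
false for large `g`. -/
def SpecDTF : Prop := ∀ (S : Set ℕ) (ε : ℝ), 0 < ε →
  (∃ᶠ x : ℕ in atTop, ∃ a : ℕ, x ≤ a ∧ a ≤ 2 * x ∧
    ∀ n, a ≤ n → n < a + ⌊(1 + ε) * Real.log x ^ 2⌋₊ → n ∉ S) → ¬ ShanksLaw S

/-- **MOD** (60 lines). The modulus: `primorial (z-1) * 2^e` with `H ≤ 2^e ≤ 2 H`
(`Nat.Prime.dvd_primorial`-type facts, `primorial_le_four_pow`). -/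
def SpecMOD : Prop := ∀ z H : ℕ, 3 ≤ z → 1 ≤ H → ∃ M : ℕ, (∀ p : ℕ, p.Prime → (p ∣ M ↔ p < z)) ∧
  H ≤ M ∧ M ≤ 4 ^ z * (2 * H)

/-- **CGZ** (80 lines; from DDE, LIM). The densities tend to `0` if `log w(n) = o(log n)`.
Proof. `0 ≤ cgDens w n ≤ 1/(V(w n) log n)`; `V z log z → c > 0` gives `1/V z ≤ (2/c) log z` for `z ≥ z1`, and
`1/V z ≤ z ≤ z1` for `2 ≤ z < z1`; so `cgDens w n ≤ (z1 + (2/c) log (w n))/log n → 0`. -/
def SpecCGZ : Prop := ∀ w : ℕ → ℕ, (∀ n, 2 ≤ w n) →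
  (fun n => Real.log (w n)) =o[atTop] (fun n : ℕ => Real.log n) →
  Tendsto (fun n => cgDens w n) atTop (𝓝 0)

/-- The data produced by SEL: for infinitely many `x` at least `x^β'` disjoint windows in `[x,2x]` of
length `H = ⌊(1+ε) log² x⌋` whose total density is at most `β log x`, `β < β'`. -/
def Sel (w : ℕ → ℕ) : Prop := ∃ ε β β' : ℝ, 0 < ε ∧ 0 < β ∧ β < β' ∧
  ∃ᶠ x : ℕ in atTop, ∃ I : Finset ℕ,
    (∀ s ∈ I, x ≤ s ∧ s + ⌊(1 + ε) * Real.log x ^ 2⌋₊ ≤ 2 * x) ∧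
    (∀ s ∈ I, ∀ s' ∈ I, s ≠ s' → Disjoint (Finset.Ico s (s + ⌊(1 + ε) * Real.log x ^ 2⌋₊))
      (Finset.Ico s' (s' + ⌊(1 + ε) * Real.log x ^ 2⌋₊))) ∧
    (x : ℝ) ^ β' ≤ I.card ∧
    ∀ s ∈ I, ∑ n ∈ Finset.Ico s (s + ⌊(1 + ε) * Real.log x ^ 2⌋₊), cgDens w n ≤ β * Real.log x

/-- **SEL** (300 lines; from DEF, AVG, PIE, MOD).
Proof. There is `a0 ∈ (0,1]` with `w x ≥ (log x)^a0` for infinitely many `x`. `U ≥ 6/a0`; DEF gives `kap < 1`; `kap' =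
(1+kap)/2`, `β = (1+ε) kap' + small < 1`, `σ = (1-β)/4`, `β' = β + σ = 1 - 3σ`. For such a large `x`: PIE with
`J = ⌊x^σ⌋ > w (2x)`, pieces of length `⌊x^(1-σ)⌋`; `w = w0 ≥ (log x)^a0` on one piece in `[x,2x]`.
`z = min w0 ⌊δ log x⌋`, `4^z ≤ x^(σ/2)`, `z ≥ (log x)^(a0/2)`, `H ≤ 2 log² x ≤ z^U`. MOD: `M ≤ x^(σ/2) 2 H`.
AVG: at least `rho K` deficient shifts, `K ≈ x^(1-σ)/M ≥ x^(1-3σ)/rho`; on each window the total density is at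
most `kap' V(w0) H/(V(w0) log x) ≤ β log x`. -/
def SpecSEL : Prop := ∀ w : ℕ → ℕ, Monotone w → (∀ n, 2 ≤ w n) →
  (fun n => Real.log (w n)) =o[atTop] (fun n : ℕ => Real.log n) →
  ¬ (fun n => Real.log (w n)) =o[atTop] (fun n : ℕ => Real.log (Real.log n)) → Sel w

universe u

/-- **PRB** (180 lines; from EMP, DTF, CGZ).
Proof. Let `t > 1` with `t β < β'`, `κ > 0` with `exp(-t p) ≤ 1 - p` for `0 ≤ p ≤ κ` (see `RS.exists_kappa`). For a large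
`x` as in `Sel w` all `p_n = μ.real (B n) = cgDens w n` in the windows are `≤ κ`, so `∏ (1 - p_n) ≥ exp(-t β log x) = x^(-tβ) = q`
and by EMP (index set `I`, `W s = Ico s (s+H)`) the probability that no window is empty is at most
`(1-q)^|I| ≤ exp(-q |I|) ≤ exp(-x^(β' - tβ))`, which is summable over `x`. By Borel-Cantelli
(`ae_eventually_notMem`, see `RS.Dens.ae_lower`), almost surely for all large `x` as in `Sel w` some window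
contains no element of `evSet B ω`; DTF. -/
def SpecPRB : Prop := ∀ (Ω : Type u) (_ : MeasurableSpace Ω) (μ : Measure Ω),
  IsProbabilityMeasure μ → ∀ (B : ℕ → Set Ω), (∀ n, MeasurableSet (B n)) → iIndepSet B μ →
  ∀ w : ℕ → ℕ, (∀ n, 2 ≤ w n) → Tendsto (fun n => cgDens w n) atTop (𝓝 0) →
  (∀ᶠ n in atTop, μ.real (B n) = cgDens w n) → Sel w → ∀ᵐ ω ∂μ, ¬ ShanksLaw (evSet B ω)

/-- **MAIN** (from SEL, CGZ, PRB). -/
def SpecMAIN : Prop := ∀ (Ω : Type u) (_ : MeasurableSpace Ω) (μ : Measure Ω),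
  IsProbabilityMeasure μ → ∀ (B : ℕ → Set Ω), (∀ n, MeasurableSet (B n)) → iIndepSet B μ →
  ∀ w : ℕ → ℕ, Monotone w → (∀ n, 2 ≤ w n) →
  (fun n => Real.log (w n)) =o[atTop] (fun n : ℕ => Real.log n) →
  ¬ (fun n => Real.log (w n)) =o[atTop] (fun n : ℕ => Real.log (Real.log n)) →
  (∀ᶠ n in atTop, μ.real (B n) = cgDens w n) →
  ∀ᵐ ω ∂μ, ¬ ShanksLaw (evSet B ω)

theorem main_of (hSEL : SpecSEL) (hCGZ : SpecCGZ) (hPRB : SpecPRB.{u}) : SpecMAIN.{u} :=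
  fun Ω m0 μ hμ B hB hI w hm h2 h1 h3 hd =>
    hPRB Ω m0 μ hμ B hB hI w h2 (hCGZ w h2 h1) hd (hSEL w hm h2 h1 h3)

end Pool.Agent.Lib.MP_926cc3_nt.TH
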